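import Pool.Agent.Work.MP_4545a8_an.Ex.FacEx

set_option autoImplicit false

/-!
MODULE Mix (small). The factor is mixing (`Mixing` in Defs) and its maps are onto.

PROOF of `fac_mixing`. Let `0 ≤ p < q ≤ 1`, `ε > 0`. Take `u, v ∈ Icc c d` with `φ u = p`, `φ v = q`
(`fac_onto`); `u < v` and `Icc u v` is big (`H.ker`). By continuity of `φ` at `c` and `d` there are
`s, t` with `c < s`, `t < d`, `φ s < ε`, `1 - ε < φ t`. `cover_big` (module Strong) gives `N` with
`Icc s t ⊆ (f ∘ g)^n '' Icc u v` for `n ≥ N`. Let `z ∈ Icc ε (1 - ε)` (so `z ∈ [0,1]`), `z = φ w`,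
`w ∈ Icc c d`; then `s < w < t` by monotonicity; `w = (f ∘ g)^n w'`, `w' ∈ Icc u v`, and
`z = (F ∘ G)^n (φ w')` (`fac_hn`), `φ w' ∈ Icc p q`.
PROOF of `fac_surj_f`: `F` has values in `[0,1]`; if `z = φ w`, `w ∈ Icc c d`, then `w = f w'` with
`w' ∈ Icc c d` (`hC.ff`) and `z = F (φ w')`.
-/

namespace Pool.Agent.MP4545.Ex

open Set Function Filter Topology
open Pool.Agent.MP4545

variable {f g F G φ : ℝ → ℝ} {a b x c d : ℝ}

theorem fac_mixing (S : Sys f g a b) (hno : NoCommon f g) (hC : Core f g a b x c d)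
    (H : Fac f g x c d F G φ) : Mixing F G := by
  intro p q hp hpq hq ε hε
  obtain ⟨u, hu, hup⟩ := fac_onto hC H (u := p) ⟨hp, by linarith⟩
  obtain ⟨v, hv, hvq⟩ := fac_onto hC H (u := q) ⟨by linarith, hq⟩
  have huv : u < v := by
    by_contra hcon
    push Not at hcon
    have := H.mono hcon
    rw [hup, hvq] at this
    linarith
  have hB : Big f g x (Icc u v) := by
    by_contra hcon
    have := (H.ker u v hu.1 huv.le hv.2).2 hcon
    rw [hup, hvq] at this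
    exact hpq.ne this
  have hs : ∃ s, c < s ∧ φ s < ε := by
    obtain ⟨δ, hδ, h⟩ := Metric.continuousAt_iff.1 (H.cφ.continuousAt (x := c)) ε hε
    refine ⟨c + δ / 2, by linarith, ?_⟩
    have := h (x := c + δ / 2) (by rw [Real.dist_eq, abs_lt]; constructor <;> linarith)
    rw [Real.dist_eq, H.left, sub_zero, abs_lt] at this
    exact this.2
  have ht : ∃ t, t < d ∧ 1 - ε < φ t := by
    obtain ⟨δ, hδ, h⟩ := Metric.continuousAt_iff.1 (H.cφ.continuousAt (x := d)) ε hε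
    refine ⟨d - δ / 2, by linarith, ?_⟩
    have := h (x := d - δ / 2) (by rw [Real.dist_eq, abs_lt]; constructor <;> linarith)
    rw [Real.dist_eq, H.right, abs_lt] at this
    linarith [this.1]
  obtain ⟨s, hs1, hs2⟩ := hs
  obtain ⟨t, ht1, ht2⟩ := ht
  obtain ⟨N, hN⟩ := cover_big S hno hC ordConnected_Icc hB hs1 ht1
  refine ⟨N, fun n hn => ?_⟩
  intro z hz
  have hz01 : z ∈ Icc (0 : ℝ) 1 := ⟨by linarith [hz.1], by linarith [hz.2]⟩
  obtain ⟨w, hw, rfl⟩ := fac_onto hC H hz01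
  have hsw : s ≤ w := by
    by_contra hcon
    push Not at hcon
    have := H.mono hcon.le
    linarith [hz.1]
  have hwt : w ≤ t := by
    by_contra hcon
    push Not at hcon
    have := H.mono hcon.le
    linarith [hz.2]
  obtain ⟨w', hw', e⟩ := hN n hn ⟨hsw, hwt⟩
  have hw'I : w' ∈ Icc c d := ⟨hu.1.trans hw'.1, hw'.2.trans hv.2⟩
  refine ⟨φ w', ⟨?_, ?_⟩, ?_⟩
  · rw [← hup]; exact H.mono hw'.1
  · rw [← hvq]; exact H.mono hw'.2
  · rw [(fac_hn hC H hw'I n).1, e]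

theorem fac_surj_f (hC : Core f g a b x c d) (H : Fac f g x c d F G φ) :
    F '' Icc (0 : ℝ) 1 = Icc (0 : ℝ) 1 := by
  apply Subset.antisymm
  · rintro _ ⟨u, -, rfl⟩
    exact H.sys.rf u
  · intro z hz
    obtain ⟨w, hw, rfl⟩ := fac_onto hC H hz
    rw [← hC.ff] at hw
    obtain ⟨w', hw', rfl⟩ := hw
    exact ⟨φ w', fac_val H hw', H.fφ w' hw'⟩

theorem fac_surj_g (hC : Core f g a b x c d) (H : Fac f g x c d F G φ) :
    G '' Icc (0 : ℝ) 1 = Icc (0 : ℝ) 1 := by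
  apply Subset.antisymm
  · rintro _ ⟨u, -, rfl⟩
    exact H.sys.rg u
  · intro z hz
    obtain ⟨w, hw, rfl⟩ := fac_onto hC H hz
    rw [← hC.gg] at hw
    obtain ⟨w', hw', rfl⟩ := hw
    exact ⟨φ w', fac_val H hw', H.gφ w' hw'⟩

end Pool.Agent.MP4545.Ex
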