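import Pool.Agent.Work.MP_4545a8_an.Ex.BigL

set_option autoImplicit false

/-!
MODULE ZLem (medium). Around a core point `x` (see `Core` in Defs) every closed interval
`E ⊆ [c,d]` invariant under `f^r` and `g^r` is the whole interval `[c,d]`.

PROOF of `two_set`: for a set `B` with at most two elements (every element is `p` or `q`) mapped to
itself by `F` one has `F (F (F (F u))) = F (F u)` for `u ∈ B` (cases). So with `F = f^r`, `G = g^r`,
`u ∈ B`, the point `v = F (F (G (G u)))` satisfies `f^(2r) v = v`, `g^(2r) v = v` (`F`, `G` commute):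
against `NoCommon`.
PROOF of `z_lemma`. If `Big E`: `(f ∘ g)^r` maps `E` to itself (`Function.Commute.comp_iterate`,
compare `iter_inv` in Trap.lean), use `big_inside`. Suppose `¬ Big E`. Let `e ∈ E` and
`C = {t | t ∈ Icc c d ∧ ¬ Big f g x (uIcc e t)}`.
(1) `e ∈ C` (`not_big_single`). (2) `C` is closed: let `t` be in the closure and suppose
`Big (uIcc e t)`; `t ≠ e`; by `big_open` there are `u' < v'` strictly between `e` and `t` with
`Big (Icc u' v')`; for `t'` close to `t`, `Icc u' v' ⊆ uIcc e t'`, so `Big (uIcc e t')`, so `t' ∉ C`.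
(3) `C` is order connected, because `uIcc e t' ⊆ uIcc e t` for `t'` between `e` and `t`.
(4) `C` is not big: `C = Icc c1 d1` (`eq_Icc`), `Icc c1 e` and `Icc e d1` are not big, `big_union`.
Hence `C ≠ Icc c d` (`big_Icc`).
(5) `w = f^r` maps `C` to `C`: for `t ∈ C` the interval `uIcc e (w t)` is contained in
`uIcc e (w e) ∪ w '' uIcc e t`, an order connected union (both pieces contain `w e`); the first piece is
in `E`, not big, the second is not big by `big_fn`; `big_union`, `big_mono`. The same for `w = g^r`.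
(6) Let `B = {y | (y = c1 ∧ c < c1) ∨ (y = d1 ∧ d1 < d)}`; nonempty by (4). `w` maps `B` to `B`: let
`y = c1`, `c < c1`. `w c1 ∈ C`. Suppose `w c1 ∉ B`. Then there is `ε > 0` such that all points of
`Icc c d` at distance `< ε` from `w c1` are in `C`. By continuity there is `t ∈ [c, c1)` with
`|w u - w c1| < ε` for `u ∈ [t, c1]`, so `w '' Icc t c1 ⊆ C` (it is in `Icc c d` by `ff`, `gg`)
is not big, so `Icc t c1` is not big (`big_fn`, `big_gn`). But `t ∉ C`, so `Icc t e` is big, and
`Icc c1 e` is not: `big_union` gives `Big (Icc t c1)`, contradiction. The same for `y = d1`.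
(7) `B ⊆ {c1, d1}`: `two_set` gives the contradiction.
-/

namespace Pool.Agent.MP4545.Ex

open Set Function Filter Topology
open Pool.Agent.MP4545

variable {f g : ℝ → ℝ} {a b x c d : ℝ}

theorem two_set (S : Sys f g a b) (hno : NoCommon f g) {r : ℕ} (hr : 0 < r) {B : Set ℝ} {p q : ℝ}
    (hne : B.Nonempty) (hB : ∀ y ∈ B, y = p ∨ y = q) (hf : MapsTo f^[r] B B)
    (hg : MapsTo g^[r] B B) : False := by
  have h4 : ∀ w : ℝ → ℝ, MapsTo w B B → ∀ u ∈ B, w (w (w (w u))) = w (w u) := by
    intro w hw u hu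
    have h3 : w u = u ∨ w (w u) = u ∨ w (w u) = w u := by
      rcases hB u hu with e1 | e1 <;> rcases hB _ (hw hu) with e2 | e2 <;>
        rcases hB _ (hw (hw hu)) with e3 | e3 <;>
        first
          | exact Or.inl (e2.trans e1.symm)
          | exact Or.inr (Or.inl (e3.trans e1.symm))
          | exact Or.inr (Or.inr (e3.trans e2.symm))
    rcases h3 with e | e | e
    · simp only [e]
    · simp only [e]
    · simp only [e]
  obtain ⟨u, hu⟩ := hne
  have hFG : ∀ y, f^[r] (g^[r] y) = g^[r] (f^[r] y) := fun y =>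
    ((show Function.Commute f g from S.comm).iterate_iterate r r).eq y
  set F := f^[r] with hF
  set G := g^[r] with hG
  have e1 : F (F (F (F (G (G u))))) = F (F (G (G u))) := h4 F hf _ (hg (hg hu))
  have e2 : G (G (F (F (G (G u))))) = F (F (G (G u))) := by
    rw [← hFG, ← hFG, ← hFG, ← hFG, h4 G hg u hu]
  refine hno (F (F (G (G u)))) (r + r) (r + r) (by omega) (by omega) ?_ ?_
  · rw [iterate_add_apply]; exact e1
  · rw [iterate_add_apply]; exact e2

theorem z_lemma (S : Sys f g a b) (hno : NoCommon f g) (hC : Core f g a b x c d) {E : Set ℝ}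
    (hcl : IsClosed E) (hoc : OrdConnected E) (hne : E.Nonempty) (hsub : E ⊆ Icc c d) {r : ℕ}
    (hr : 0 < r) (hf : MapsTo f^[r] E E) (hg : MapsTo g^[r] E E) : E = Icc c d := by
  by_cases hB : Big f g x E
  · refine big_inside S hno hC hcl hoc hsub hr ?_ hB
    rw [(show Function.Commute f g from S.comm).comp_iterate]
    exact hf.comp hg
  exfalso
  obtain ⟨e, he⟩ := hne
  have heI : e ∈ Icc c d := hsub he
  set C : Set ℝ := {t | t ∈ Icc c d ∧ ¬ Big f g x (uIcc e t)} with hCdef
  have heC : e ∈ C := ⟨heI, by rw [uIcc_self, ← Icc_self]; exact not_big_single e⟩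
  have hCsub : C ⊆ Icc c d := fun t ht => ht.1
  have hCord : OrdConnected C := by
    constructor
    intro t ht t' ht' z hz
    refine ⟨⟨ht.1.1.trans hz.1, hz.2.trans ht'.1.2⟩, fun hb => ?_⟩
    rcases le_total z e with h | h
    · apply ht.2
      refine big_mono ?_ hb
      rw [uIcc_of_ge h, uIcc_of_ge (hz.1.trans h)]
      exact Icc_subset_Icc hz.1 le_rfl
    · apply ht'.2
      refine big_mono ?_ hb
      rw [uIcc_of_le h, uIcc_of_le (h.trans hz.2)]
      exact Icc_subset_Icc le_rfl hz.2
  have hCcl : IsClosed C := by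
    rw [← closure_subset_iff_isClosed]
    intro t ht
    have htI : t ∈ Icc c d := by
      have := closure_mono hCsub ht
      rwa [isClosed_Icc.closure_eq] at this
    refine ⟨htI, fun hb => ?_⟩
    rcases lt_trichotomy t e with h | h | h
    · rw [uIcc_of_ge h.le] at hb
      obtain ⟨u', v', h1, h2, h3, h4⟩ := big_open S hno hC h hb
      obtain ⟨t', ht1, ht2⟩ := mem_closure_iff.1 ht (Iio u') isOpen_Iio h1
      apply ht2.2
      refine big_mono ?_ h4
      have h5 : t' < u' := ht1
      rw [uIcc_of_ge (by linarith)]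
      exact Icc_subset_Icc h5.le h3.le
    · rw [h, uIcc_self, ← Icc_self] at hb
      exact not_big_single e hb
    · rw [uIcc_of_le h.le] at hb
      obtain ⟨u', v', h1, h2, h3, h4⟩ := big_open S hno hC h hb
      obtain ⟨t', ht1, ht2⟩ := mem_closure_iff.1 ht (Ioi v') isOpen_Ioi h3
      apply ht2.2
      refine big_mono ?_ h4
      have h5 : v' < t' := ht1
      rw [uIcc_of_le (by linarith)]
      exact Icc_subset_Icc h1.le h5.le
  have hCc : IsCompact C := isCompact_Icc.of_isClosed_subset hCcl hCsub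
  have hCI := eq_Icc hCc hCord ⟨e, heC⟩
  set c1 := sInf C with hc1
  set d1 := sSup C with hd1
  have hc1C : c1 ∈ C := hCc.sInf_mem ⟨e, heC⟩
  have hd1C : d1 ∈ C := hCc.sSup_mem ⟨e, heC⟩
  have hce : c1 ≤ e := csInf_le hCc.bddBelow heC
  have hed : e ≤ d1 := le_csSup hCc.bddAbove heC
  have nb1 : ¬ Big f g x (Icc c1 e) := by
    have := hc1C.2
    rwa [uIcc_of_ge hce] at this
  have nb2 : ¬ Big f g x (Icc e d1) := by
    have := hd1C.2
    rwa [uIcc_of_le hed] at this
  have hCnb : ¬ Big f g x C := by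
    intro hb
    rw [hCI, ← Icc_union_Icc_eq_Icc hce hed] at hb
    rcases big_union S hno hC (by rw [Icc_union_Icc_eq_Icc hce hed]; exact ordConnected_Icc) hb
      with h | h
    · exact nb1 h
    · exact nb2 h
  have hCne : C ≠ Icc c d := by
    intro h
    apply hCnb
    rw [h]
    exact big_Icc S hno hC
  set Bd : Set ℝ := {y | (y = c1 ∧ c < c1) ∨ (y = d1 ∧ d1 < d)} with hBd
  have nbhd : ∀ p ∈ C, p ∉ Bd → ∃ ε > 0, ∀ v ∈ Icc c d, |v - p| < ε → v ∈ C := by
    intro p hp hpB
    have hp1 : c1 ≤ p := csInf_le hCc.bddBelow hp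
    have hp2 : p ≤ d1 := le_csSup hCc.bddAbove hp
    have l1 : ∃ ε > 0, ∀ v ∈ Icc c d, |v - p| < ε → c1 ≤ v := by
      rcases hp1.lt_or_eq with h | h
      · refine ⟨p - c1, by linarith, fun v _ hv => ?_⟩
        rw [abs_lt] at hv
        linarith [hv.1]
      · refine ⟨1, one_pos, fun v hv _ => ?_⟩
        by_contra hcon
        exact hpB (Or.inl ⟨h.symm, lt_of_le_of_lt hv.1 (not_le.1 hcon)⟩)
    have l2 : ∃ ε > 0, ∀ v ∈ Icc c d, |v - p| < ε → v ≤ d1 := by
      rcases hp2.lt_or_eq with h | h
      · refine ⟨d1 - p, by linarith, fun v _ hv => ?_⟩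
        rw [abs_lt] at hv
        linarith [hv.2]
      · refine ⟨1, one_pos, fun v hv _ => ?_⟩
        by_contra hcon
        exact hpB (Or.inr ⟨h, lt_of_lt_of_le (not_le.1 hcon) hv.2⟩)
    obtain ⟨ε1, h1, k1⟩ := l1
    obtain ⟨ε2, h2, k2⟩ := l2
    refine ⟨min ε1 ε2, lt_min h1 h2, fun v hv hvp => ?_⟩
    rw [hCI]
    exact ⟨k1 v hv (hvp.trans_le (min_le_left _ _)), k2 v hv (hvp.trans_le (min_le_right _ _))⟩
  have main : ∀ w : ℝ → ℝ, Continuous w → MapsTo w (Icc c d) (Icc c d) → MapsTo w E E →
      (∀ J, Big f g x (w '' J) ↔ Big f g x J) → MapsTo w Bd Bd := by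
    intro w cw wI wE wB
    have wimg : ∀ s t, uIcc (w s) (w t) ⊆ w '' uIcc s t := by
      intro s t
      have h1 : OrdConnected (w '' uIcc s t) := isPreconnected_iff_ordConnected.1
        ((isPreconnected_iff_ordConnected.2 ordConnected_uIcc).image w cw.continuousOn)
      exact h1.uIcc_subset (mem_image_of_mem _ left_mem_uIcc) (mem_image_of_mem _ right_mem_uIcc)
    have wC : MapsTo w C C := by
      intro t ht
      refine ⟨wI ht.1, fun hb => ?_⟩
      have h1 : uIcc e (w t) ⊆ uIcc e (w e) ∪ w '' uIcc e t :=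
        uIcc_subset_uIcc_union_uIcc.trans (union_subset_union_right _ (wimg e t))
      have h2 : OrdConnected (uIcc e (w e) ∪ w '' uIcc e t) := by
        apply isPreconnected_iff_ordConnected.1
        apply IsPreconnected.union (w e) right_mem_uIcc (mem_image_of_mem _ left_mem_uIcc)
        · exact isPreconnected_uIcc
        · exact isPreconnected_uIcc.image w cw.continuousOn
      rcases big_union S hno hC h2 (big_mono h1 hb) with h | h
      · exact hB (big_mono (hoc.uIcc_subset he (wE he)) h)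
      · exact ht.2 ((wB _).1 h)
    rintro y (⟨rfl, hy⟩ | ⟨rfl, hy⟩)
    · by_contra hcon
      obtain ⟨ε, hε, hεC⟩ := nbhd _ (wC hc1C) hcon
      obtain ⟨δ, hδ, hδw⟩ := Metric.continuousAt_iff.1 (cw.continuousAt (x := c1)) ε hε
      have ht1 : max c (c1 - δ / 2) < c1 := max_lt hy (by linarith)
      have ht2 : c ≤ max c (c1 - δ / 2) := le_max_left _ _
      have ht3 : c1 - δ / 2 ≤ max c (c1 - δ / 2) := le_max_right _ _
      set t := max c (c1 - δ / 2) with ht
      have himg : w '' Icc t c1 ⊆ C := by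
        rintro _ ⟨u, hu, rfl⟩
        apply hεC _ (wI ⟨ht2.trans hu.1, hu.2.trans hc1C.1.2⟩)
        have := hδw (x := u) (by rw [Real.dist_eq, abs_lt]; constructor <;> linarith [hu.1, hu.2])
        rwa [Real.dist_eq] at this
      have hnb : ¬ Big f g x (Icc t c1) := fun h => hCnb (big_mono himg ((wB _).2 h))
      have htC : t ∉ C := fun h => absurd (csInf_le hCc.bddBelow h) (not_le.2 ht1)
      have htB : Big f g x (uIcc e t) := by
        by_contra h
        exact htC ⟨⟨ht2, by linarith [hc1C.1.2]⟩, h⟩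
      rw [uIcc_of_ge (by linarith), ← Icc_union_Icc_eq_Icc ht1.le hce] at htB
      rcases big_union S hno hC (by rw [Icc_union_Icc_eq_Icc ht1.le hce]; exact ordConnected_Icc)
        htB with h | h
      · exact hnb h
      · exact nb1 h
    · by_contra hcon
      obtain ⟨ε, hε, hεC⟩ := nbhd _ (wC hd1C) hcon
      obtain ⟨δ, hδ, hδw⟩ := Metric.continuousAt_iff.1 (cw.continuousAt (x := d1)) ε hε
      have ht1 : d1 < min d (d1 + δ / 2) := lt_min hy (by linarith)
      have ht2 : min d (d1 + δ / 2) ≤ d := min_le_left _ _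
      have ht3 : min d (d1 + δ / 2) ≤ d1 + δ / 2 := min_le_right _ _
      set t := min d (d1 + δ / 2) with ht
      have himg : w '' Icc d1 t ⊆ C := by
        rintro _ ⟨u, hu, rfl⟩
        apply hεC _ (wI ⟨hd1C.1.1.trans hu.1, hu.2.trans ht2⟩)
        have := hδw (x := u) (by rw [Real.dist_eq, abs_lt]; constructor <;> linarith [hu.1, hu.2])
        rwa [Real.dist_eq] at this
      have hnb : ¬ Big f g x (Icc d1 t) := fun h => hCnb (big_mono himg ((wB _).2 h))
      have htC : t ∉ C := fun h => absurd (le_csSup hCc.bddAbove h) (not_le.2 ht1)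
      have htB : Big f g x (uIcc e t) := by
        by_contra h
        exact htC ⟨⟨by linarith [hd1C.1.1], ht2⟩, h⟩
      rw [uIcc_of_le (by linarith), ← Icc_union_Icc_eq_Icc hed ht1.le] at htB
      rcases big_union S hno hC (by rw [Icc_union_Icc_eq_Icc hed ht1.le]; exact ordConnected_Icc)
        htB with h | h
      · exact nb2 h
      · exact hnb h
  have hBne : Bd.Nonempty := by
    by_contra hcon
    rw [not_nonempty_iff_eq_empty] at hcon
    apply hCne
    have h1 : ¬ c < c1 := fun h => by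
      have : c1 ∈ Bd := Or.inl ⟨rfl, h⟩
      rw [hcon] at this
      exact this
    have h2 : ¬ d1 < d := fun h => by
      have : d1 ∈ Bd := Or.inr ⟨rfl, h⟩
      rw [hcon] at this
      exact this
    apply Subset.antisymm hCsub
    rw [hCI]
    exact Icc_subset_Icc (not_lt.1 h1) (not_lt.1 h2)
  refine two_set S hno hr (p := c1) (q := d1) hBne ?_
    (main f^[r] (S.cf.iterate r) ((core_f hC).iterate r) hf fun J => big_fn S hC r)
    (main g^[r] (S.cg.iterate r) ((core_g hC).iterate r) hg fun J => big_gn S hC r)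
  rintro y (⟨h, -⟩ | ⟨h, -⟩)
  · exact Or.inl h
  · exact Or.inr h

end Pool.Agent.MP4545.Ex
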