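import Pool.Agent.Work.MP_4545a8_an.Ex.FacEx
import Pool.Agent.Work.MP_4545a8_an.Ex.ZLem

set_option autoImplicit false

/-!
MODULE NoC (small). The factor has no common periodic point.

PROOF. Let `F^n t = t`, `G^m t = t`, `n, m > 0`. `t ∈ [0,1]` because `F^n` has values in `[0,1]`. Put
`C = φ⁻¹ {t} ∩ Icc c d`: closed, order connected (`φ` monotone), nonempty (`fac_onto`). With `N = n*m`,
`F^N t = t` and `G^N t = t` (`iterate_mul`, `IsFixedPt.iterate`), so `f^N` and `g^N` map `C` to itself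
(`fac_fn`, `fac_gn`). By `z_lemma` `C = Icc c d`, so `0 = φ c = t = φ d = 1`.
-/

namespace Pool.Agent.MP4545.Ex

open Set Function Filter Topology
open Pool.Agent.MP4545

variable {f g F G φ : ℝ → ℝ} {a b x c d : ℝ}

theorem fac_noCommon (S : Sys f g a b) (hno : NoCommon f g) (hC : Core f g a b x c d)
    (H : Fac f g x c d F G φ) : NoCommon F G := by
  intro t n m hn hm h1 h2
  have ht : t ∈ Icc (0 : ℝ) 1 := by
    obtain ⟨k, rfl⟩ : ∃ k, n = k + 1 := ⟨n - 1, by omega⟩
    rw [← h1, iterate_succ_apply']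
    exact H.sys.rf _
  have hF : F^[n * m] t = t := by
    rw [iterate_mul]
    exact iterate_fixed h1 m
  have hG : G^[n * m] t = t := by
    rw [Nat.mul_comm, iterate_mul]
    exact iterate_fixed h2 n
  have hcd : c ≤ d := hC.lt.le
  have hE : φ ⁻¹' {t} ∩ Icc c d = Icc c d := by
    apply z_lemma S hno hC (r := n * m)
    · exact (isClosed_singleton.preimage H.cφ).inter isClosed_Icc
    · constructor
      intro u hu v hv w hw
      refine ⟨?_, hu.2.1.trans hw.1, hw.2.trans hv.2.2⟩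
      have e1 : φ u = t := hu.1
      have e2 : φ v = t := hv.1
      show φ w = t
      exact le_antisymm (e2 ▸ H.mono hw.2) (e1 ▸ H.mono hw.1)
    · obtain ⟨u, hu, hut⟩ := fac_onto hC H ht
      exact ⟨u, hut, hu⟩
    · exact inter_subset_right
    · exact Nat.mul_pos hn hm
    · rintro u ⟨hu1, hu2⟩
      obtain ⟨e, hI⟩ := fac_fn hC H hu2 (n * m)
      have hu1' : φ u = t := hu1
      refine ⟨?_, hI⟩
      show φ _ = t
      rw [← e, hu1', hF]
    · rintro u ⟨hu1, hu2⟩
      obtain ⟨e, hI⟩ := fac_gn hC H hu2 (n * m)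
      have hu1' : φ u = t := hu1
      refine ⟨?_, hI⟩
      show φ _ = t
      rw [← e, hu1', hG]
  have hc : c ∈ φ ⁻¹' {t} ∩ Icc c d := by rw [hE]; exact ⟨le_rfl, hcd⟩
  have hd : d ∈ φ ⁻¹' {t} ∩ Icc c d := by rw [hE]; exact ⟨hcd, le_rfl⟩
  have e1 : φ c = t := hc.1
  have e2 : φ d = t := hd.1
  rw [H.left] at e1
  rw [H.right] at e2
  linarith

end Pool.Agent.MP4545.Ex
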