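import Pool.Agent.Work.MP_4545a8_an.Ex.MixWord
import Pool.Agent.Work.MP_4545a8_an.Ex.NoC
import Pool.Agent.Work.MP_4545a8_an.Ex.Mix

set_option autoImplicit false

/-!
MODULE Main1 (small). Every minimal invariant interval has an exact factor.

PROOF. `minInv_Icc`: `I = Icc c d`, `c < d`, `f '' I = I`, `g '' I = I`. `s_lemma`: a point `x` with all
hulls equal to `I`; so `Core f g a b x c d`. `exists_fac`, `fac_noCommon`, `fac_mixing`, `fac_surj_f`,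
`fac_surj_g`, `upgrade`, `exact_all`.
-/

namespace Pool.Agent.MP4545.Ex

open Set Function Filter Topology
open Pool.Agent.MP4545

theorem main1 {f g : ℝ → ℝ} {a b : ℝ} (S : Sys f g a b) (hno : NoCommon f g) {I : Set ℝ}
    (hI : MinInv f g a b I) :
    ∃ c d : ℝ, c < d ∧ I = Icc c d ∧ f '' I = I ∧ g '' I = I ∧
    ∃ F G φ : ℝ → ℝ, Continuous φ ∧ Monotone φ ∧ φ c = 0 ∧ φ d = 1 ∧ Sys F G 0 1 ∧
      NoCommon F G ∧ (∀ t ∈ Icc c d, F (φ t) = φ (f t) ∧ G (φ t) = φ (g t)) ∧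
      ∀ k l : ℕ, 0 < k → 0 < l → ∀ p q : ℝ, 0 ≤ p → p < q → q ≤ 1 →
        ∃ N, ∀ n, N ≤ n → (F^[k] ∘ G^[l])^[n] '' Icc p q = Icc (0 : ℝ) 1 := by
  obtain ⟨c, d, hcd, hIcd, hf, hg⟩ := minInv_Icc S hno hI
  obtain ⟨x, hxK, hxI, hx⟩ := s_lemma S hno hI
  have hC : Core f g a b x c d :=
    { hx := hxK
      lt := hcd
      sub := hIcd ▸ hI.sub
      ff := hIcd ▸ hf
      gg := hIcd ▸ hg
      hull := fun m hm => by rw [hx m hm, hIcd] }
  obtain ⟨F, G, φ, H⟩ := exists_fac S hno hC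
  have hno' := fac_noCommon S hno hC H
  have hex : ∀ p q : ℝ, 0 ≤ p → p < q → q ≤ 1 →
      ∃ N, ∀ n, N ≤ n → (F ∘ G)^[n] '' Icc p q = Icc (0 : ℝ) 1 := fun p q hp hpq hq =>
    upgrade H.sys hno' (fac_mixing S hno hC H) (fac_surj_f hC H) (fac_surj_g hC H) hp hpq hq
  exact ⟨c, d, hcd, hIcd, hf, hg, F, G, φ, H.cφ, H.mono, H.left, H.right, H.sys, hno',
    fun t ht => ⟨H.fφ t ht, H.gφ t ht⟩,
    fun k l hk hl p q hp hpq hq => exact_all H.sys hno' hex hk hl hp hpq hq⟩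

end Pool.Agent.MP4545.Ex
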