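import Pool.Agent.Work.MP_4545a8_an.Ex.Fkl

set_option autoImplicit false

/-!
The minimal invariant interval is contained in every periodic interval.
-/

namespace Pool.Agent.MP4545.Ex

open Set Function Filter Topology
open Pool.Agent.MP4545

variable {f g : ℝ → ℝ} {a b : ℝ}

/-- an interval invariant under `f^r` and `g^s` is invariant for the pair `(f^(rs), g^(rs))` -/
lemma inv_pow {J : Set ℝ} (hcl : IsClosed J) (hoc : OrdConnected J) (hne : J.Nonempty)
    (hsub : J ⊆ Icc a b) {r s : ℕ} (hf : MapsTo f^[r] J J) (hg : MapsTo g^[s] J J) :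
    Inv f^[r * s] g^[r * s] a b J where
  cl := hcl
  oc := hoc
  ne := hne
  sub := hsub
  hf := by rw [iterate_mul]; exact hf.iterate s
  hg := by rw [Nat.mul_comm, iterate_mul]; exact hg.iterate r

lemma Inv.iter {I : Set ℝ} (h : Inv f g a b I) (N : ℕ) : Inv f^[N] g^[N] a b I where
  cl := h.cl
  oc := h.oc
  ne := h.ne
  sub := h.sub
  hf := h.hf.iterate N
  hg := h.hg.iterate N

/-- the image of an invariant interval of `(f^N, g^N)` under `f` -/
lemma inv_image (S : Sys f g a b) {D : Set ℝ} {N : ℕ} (h : Inv f^[N] g^[N] a b D) :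
    Inv f^[N] g^[N] a b (f '' D) where
  cl := (h.compact.image S.cf).isClosed
  oc := isPreconnected_iff_ordConnected.1
    ((isPreconnected_iff_ordConnected.2 h.oc).image f S.cf.continuousOn)
  ne := h.ne.image _
  sub := by rintro _ ⟨x, -, rfl⟩; exact S.rf x
  hf := by
    rintro _ ⟨x, hx, rfl⟩
    exact ⟨f^[N] x, h.hf hx, by rw [← iterate_succ_apply' f, iterate_succ_apply f]⟩
  hg := by
    rintro _ ⟨x, hx, rfl⟩
    refine ⟨g^[N] x, h.hg hx, ?_⟩
    exact ((show Function.Commute f g from S.comm).iterate_right N).eq x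

lemma min_image_eq (S : Sys f g a b) (hno : NoCommon f g) {D : Set ℝ} {N : ℕ} (hN : 0 < N)
    (h : MinInv f^[N] g^[N] a b D) : f '' D = D := by
  obtain ⟨c, d, -, -, hfD, -⟩ := minInv_Icc (sys_iter S hN) (noCommon_iter hno hN) h
  have h1 : D ⊆ f '' D :=
    inv_dis h (inv_image S h.toInv)
      (inv_meet (sys_iter S hN) (noCommon_iter hno hN) h.toInv (inv_image S h.toInv))
  have h2 : ∀ n, D ⊆ f^[n] '' D := by
    intro n
    induction n with
    | zero => simp
    | succ n ih =>
      calc D ⊆ f '' D := h1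
        _ ⊆ f '' (f^[n] '' D) := image_mono ih
        _ = f^[n + 1] '' D := by rw [← image_comp, iterate_succ']
  obtain ⟨k, rfl⟩ : ∃ k, N = k + 1 := ⟨N - 1, by omega⟩
  apply Subset.antisymm _ h1
  calc f '' D ⊆ f '' (f^[k] '' D) := image_mono (h2 k)
    _ = f^[k + 1] '' D := by rw [← image_comp, iterate_succ']
    _ = D := hfD

theorem min_per (S : Sys f g a b) (hno : NoCommon f g) {I : Set ℝ} (hI : MinInv f g a b I)
    {J : Set ℝ} (hcl : IsClosed J) (hoc : OrdConnected J) (hne : J.Nonempty)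
    (hsub : J ⊆ Icc a b) {r s : ℕ} (hr : 0 < r) (hs : 0 < s) (hf : MapsTo f^[r] J J)
    (hg : MapsTo g^[s] J J) : I ⊆ J := by
  have hN : 0 < r * s := Nat.mul_pos hr hs
  have hJ := inv_pow hcl hoc hne hsub hf hg
  have hI' : Inv f^[r * s] g^[r * s] a b I := hI.toInv.iter _
  obtain ⟨D, hD, hDs⟩ := exists_minInv (sys_iter S hN)
    (inv_inter hI' hJ (inv_meet (sys_iter S hN) (noCommon_iter hno hN) hI' hJ))
  have e1 : f '' D = D := min_image_eq S hno hN hD
  have e2 : g '' D = D := by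
    have hD' : MinInv g^[r * s] f^[r * s] a b D :=
      { toInv := ⟨hD.cl, hD.oc, hD.ne, hD.sub, hD.hg, hD.hf⟩
        min := fun E hE hED => hD.min E ⟨hE.cl, hE.oc, hE.ne, hE.sub, hE.hg, hE.hf⟩ hED }
    exact min_image_eq S.swap (noCommon_swap hno) hN hD'
  have hDI : Inv f g a b D := ⟨hD.cl, hD.oc, hD.ne, hD.sub,
    fun x hx => by rw [← e1]; exact mem_image_of_mem _ hx,
    fun x hx => by rw [← e2]; exact mem_image_of_mem _ hx⟩
  rw [← hI.min D hDI (hDs.trans inter_subset_left)]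
  exact hDs.trans inter_subset_right

/-- periodic points of words lie in every periodic interval -/
theorem word_per (S : Sys f g a b) (hno : NoCommon f g) {J : Set ℝ} (hcl : IsClosed J)
    (hoc : OrdConnected J) (hne : J.Nonempty) (hsub : J ⊆ Icc a b) {r s : ℕ} (hr : 0 < r)
    (hs : 0 < s) (hf : MapsTo f^[r] J J) (hg : MapsTo g^[s] J J) {k l n : ℕ} (hk : 0 < k)
    (hl : 0 < l) (hn : 0 < n) {z : ℝ} (hz : (f^[k] ∘ g^[l])^[n] z = z) : z ∈ J := by
  have hN : 0 < r * s := Nat.mul_pos hr hs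
  refine word_sub (sys_iter S hN) (noCommon_iter hno hN) (inv_pow hcl hoc hne hsub hf hg) hk hl hn
    (z := z) ?_
  have hc : Function.Commute f g := S.comm
  have h1 : (f^[r * s])^[k] ∘ (g^[r * s])^[l] = (f^[k] ∘ g^[l])^[r * s] := by
    rw [(hc.iterate_iterate k l).comp_iterate, ← iterate_mul, ← iterate_mul, ← iterate_mul,
      ← iterate_mul, Nat.mul_comm (r * s) k, Nat.mul_comm (r * s) l]
  rw [h1, ← iterate_mul, Nat.mul_comm, iterate_mul]
  exact iterate_fixed hz _

end Pool.Agent.MP4545.Ex
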