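import Pool.Agent.Work.MP_4545a8_an.Ex.Exist

/-!
MODULE Adj (medium). If there are two disjoint invariant intervals there are two neighbouring
minimal ones.

PROOF. Take minimal `A1 ⊆ A`, `B1 ⊆ B` (`exists_minInv`). They are disjoint compact intervals; after
exchanging the names `sSup A1 < sInf B1`. Two different minimal invariant intervals are disjoint
(`inv_dis` in both directions). Let `M = {t | ∃ D, MinInv f g a b D ∧ sSup A1 < sInf D ∧ t = sInf D}`,
nonempty, bounded below; `m = sInf M`.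
Case `m ∈ M`: `m = sInf B'`, `B'` minimal; take `A' = A1`. If `D` is invariant with
`sSup A1 < sInf D` and `sSup D < sInf B'`, take a minimal `D' ⊆ D`: `sInf D' ∈ M` (`sInf D ≤ sInf D'`),
`sInf D' ≤ sSup D' ≤ sSup D < m`, contradiction.
Case `m ∉ M`: let `ε > 0`. There is `D` as in `M` with `m < sInf D < m + ε` (not `= m`, as `m ∉ M`),
and then `D2` as in `M` with `m < sInf D2 < sInf D`. `D2 ≠ D`, so they are disjoint, and
`sSup D2 < sInf D` (otherwise `sInf D ∈ D2`). So `D2 ⊆ (m, m + ε)` and `u = sInf D2` satisfies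
`u, f u, g u ∈ (m, m + ε)`. By continuity `f m = m` and `g m = m`, against `NoCommon`.
-/

set_option autoImplicit false

namespace Pool.Agent.MP4545.Ex

open Set Function Filter Topology
open Pool.Agent.MP4545

variable {f g : ℝ → ℝ} {a b : ℝ}

/-- disjoint invariant intervals are separated -/
private lemma adj_sep {C D : Set ℝ} (hC : Inv f g a b C) (hD : Inv f g a b D)
    (h : Disjoint C D) : sSup C < sInf D ∨ sSup D < sInf C := by
  by_contra hcon
  push Not at hcon
  obtain ⟨h1, h2⟩ := hcon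
  have c0 := hC.compact.sInf_mem hC.ne
  have c1 := hC.compact.sSup_mem hC.ne
  have d0 := hD.compact.sInf_mem hD.ne
  have d1 := hD.compact.sSup_mem hD.ne
  have hc : sInf C ≤ sSup C := csInf_le hC.compact.bddBelow c1
  have hd : sInf D ≤ sSup D := csInf_le hD.compact.bddBelow d1
  have e1 : max (sInf C) (sInf D) ∈ C := hC.oc.out c0 c1 ⟨le_max_left _ _, max_le hc h1⟩
  have e2 : max (sInf C) (sInf D) ∈ D := hD.oc.out d0 d1 ⟨le_max_right _ _, max_le h2 hd⟩
  exact Set.disjoint_left.1 h e1 e2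

private lemma adj_near {w : ℝ → ℝ} (hw : Continuous w) {m : ℝ}
    (h : ∀ ε > 0, ∃ u, |u - m| < ε ∧ |w u - m| < ε) : w m = m := by
  by_contra hne
  have hpos : 0 < |w m - m| / 2 := by
    have := abs_pos.2 (sub_ne_zero.2 hne)
    linarith
  obtain ⟨δ, hδ, hδ'⟩ := Metric.continuous_iff.1 hw m (|w m - m| / 2) hpos
  obtain ⟨u, hu1, hu2⟩ := h (min δ (|w m - m| / 2)) (lt_min hδ hpos)
  have h1 := hδ' u (by rw [Real.dist_eq]; exact hu1.trans_le (min_le_left _ _))
  rw [Real.dist_eq] at h1
  have h2 := hu2.trans_le (min_le_right _ _)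
  have h3 : |w m - m| ≤ |w u - w m| + |w u - m| := by
    have h4 : w m - m = -(w u - w m) + (w u - m) := by ring
    calc |w m - m| = |-(w u - w m) + (w u - m)| := by rw [← h4]
      _ ≤ |-(w u - w m)| + |w u - m| := abs_add_le _ _
      _ = |w u - w m| + |w u - m| := by rw [abs_neg]
  linarith

private lemma adj_aux (S : Sys f g a b) (hno : NoCommon f g) {A B : Set ℝ}
    (hA : MinInv f g a b A) (hB : MinInv f g a b B) (hlt : sSup A < sInf B) :
    ∃ A' B' : Set ℝ, MinInv f g a b A' ∧ MinInv f g a b B' ∧ sSup A' < sInf B' ∧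
      ∀ D, Inv f g a b D → ¬ (sSup A' < sInf D ∧ sSup D < sInf B') := by
  set M : Set ℝ := {t | ∃ D, MinInv f g a b D ∧ sSup A < sInf D ∧ t = sInf D} with hM
  have hMne : M.Nonempty := ⟨sInf B, B, hB, hlt, rfl⟩
  have hMb : BddBelow M := ⟨sSup A, by
    rintro t ⟨D, -, h, rfl⟩
    exact h.le⟩
  by_cases hm : sInf M ∈ M
  · obtain ⟨B', hB', hlt', he⟩ := hm
    refine ⟨A, B', hA, hB', hlt', ?_⟩
    rintro D hD ⟨h1, h2⟩
    obtain ⟨D', hD', hDD⟩ := exists_minInv S hD
    have e1 : sInf D ≤ sInf D' := csInf_le_csInf hD.compact.bddBelow hD'.ne hDD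
    have e2 : sInf D' ≤ sSup D := by
      have h3 := hD'.compact.sInf_mem hD'.ne
      exact le_csSup hD.compact.bddAbove (hDD h3)
    have e3 : sInf M ≤ sInf D' := csInf_le hMb ⟨D', hD', h1.trans_le e1, rfl⟩
    linarith
  · exfalso
    have hlow : ∀ t ∈ M, sInf M < t := by
      intro t ht
      refine lt_of_le_of_ne (csInf_le hMb ht) ?_
      intro h
      exact hm (h ▸ ht)
    have key : ∀ ε > 0, ∃ D, MinInv f g a b D ∧ ∀ y ∈ D, sInf M < y ∧ y < sInf M + ε := by
      intro ε hε
      obtain ⟨t, ⟨D, hD, hD1, rfl⟩, ht⟩ := exists_lt_of_csInf_lt hMne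
        (show sInf M < sInf M + ε by linarith)
      have ht0 := hlow _ ⟨D, hD, hD1, rfl⟩
      obtain ⟨t, ⟨D2, hD2, hD21, rfl⟩, ht2⟩ := exists_lt_of_csInf_lt hMne ht0
      have ht20 := hlow _ ⟨D2, hD2, hD21, rfl⟩
      refine ⟨D2, hD2, ?_⟩
      have hdis : Disjoint D2 D := by
        rw [Set.disjoint_iff_inter_eq_empty]
        by_contra hne
        have hne' := Set.nonempty_iff_ne_empty.2 hne
        have h1 := inv_dis hD2 hD.toInv hne'
        have h2 := inv_dis hD hD2.toInv (by rwa [Set.inter_comm] at hne')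
        have h3 : D2 = D := Subset.antisymm h1 h2
        rw [h3] at ht2
        exact lt_irrefl _ ht2
      have hsep : sSup D2 < sInf D := by
        rcases adj_sep hD2.toInv hD.toInv hdis with h | h
        · exact h
        · exfalso
          have h1 : sInf D ≤ sSup D :=
            csInf_le hD.compact.bddBelow (hD.compact.sSup_mem hD.ne)
          linarith
      intro y hy
      have h1 : sInf D2 ≤ y := csInf_le hD2.compact.bddBelow hy
      have h2 : y ≤ sSup D2 := le_csSup hD2.compact.bddAbove hy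
      constructor <;> linarith
    have hfm : f (sInf M) = sInf M := by
      apply adj_near S.cf
      intro ε hε
      obtain ⟨D, hD, h⟩ := key ε hε
      obtain ⟨y, hy⟩ := hD.ne
      have h1 := h y hy
      have h2 := h _ (hD.hf hy)
      refine ⟨y, ?_, ?_⟩
      · rw [abs_lt]; constructor <;> linarith
      · rw [abs_lt]; constructor <;> linarith
    have hgm : g (sInf M) = sInf M := by
      apply adj_near S.cg
      intro ε hε
      obtain ⟨D, hD, h⟩ := key ε hε
      obtain ⟨y, hy⟩ := hD.ne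
      have h1 := h y hy
      have h2 := h _ (hD.hg hy)
      refine ⟨y, ?_, ?_⟩
      · rw [abs_lt]; constructor <;> linarith
      · rw [abs_lt]; constructor <;> linarith
    exact hno _ 1 1 one_pos one_pos hfm hgm

theorem exists_adj (S : Sys f g a b) (hno : NoCommon f g) {A B : Set ℝ} (hA : Inv f g a b A)
    (hB : Inv f g a b B) (hd : Disjoint A B) :
    ∃ A' B' : Set ℝ, MinInv f g a b A' ∧ MinInv f g a b B' ∧ sSup A' < sInf B' ∧
      ∀ D, Inv f g a b D → ¬ (sSup A' < sInf D ∧ sSup D < sInf B') := by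
  obtain ⟨A1, hA1, hA1s⟩ := exists_minInv S hA
  obtain ⟨B1, hB1, hB1s⟩ := exists_minInv S hB
  rcases adj_sep hA1.toInv hB1.toInv (hd.mono hA1s hB1s) with h | h
  · exact adj_aux S hno hA1 hB1 h
  · exact adj_aux S hno hB1 hA1 h

end Pool.Agent.MP4545.Ex
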