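import Pool.Agent.Work.MP_4545a8_an.Ex.Strong

set_option autoImplicit false

/-!
MODULE BigL (medium). Properties of `Big` (Defs).

PROOFS. `big_mono`: clear. `big_f`: if `y = h^n u`, `u ∈ J`, then `f y = h^n (f u)`, `f y ∈ Orb`
(`orb_f`) and `f` is injective on `K f g` (`f_inj`). `big_f'` (converse): if `y = h^n (f u)` with
`u ∈ J`, then `g y = h^n (g (f u)) = h^(n+1) u`, `orb_g`. Same for `g`; iterates by induction.
`big_union`: by `cover_big` and `orb_three` some `h^N '' (J₁ ∪ J₂)` contains three different orbit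
points, two of them are in the same `h^N '' J_i`.
`big_open`: by `orb_three` take orbit points `o₁ < o₂` in `(c,d)` and `s ∈ (c, o₁)`, `t ∈ (o₂, d)`. By
`cover_big` there are `s', t' ∈ Icc u v` and `N` with `h^N s' = s`, `h^N t' = t`. By continuity and
density of `Ioo u v` in `Icc u v` there are `s'', t'' ∈ Ioo u v` with `h^N s'' < o₁`, `h^N t'' > o₂`.
Put `u' = min s'' t''`, `v' = max s'' t''`; `h^N '' Icc u' v'` is an interval and contains `o₁, o₂`.
`big_Icc`: `Icc c d` contains the orbit (`n = 0`). `not_big_single`: `h^n '' {t}` is one point.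
`big_inside`: if `E` is closed, order connected, `E ⊆ Icc c d` and `(f ∘ g)^r` maps `E` to itself,
`r ≥ 1`, and `Big E`, then `E = Icc c d`: let `y ≠ y' ∈ h^n '' E`; with `r*k ≥ n` (say `k = n`),
`y = h^(r*n-n) y ∈ h^(r*n) '' E ⊆ E`, same for `y'`. So `uIcc y y' ⊆ E`, `h^(r*k) '' uIcc y y' ⊆ E`
for all `k`, and by `cover_pair` `Icc s t ⊆ E` for all `c < s`, `t < d`; `E` is closed.
-/

namespace Pool.Agent.MP4545.Ex

open Set Function Filter Topology
open Pool.Agent.MP4545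

variable {f g : ℝ → ℝ} {a b x c d : ℝ}

lemma big_mono {J J' : Set ℝ} (h : J ⊆ J') (hB : Big f g x J) : Big f g x J' := by
  obtain ⟨n, y, hy, y', hy', hne, h1, h2⟩ := hB
  exact ⟨n, y, hy, y', hy', hne, image_mono h h1, image_mono h h2⟩

lemma g_inj (S : Sys f g a b) {x y : ℝ} (hx : x ∈ K f g) (hy : y ∈ K f g) (h : g x = g y) :
    x = y := by
  rw [← fg S hx, ← fg S hy, h]

lemma comm_f (S : Sys f g a b) (n : ℕ) (u : ℝ) : f ((f ∘ g)^[n] u) = (f ∘ g)^[n] (f u) := by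
  have h : Function.Commute f (f ∘ g) := fun x => by
    show f (f (g x)) = f (g (f x))
    rw [S.comm x]
  exact (h.iterate_right n).eq u

lemma comm_g (S : Sys f g a b) (n : ℕ) (u : ℝ) : g ((f ∘ g)^[n] u) = (f ∘ g)^[n] (g u) := by
  have h : Function.Commute g (f ∘ g) := fun x => by
    show g (f (g x)) = f (g (g x))
    rw [S.comm (g x)]
  exact (h.iterate_right n).eq u

theorem big_f (S : Sys f g a b) (hC : Core f g a b x c d) {J : Set ℝ} :
    Big f g x (f '' J) ↔ Big f g x J := by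
  constructor
  · rintro ⟨n, y, hy, y', hy', hne, ⟨_, ⟨u, hu, rfl⟩, h1⟩, ⟨_, ⟨v, hv, rfl⟩, h2⟩⟩
    refine ⟨n + 1, g y, orb_g S hC hy, g y', orb_g S hC hy', ?_, ⟨u, hu, ?_⟩, ⟨v, hv, ?_⟩⟩
    · exact fun h => hne (g_inj S (orb_K S hC hy) (orb_K S hC hy') h)
    · rw [← h1, comm_g S, iterate_succ_apply]
      show (f ∘ g)^[n] (f (g u)) = (f ∘ g)^[n] (g (f u))
      rw [S.comm u]
    · rw [← h2, comm_g S, iterate_succ_apply]
      show (f ∘ g)^[n] (f (g v)) = (f ∘ g)^[n] (g (f v))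
      rw [S.comm v]
  · rintro ⟨n, y, hy, y', hy', hne, ⟨u, hu, h1⟩, ⟨v, hv, h2⟩⟩
    refine ⟨n, f y, orb_f S hC hy, f y', orb_f S hC hy', ?_, ⟨f u, mem_image_of_mem _ hu, ?_⟩,
      ⟨f v, mem_image_of_mem _ hv, ?_⟩⟩
    · exact fun h => hne (f_inj S (orb_K S hC hy) (orb_K S hC hy') h)
    · rw [← h1, comm_f S]
    · rw [← h2, comm_f S]

theorem big_g (S : Sys f g a b) (hC : Core f g a b x c d) {J : Set ℝ} :
    Big f g x (g '' J) ↔ Big f g x J := by
  constructor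
  · rintro ⟨n, y, hy, y', hy', hne, ⟨_, ⟨u, hu, rfl⟩, h1⟩, ⟨_, ⟨v, hv, rfl⟩, h2⟩⟩
    refine ⟨n + 1, f y, orb_f S hC hy, f y', orb_f S hC hy', ?_, ⟨u, hu, ?_⟩, ⟨v, hv, ?_⟩⟩
    · exact fun h => hne (f_inj S (orb_K S hC hy) (orb_K S hC hy') h)
    · rw [← h1, comm_f S, iterate_succ_apply]
      rfl
    · rw [← h2, comm_f S, iterate_succ_apply]
      rfl
  · rintro ⟨n, y, hy, y', hy', hne, ⟨u, hu, h1⟩, ⟨v, hv, h2⟩⟩
    refine ⟨n, g y, orb_g S hC hy, g y', orb_g S hC hy', ?_, ⟨g u, mem_image_of_mem _ hu, ?_⟩,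
      ⟨g v, mem_image_of_mem _ hv, ?_⟩⟩
    · exact fun h => hne (g_inj S (orb_K S hC hy) (orb_K S hC hy') h)
    · rw [← h1, comm_g S]
    · rw [← h2, comm_g S]

theorem big_fn (S : Sys f g a b) (hC : Core f g a b x c d) {J : Set ℝ} (n : ℕ) :
    Big f g x (f^[n] '' J) ↔ Big f g x J := by
  induction n with
  | zero => simp
  | succ n ih => rw [iterate_succ', image_comp, big_f S hC, ih]

theorem big_gn (S : Sys f g a b) (hC : Core f g a b x c d) {J : Set ℝ} (n : ℕ) :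
    Big f g x (g^[n] '' J) ↔ Big f g x J := by
  induction n with
  | zero => simp
  | succ n ih => rw [iterate_succ', image_comp, big_g S hC, ih]

theorem big_union (S : Sys f g a b) (hno : NoCommon f g) (hC : Core f g a b x c d)
    {J₁ J₂ : Set ℝ} (hJ : OrdConnected (J₁ ∪ J₂)) (hB : Big f g x (J₁ ∪ J₂)) :
    Big f g x J₁ ∨ Big f g x J₂ := by
  obtain ⟨y₁, h1, y₂, h2, y₃, h3, c1, h12, h23, d3⟩ := orb_three S hno hC
  obtain ⟨N, hN⟩ := cover_big S hno hC hJ hB c1 d3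
  have key : ∀ y ∈ Icc y₁ y₃, y ∈ (f ∘ g)^[N] '' J₁ ∨ y ∈ (f ∘ g)^[N] '' J₂ := by
    intro y hy
    have := hN N le_rfl hy
    rwa [image_union] at this
  have k1 := key y₁ ⟨le_rfl, (h12.trans h23).le⟩
  have k2 := key y₂ ⟨h12.le, h23.le⟩
  have k3 := key y₃ ⟨(h12.trans h23).le, le_rfl⟩
  rcases k1 with k1 | k1 <;> rcases k2 with k2 | k2 <;> rcases k3 with k3 | k3
  · exact Or.inl ⟨N, y₁, h1, y₂, h2, h12.ne, k1, k2⟩
  · exact Or.inl ⟨N, y₁, h1, y₂, h2, h12.ne, k1, k2⟩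
  · exact Or.inl ⟨N, y₁, h1, y₃, h3, (h12.trans h23).ne, k1, k3⟩
  · exact Or.inr ⟨N, y₂, h2, y₃, h3, h23.ne, k2, k3⟩
  · exact Or.inl ⟨N, y₂, h2, y₃, h3, h23.ne, k2, k3⟩
  · exact Or.inr ⟨N, y₁, h1, y₃, h3, (h12.trans h23).ne, k1, k3⟩
  · exact Or.inr ⟨N, y₁, h1, y₂, h2, h12.ne, k1, k2⟩
  · exact Or.inr ⟨N, y₁, h1, y₂, h2, h12.ne, k1, k2⟩

theorem big_open (S : Sys f g a b) (hno : NoCommon f g) (hC : Core f g a b x c d) {u v : ℝ}
    (huv : u < v) (hB : Big f g x (Icc u v)) :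
    ∃ u' v', u < u' ∧ u' < v' ∧ v' < v ∧ Big f g x (Icc u' v') := by
  obtain ⟨y₁, h1, y₂, h2, y₃, h3, c1, h12, h23, d3⟩ := orb_three S hno hC
  obtain ⟨N, hN⟩ := cover_big S hno hC ordConnected_Icc hB (s := (c + y₁) / 2)
    (t := (y₂ + d) / 2) (by linarith) (by linarith)
  have ch : Continuous (f ∘ g)^[N] := (S.cf.comp S.cg).iterate N
  obtain ⟨s', hs', es⟩ := hN N le_rfl (show (c + y₁) / 2 ∈ Icc ((c + y₁) / 2) ((y₂ + d) / 2) from
    ⟨le_rfl, by linarith⟩)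
  obtain ⟨t', ht', et⟩ := hN N le_rfl (show (y₂ + d) / 2 ∈ Icc ((c + y₁) / 2) ((y₂ + d) / 2) from
    ⟨by linarith, le_rfl⟩)
  have hcl : Icc u v ⊆ closure (Ioo u v) := by rw [closure_Ioo huv.ne]
  obtain ⟨s'', hs1, hs2⟩ := mem_closure_iff.1 (hcl hs') ((f ∘ g)^[N] ⁻¹' Iio y₁)
    (isOpen_Iio.preimage ch) (by show (f ∘ g)^[N] s' < y₁; rw [es]; linarith)
  obtain ⟨t'', ht1, ht2⟩ := mem_closure_iff.1 (hcl ht') ((f ∘ g)^[N] ⁻¹' Ioi y₂)
    (isOpen_Ioi.preimage ch) (by show y₂ < (f ∘ g)^[N] t'; rw [et]; linarith)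
  have hs1' : (f ∘ g)^[N] s'' < y₁ := hs1
  have ht1' : y₂ < (f ∘ g)^[N] t'' := ht1
  have hne : s'' ≠ t'' := by
    intro h
    rw [h] at hs1'
    linarith
  refine ⟨min s'' t'', max s'' t'', lt_min hs2.1 ht2.1, min_lt_max.2 hne, max_lt hs2.2 ht2.2,
    N, y₁, h1, y₂, h2, h12.ne, ?_, ?_⟩
  · apply (h_img_ord S ordConnected_Icc N).uIcc_subset
      (mem_image_of_mem _ (show s'' ∈ Icc (min s'' t'') (max s'' t'') from
        ⟨min_le_left _ _, le_max_left _ _⟩))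
      (mem_image_of_mem _ (show t'' ∈ Icc (min s'' t'') (max s'' t'') from
        ⟨min_le_right _ _, le_max_right _ _⟩))
    rw [mem_uIcc]
    left
    constructor <;> linarith
  · apply (h_img_ord S ordConnected_Icc N).uIcc_subset
      (mem_image_of_mem _ (show s'' ∈ Icc (min s'' t'') (max s'' t'') from
        ⟨min_le_left _ _, le_max_left _ _⟩))
      (mem_image_of_mem _ (show t'' ∈ Icc (min s'' t'') (max s'' t'') from
        ⟨min_le_right _ _, le_max_right _ _⟩))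
    rw [mem_uIcc]
    left
    constructor <;> linarith

theorem big_Icc (S : Sys f g a b) (hno : NoCommon f g) (hC : Core f g a b x c d) :
    Big f g x (Icc c d) := by
  refine ⟨0, x, ⟨0, Or.inl rfl⟩, f x, ⟨1, Or.inl rfl⟩, ?_, ?_, ?_⟩
  · intro h
    exact not_per S hno hC.hx one_pos h.symm
  · simpa using core_mem hC
  · simpa using core_f hC (core_mem hC)

theorem not_big_single (t : ℝ) : ¬ Big f g x (Icc t t) := by
  rintro ⟨n, y, -, y', -, hne, ⟨u, hu, h1⟩, ⟨v, hv, h2⟩⟩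
  rw [Icc_self] at hu hv
  rw [mem_singleton_iff] at hu hv
  subst hu; subst hv
  exact hne (h1.symm.trans h2)

theorem big_inside (S : Sys f g a b) (hno : NoCommon f g) (hC : Core f g a b x c d) {E : Set ℝ}
    (hcl : IsClosed E) (hoc : OrdConnected E) (hsub : E ⊆ Icc c d) {r : ℕ} (hr : 0 < r)
    (hE : MapsTo (f ∘ g)^[r] E E) (hB : Big f g x E) : E = Icc c d := by
  obtain ⟨n, y, hy, y', hy', hne, h1, h2⟩ := hB
  have hrk : ∀ k, MapsTo (f ∘ g)^[r * k] E E := by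
    intro k
    rw [iterate_mul]
    exact hE.iterate k
  have hin : ∀ z ∈ Orb f g x, z ∈ (f ∘ g)^[n] '' E → z ∈ E := by
    rintro z hz ⟨w, hw, rfl⟩
    have h3 : (f ∘ g)^[r * n - n] ((f ∘ g)^[n] w) = (f ∘ g)^[n] w := h_fix S hC hz _
    have h4 : n ≤ r * n := Nat.le_mul_of_pos_left n hr
    rw [← h3, ← iterate_add_apply, show r * n - n + n = r * n by omega]
    exact hrk n hw
  have hu : uIcc y y' ⊆ E := hoc.uIcc_subset (hin y hy h1) (hin y' hy' h2)
  have hcd : c < d := hC.lt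
  have key : ∀ s t, c < s → t < d → Icc s t ⊆ E := by
    intro s t hs ht
    obtain ⟨N, hN⟩ := cover_pair S hno hC hy hy' hne hs ht
    have h5 : N ≤ r * N := Nat.le_mul_of_pos_left N hr
    exact (hN _ h5).trans ((image_mono hu).trans (image_subset_iff.2 (hrk N)))
  apply Subset.antisymm hsub
  have h6 : Ioo c d ⊆ E := by
    intro z hz
    exact key z z hz.1 hz.2 ⟨le_rfl, le_rfl⟩
  calc Icc c d = closure (Ioo c d) := (closure_Ioo hcd.ne).symm
    _ ⊆ closure E := closure_mono h6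
    _ = E := hcl.closure_eq

end Pool.Agent.MP4545.Ex
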