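import Pool.Agent.Work.MP_4545a8_an.Ex.Defs
import Pool.Agent.Work.MP_4545a8_an.Dyn

set_option autoImplicit false

/-!
MODULE Walls (medium). A wall `P` is relatively open in `K f g`, and `f ∘ g` moves the points just
outside of `P` towards `P`.

PROOF of `wall_open`. `P = [α, β]` (`eq_Icc`), period `d` as in `Wall.per`. The points `f^(d*k) x`,
`k = 0, 1, 2`, lie in `P` and are pairwise different (`not_per`; `f` is injective on `K f g`), so one
of them, `f^(d*k) x`, is in the open interval `(α, β)`. Take `U = (f^(d*k))⁻¹ (α, β)`. For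
`y ∈ K f g ∩ U`: `y = g^(d*k) (f^(d*k) y) ∈ P` (`gn_fn`).
PROOF of `wall_right`. `β = sSup P ∈ P`. There is `ε0 > 0` with no point of `K f g` in `(β, β + ε0)`
(if `β ∈ K f g` by `wall_open`, otherwise because `K f g` is closed). So `u ↦ f (g u) - u` has no zero
on `(β, β + ε0)` and has constant sign there (intermediate value theorem). Suppose that the sign is
positive. By continuity `f (g β) ≥ β`, and `f (g β) ∈ P` gives `f (g β) = β`, `β ∈ K f g`. The points
`f^d β`, `f^(2d) β` of `P` are different from each other and from `β`, so one of them,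
`f^(d*k) β` with `k ∈ {1,2}`, is in `(α, β)`. Choose `ε1 ≤ ε0` with `f^(d*k) u ∈ P` for all
`u ∈ (β, β + ε1)`. For `u > β` close to `β` all of `u, h u, …, h^(d*k) u` are `< β + ε1` (continuity of
`h^i` at its fixed point `β`) and `> β` (induction, `h v > v` on `(β, β + ε0)`). But
`h^(d*k) u = g^(d*k) (f^(d*k) u) ∈ P` is `≤ β`, contradiction.
PROOF of `wall_left`: the same, or apply `wall_right` to `Sys.reflect` (file LemmaA.lean) and `-P`.
PROOF of `between`: `F u = f (g u) - u` is negative at some `u` just right of `sSup P` and positive at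
some `v` just left of `sInf Q`, `u < v`; intermediate value theorem.
-/

namespace Pool.Agent.MP4545.Ex

open Set Function Filter Topology
open Pool.Agent.MP4545

variable {f g : ℝ → ℝ} {a b : ℝ}

lemma wall_int (S : Sys f g a b) (hno : NoCommon f g) {P : Set ℝ} (hP : Wall f g a b P)
    {x : ℝ} (hx : x ∈ K f g) (hxP : x ∈ P) :
    ∃ n, MapsTo g^[n] P P ∧ sInf P < f^[n] x ∧ f^[n] x < sSup P := by
  obtain ⟨d, hd, hfd, hgd⟩ := hP.per
  have n1 : f^[d] x ≠ x := not_per S hno hx hd
  have n2 : f^[d + d] x ≠ x := not_per S hno hx (by omega)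
  have n3 : f^[d] (f^[d] x) ≠ f^[d] x := not_per S hno (K_fn S hx d) hd
  have n2' : f^[d] (f^[d] x) ≠ x := by rwa [iterate_add_apply] at n2
  have b1 : ∀ y ∈ P, sInf P ≤ y ∧ y ≤ sSup P := fun y hy =>
    ⟨csInf_le hP.compact.bddBelow hy, le_csSup hP.compact.bddAbove hy⟩
  have b2 : ∀ y ∈ P, ¬ (sInf P < y ∧ y < sSup P) → y = sInf P ∨ y = sSup P := by
    intro y hy h
    obtain ⟨h1, h2⟩ := b1 y hy
    rcases h1.lt_or_eq with h3 | h3
    · rcases h2.lt_or_eq with h4 | h4
      · exact absurd ⟨h3, h4⟩ h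
      · exact Or.inr h4
    · exact Or.inl h3.symm
  by_contra hcon
  push Not at hcon
  have c0 := b2 x hxP (fun h => absurd h.2 (not_lt.2 (hcon 0 (fun y hy => hy) h.1)))
  have c1 := b2 (f^[d] x) (hfd hxP) (fun h => absurd h.2 (not_lt.2 (hcon d hgd h.1)))
  have c2 := b2 (f^[d] (f^[d] x)) (hfd (hfd hxP)) (fun h => by
    have h5 : MapsTo g^[d + d] P P := by
      rw [iterate_add]
      exact hgd.comp hgd
    have := hcon (d + d) h5 (by rw [iterate_add_apply]; exact h.1)
    rw [iterate_add_apply] at this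
    exact absurd h.2 (not_lt.2 this))
  rcases c0 with c0 | c0 <;> rcases c1 with c1 | c1 <;> rcases c2 with c2 | c2 <;>
    first
      | exact n1 (c1.trans c0.symm)
      | exact n2' (c2.trans c0.symm)
      | exact n3 (c2.trans c1.symm)

theorem wall_open (S : Sys f g a b) (hno : NoCommon f g) {P : Set ℝ} (hP : Wall f g a b P)
    {x : ℝ} (hx : x ∈ K f g) (hxP : x ∈ P) : ∃ U, IsOpen U ∧ x ∈ U ∧ K f g ∩ U ⊆ P := by
  obtain ⟨n, hn, h1, h2⟩ := wall_int S hno hP hx hxP
  refine ⟨f^[n] ⁻¹' Ioo (sInf P) (sSup P), isOpen_Ioo.preimage (S.cf.iterate n), ⟨h1, h2⟩, ?_⟩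
  rintro y ⟨hyK, hy1, hy2⟩
  rw [← gn_fn S hyK n]
  exact hn (hP.oc.out (hP.compact.sInf_mem hP.ne) (hP.compact.sSup_mem hP.ne) ⟨hy1.le, hy2.le⟩)

theorem wall_right (S : Sys f g a b) (hno : NoCommon f g) {P : Set ℝ} (hP : Wall f g a b P) :
    ∃ ε > 0, ∀ u, sSup P < u → u < sSup P + ε → f (g u) < u := by
  have hβP : sSup P ∈ P := hP.compact.sSup_mem hP.ne
  have hαP : sInf P ∈ P := hP.compact.sInf_mem hP.ne
  have hub : ∀ y ∈ P, y ≤ sSup P := fun y hy => le_csSup hP.compact.bddAbove hy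
  set β := sSup P with hβ
  have ch : Continuous (fun u => f (g u)) := S.cf.comp S.cg
  have hε0 : ∃ ε0 > 0, ∀ u, β < u → u < β + ε0 → u ∉ K f g := by
    by_cases hK : β ∈ K f g
    · obtain ⟨U, hU, hβU, hUP⟩ := wall_open S hno hP hK hβP
      obtain ⟨ε, hε, hball⟩ := Metric.isOpen_iff.1 hU β hβU
      refine ⟨ε, hε, fun u h1 h2 hu => ?_⟩
      have h3 : u ∈ U := hball (by rw [Metric.mem_ball, Real.dist_eq, abs_lt]; constructor <;>
        linarith)
      exact absurd (hub u (hUP ⟨hu, h3⟩)) (not_le.2 h1)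
    · obtain ⟨ε, hε, hball⟩ := Metric.isOpen_iff.1 (isClosed_K S).isOpen_compl β hK
      refine ⟨ε, hε, fun u h1 h2 => ?_⟩
      exact hball (by rw [Metric.mem_ball, Real.dist_eq, abs_lt]; constructor <;> linarith)
  obtain ⟨ε0, hε0, hK0⟩ := hε0
  by_cases hneg : ∀ u, β < u → u < β + ε0 → f (g u) < u
  · exact ⟨ε0, hε0, hneg⟩
  exfalso
  push Not at hneg
  obtain ⟨u0, h01, h02, h03⟩ := hneg
  have hpos : ∀ u, β < u → u < β + ε0 → u < f (g u) := by
    intro u h1 h2
    by_contra hcon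
    push Not at hcon
    have cF : Continuous (fun u => f (g u) - u) := ch.sub continuous_id
    rcases le_total u0 u with h | h
    · obtain ⟨w, hw, e⟩ := ivt_zero cF h (by linarith) (by linarith)
      exact hK0 w (h01.trans_le hw.1) (hw.2.trans_lt h2) (show f (g w) = w by linarith)
    · obtain ⟨w, hw, e⟩ := ivt_zero' cF h (by linarith) (by linarith)
      exact hK0 w (h1.trans_le hw.1) (hw.2.trans_lt h02) (show f (g w) = w by linarith)
  -- `β` is fixed by `f ∘ g`
  have hβfix : f (g β) = β := by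
    apply le_antisymm (hub _ (hP.hh hβP))
    have h1 : β ∈ closure (Ioo β (β + ε0)) := by
      rw [closure_Ioo (by linarith)]
      exact ⟨le_rfl, by linarith⟩
    have h2 : Ioo β (β + ε0) ⊆ {u | u ≤ f (g u)} := fun u hu => (hpos u hu.1 hu.2).le
    exact closure_minimal h2 (isClosed_le continuous_id ch) h1
  obtain ⟨n, hn, hn1, hn2⟩ := wall_int S hno hP (show β ∈ K f g from hβfix) hβP
  have claim : ∀ m : ℕ, ∃ δ > 0, ∀ u, β < u → u < β + δ → β < (f ∘ g)^[m] u := by
    intro m
    induction m with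
    | zero => exact ⟨ε0, hε0, fun u h _ => h⟩
    | succ m ih =>
      obtain ⟨δ, hδ, h⟩ := ih
      obtain ⟨δ', hδ', h'⟩ := Metric.continuousAt_iff.1 (ch.continuousAt (x := β)) δ hδ
      refine ⟨min δ' ε0, lt_min hδ' hε0, fun u h1 h2 => ?_⟩
      have h3 : u < β + δ' := h2.trans_le (by linarith [min_le_left δ' ε0])
      have h4 : u < β + ε0 := h2.trans_le (by linarith [min_le_right δ' ε0])
      have h5 := h' (x := u) (by rw [Real.dist_eq, abs_lt]; constructor <;> linarith)
      rw [Real.dist_eq, hβfix, abs_lt] at h5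
      rw [iterate_succ_apply]
      exact h _ (h1.trans (hpos u h1 h4)) (by show f (g u) < β + δ; linarith [h5.2])
  obtain ⟨δ, hδ, hδ'⟩ := claim n
  have hopen : IsOpen (f^[n] ⁻¹' Ioo (sInf P) β) := isOpen_Ioo.preimage (S.cf.iterate n)
  obtain ⟨ε1, hε1, hball⟩ := Metric.isOpen_iff.1 hopen β ⟨hn1, hn2⟩
  have hm : 0 < min δ ε1 := lt_min hδ hε1
  have hm1 : min δ ε1 ≤ δ := min_le_left _ _
  have hm2 : min δ ε1 ≤ ε1 := min_le_right _ _
  have h6 : f^[n] (β + min δ ε1 / 2) ∈ Ioo (sInf P) β := hball (by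
    rw [Metric.mem_ball, Real.dist_eq, abs_lt]; constructor <;> linarith)
  have h7 : (f ∘ g)^[n] (β + min δ ε1 / 2) ∈ P := by
    have hc : Function.Commute f g := S.comm
    have e : (f ∘ g)^[n] (β + min δ ε1 / 2) = g^[n] (f^[n] (β + min δ ε1 / 2)) := by
      rw [hc.comp_iterate]
      exact (hc.iterate_iterate n n).eq _
    rw [e]
    exact hn (hP.oc.out hαP hβP ⟨h6.1.le, h6.2.le⟩)
  have h8 := hδ' (β + min δ ε1 / 2) (by linarith) (by linarith)
  exact absurd (hub _ h7) (not_le.2 h8)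

lemma noCommon_reflect (hno : NoCommon f g) :
    NoCommon (fun x => - f (-x)) (fun x => - g (-x)) := by
  intro x n m hn hm h1 h2
  rw [iterate_reflect] at h1 h2
  exact hno (-x) n m hn hm (by linarith) (by linarith)

lemma Wall.reflect {P : Set ℝ} (hP : Wall f g a b P) :
    Wall (fun x => - f (-x)) (fun x => - g (-x)) (-b) (-a) {x | -x ∈ P} where
  cl := hP.cl.preimage continuous_neg
  oc := by
    constructor
    intro x hx y hy z hz
    exact hP.oc.out hy hx ⟨neg_le_neg hz.2, neg_le_neg hz.1⟩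
  ne := by
    obtain ⟨x, hx⟩ := hP.ne
    exact ⟨-x, by show - -x ∈ P; rwa [neg_neg]⟩
  sub := by
    intro x hx
    have := hP.sub hx
    exact ⟨by linarith [this.2], by linarith [this.1]⟩
  hh := by
    intro x hx
    show - - f (- - g (-x)) ∈ P
    rw [neg_neg, neg_neg]
    exact hP.hh hx
  per := by
    obtain ⟨d, hd, h1, h2⟩ := hP.per
    refine ⟨d, hd, fun x hx => ?_, fun x hx => ?_⟩
    · show - (fun x => - f (-x))^[d] x ∈ P
      rw [iterate_reflect, neg_neg]
      exact h1 hx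
    · show - (fun x => - g (-x))^[d] x ∈ P
      rw [iterate_reflect, neg_neg]
      exact h2 hx

theorem wall_left (S : Sys f g a b) (hno : NoCommon f g) {P : Set ℝ} (hP : Wall f g a b P) :
    ∃ ε > 0, ∀ u, sInf P - ε < u → u < sInf P → u < f (g u) := by
  obtain ⟨ε, hε, h⟩ := wall_right S.reflect (noCommon_reflect hno) hP.reflect
  have hs : sSup {x | -x ∈ P} = - sInf P := by
    apply IsGreatest.csSup_eq
    constructor
    · show - - sInf P ∈ P
      rw [neg_neg]
      exact hP.compact.sInf_mem hP.ne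
    · intro x hx
      have := csInf_le hP.compact.bddBelow hx
      linarith
  rw [hs] at h
  refine ⟨ε, hε, fun u h1 h2 => ?_⟩
  have := h (-u) (by linarith) (by linarith)
  simp only [neg_neg] at this
  linarith

theorem between (S : Sys f g a b) (hno : NoCommon f g) {P Q : Set ℝ} (hP : Wall f g a b P)
    (hQ : Wall f g a b Q) (hlt : sSup P < sInf Q) : ∃ z ∈ K f g, sSup P < z ∧ z < sInf Q := by
  obtain ⟨ε1, h1, k1⟩ := wall_right S hno hP
  obtain ⟨ε2, h2, k2⟩ := wall_left S hno hQ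
  have hm : 0 < min (min ε1 ε2) (sInf Q - sSup P) := lt_min (lt_min h1 h2) (by linarith)
  have m1 : min (min ε1 ε2) (sInf Q - sSup P) ≤ ε1 := (min_le_left _ _).trans (min_le_left _ _)
  have m2 : min (min ε1 ε2) (sInf Q - sSup P) ≤ ε2 := (min_le_left _ _).trans (min_le_right _ _)
  have m3 : min (min ε1 ε2) (sInf Q - sSup P) ≤ sInf Q - sSup P := min_le_right _ _
  set δ := min (min ε1 ε2) (sInf Q - sSup P) with hδ
  have cF : Continuous (fun u => f (g u) - u) := (S.cf.comp S.cg).sub continuous_id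
  have e1 := k1 (sSup P + δ / 3) (by linarith) (by linarith)
  have e2 := k2 (sInf Q - δ / 3) (by linarith) (by linarith)
  obtain ⟨z, hz, e⟩ := ivt_zero' cF (u := sSup P + δ / 3) (v := sInf Q - δ / 3) (by linarith)
    (by linarith) (by linarith)
  exact ⟨z, show f (g z) = z by linarith, by linarith [hz.1], by linarith [hz.2]⟩

end Pool.Agent.MP4545.Ex
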