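import Pool.Agent.Work.MP_4545a8_an.Ex.Merge
import Pool.Agent.Work.MP_4545a8_an.Ex.Walls

/-!
MODULE BlkAv (medium). A block through a point `z` between two invariant intervals `E` and `B`
which meets `E` produces a larger invariant interval disjoint from `B`.

PROOF. First reduce to `i = 0`: if `f^i y ∈ E`, `y ∈ Q`, then `g^i (f^i y) ∈ E`, and it is in `Q`
(`Q` is `f ∘ g`-invariant). (First orientation: `E` is left of `z`, `B` is right of `z`; the second one is the same
with all inequalities reversed). `α = sSup E ∈ E`, `α0 = sInf E`. `z ∈ Q`, `Q` meets `E`, is order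
connected and `z > α`, so `α ∈ Q`. For every `i`, `f^i z ∉ E` (otherwise `z = g^i (f^i z) ∈ E`,
`gn_fn`), `f^i '' Q` is an interval that meets `E`. Let `0 < i < d`. `f^i '' Q` is disjoint from
`Q ∋ α`, so it does not contain `α`, it has a point `≤ α`, so it is contained in `Iio α`; so
`f^i z < α`, `f^i z ∉ E`, so `f^i z < α0`, and `α0 ∈ f^i '' Q`. If `d > 2` then `α0` is in `f '' Q` and
in `f^2 '' Q`; applying `g` (`g '' (f '' Q) = Q`, `g '' (f^2 '' Q) = f '' Q` by `Blk.himg`, `f` and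
`g` commute) `g α0 ∈ Q ∩ f '' Q`, against `dj`. So `d = 2`. Put `V = Q ∪ E ∪ f '' Q`: closed (compact),
order connected (both `Q` and `f '' Q` meet `E`), in `[a,b]`, invariant under `f`
(`f '' (f '' Q) = f^2 '' Q = Q`) and `g` (`g '' (f '' Q) = (f ∘ g) '' Q = Q`,
`g '' Q = g '' (f^2 '' Q) = f '' ((f ∘ g) '' Q) = f '' Q`). `V` is disjoint from `B`: `E` is (points of
`E` are `< z`, points of `B` are `> z`), `f '' Q ⊆ Iio α` is, and if `y ∈ Q ∩ B` then
`f y ∈ f '' Q ∩ B`.
-/

set_option autoImplicit false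

namespace Pool.Agent.MP4545.Ex

open Set Function Filter Topology
open Pool.Agent.MP4545

variable {f g : ℝ → ℝ} {a b : ℝ}

private lemma blkav_img_oc (S : Sys f g a b) {Q : Set ℝ} (hQ : OrdConnected Q) (i : ℕ) :
    OrdConnected (f^[i] '' Q) :=
  isPreconnected_iff_ordConnected.1
    ((isPreconnected_iff_ordConnected.2 hQ).image _ (S.cf.iterate i).continuousOn)

/-- the construction of `V` for a block of period two -/
private lemma blkav_V (S : Sys f g a b) {E B Q : Set ℝ} {z : ℝ}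
    (hE : Inv f g a b E) (hB : Inv f g a b B) (hQ : Blk f g 2 Q) (hzQ : z ∈ Q)
    (hm : (Q ∩ E).Nonempty) (hEB : Disjoint E B) (hfB : Disjoint (f '' Q) B) :
    ∃ V, Inv f g a b V ∧ E ⊆ V ∧ z ∈ V ∧ Disjoint V B := by
  obtain ⟨y, hyQ, hyE⟩ := hm
  have hQc : IsCompact Q := (hQ.wall S).compact
  have hfQ : OrdConnected (f '' Q) := blkav_img_oc S hQ.oc 1
  refine ⟨(Q ∪ E) ∪ f '' Q, ?_, fun x hx => Or.inl (Or.inr hx), Or.inl (Or.inl hzQ), ?_⟩
  · refine ⟨?_, ?_, ⟨y, Or.inl (Or.inl hyQ)⟩, ?_, ?_, ?_⟩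
    · exact (hQ.cl.union hE.cl).union (hQc.image S.cf).isClosed
    · apply isPreconnected_iff_ordConnected.1
      have h1 : IsPreconnected (Q ∪ E) :=
        (isPreconnected_iff_ordConnected.2 hQ.oc).union y hyQ hyE
          (isPreconnected_iff_ordConnected.2 hE.oc)
      exact h1.union (f y) (Or.inr (hE.hf hyE)) (mem_image_of_mem f hyQ)
        (isPreconnected_iff_ordConnected.2 hfQ)
    · rintro x ((hx | hx) | ⟨u, -, rfl⟩)
      · exact (hQ.wall S).sub hx
      · exact hE.sub hx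
      · exact S.rf u
    · rintro x ((hx | hx) | ⟨u, hu, rfl⟩)
      · exact Or.inr (mem_image_of_mem f hx)
      · exact Or.inl (Or.inr (hE.hf hx))
      · refine Or.inl (Or.inl ?_)
        have h1 := hQ.ff
        rw [← h1]
        exact ⟨u, hu, rfl⟩
    · rintro x ((hx | hx) | ⟨u, hu, rfl⟩)
      · refine Or.inr ?_
        have h1 := hQ.ff
        rw [← h1] at hx
        obtain ⟨u, hu, rfl⟩ := hx
        refine ⟨(f ∘ g) u, hQ.hh hu, ?_⟩
        show f (f (g u)) = g (f (f u))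
        rw [S.comm u, S.comm (f u)]
      · exact Or.inl (Or.inr (hE.hg hx))
      · refine Or.inl (Or.inl ?_)
        have h1 : g (f u) = (f ∘ g) u := (S.comm u).symm
        rw [h1]
        exact hQ.hh hu
  · rw [Set.disjoint_left]
    rintro x ((hx | hx) | hx) hxB
    · exact Set.disjoint_left.1 hfB (mem_image_of_mem f hx) (hB.hf hxB)
    · exact Set.disjoint_left.1 hEB hx hxB
    · exact Set.disjoint_left.1 hfB hx hxB

/-- a point in two translates is impossible -/
private lemma blkav_two (S : Sys f g a b) {Q : Set ℝ} {d : ℕ} (hQ : Blk f g d Q) (w : ℝ)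
    (h : ∀ i, 0 < i → i < d → w ∈ f^[i] '' Q) : d = 2 := by
  have h2 := hQ.two
  by_contra hne
  have hd : 2 < d := by omega
  obtain ⟨u, hu, hu'⟩ := h 1 one_pos (by omega)
  obtain ⟨v, hv, hv'⟩ := h 2 two_pos hd
  have e1 : g w ∈ Q := by
    have : g w = (f ∘ g) u := by
      rw [← hu']
      exact (S.comm u).symm
    rw [this]
    exact hQ.hh hu
  have e2 : g w ∈ f^[1] '' Q := by
    refine ⟨(f ∘ g) v, hQ.hh hv, ?_⟩
    rw [← hv']
    show f (f (g v)) = g (f (f v))
    rw [S.comm v, S.comm (f v)]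
  exact Set.disjoint_left.1 (hQ.dj 1 one_pos (by omega)) e1 e2

theorem blk_avoid (S : Sys f g a b) (hno : NoCommon f g) {E B Q : Set ℝ} {d : ℕ} {z : ℝ}
    (hE : Inv f g a b E) (hB : Inv f g a b B) (hQ : Blk f g d Q) (hz : z ∈ K f g) (hzQ : z ∈ Q)
    (hor : ((∀ y ∈ E, y < z) ∧ (∀ y ∈ B, z < y)) ∨ ((∀ y ∈ E, z < y) ∧ (∀ y ∈ B, y < z)))
    (hmeet : ∃ i : ℕ, (f^[i] '' Q ∩ E).Nonempty) :
    ∃ V, Inv f g a b V ∧ E ⊆ V ∧ z ∈ V ∧ Disjoint V B := by
  have hc : Function.Commute f g := S.comm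
  obtain ⟨i, x, ⟨y0, hy0, rfl⟩, hx⟩ := hmeet
  have hm : (Q ∩ E).Nonempty := by
    refine ⟨(f ∘ g)^[i] y0, hQ.hh.iterate i hy0, ?_⟩
    have h1 : (f ∘ g)^[i] y0 = g^[i] (f^[i] y0) := by
      rw [hc.comp_iterate]
      exact (hc.iterate_iterate i i).eq y0
    rw [h1]
    exact hE.hg.iterate i hx
  obtain ⟨y, hyQ, hyE⟩ := hm
  have hα1 := hE.compact.sSup_mem hE.ne
  have hα0 := hE.compact.sInf_mem hE.ne
  have hout : z ∉ E → ∀ i, f^[i] z ∉ E := by
    intro hzE i hi
    apply hzE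
    have h1 := hE.hg.iterate i hi
    rwa [gn_fn S hz i] at h1
  have hyi : ∀ i, f^[i] y ∈ E := fun i => hE.hf.iterate i hyE
  rcases hor with ⟨hEz, hBz⟩ | ⟨hEz, hBz⟩
  · have hzE : z ∉ E := fun h => lt_irrefl _ (hEz z h)
    have hαQ : sSup E ∈ Q :=
      hQ.oc.out hyQ hzQ ⟨le_csSup hE.compact.bddAbove hyE, (hEz _ hα1).le⟩
    have hlt : ∀ i, 0 < i → i < d → ∀ w ∈ f^[i] '' Q, w < sSup E := by
      intro i hi hid w hw
      by_contra hcon
      push Not at hcon
      have h1 : sSup E ∈ f^[i] '' Q := (blkav_img_oc S hQ.oc i).out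
        (mem_image_of_mem _ hyQ) hw ⟨le_csSup hE.compact.bddAbove (hyi i), hcon⟩
      exact Set.disjoint_left.1 (hQ.dj i hi hid) hαQ h1
    have hd : d = 2 := by
      apply blkav_two S hQ (sInf E)
      intro i hi hid
      have h1 := hlt i hi hid _ (mem_image_of_mem _ hzQ)
      have h2 : f^[i] z < sInf E := by
        by_contra hcon
        push Not at hcon
        exact hout hzE i (hE.oc.out hα0 hα1 ⟨hcon, h1.le⟩)
      exact (blkav_img_oc S hQ.oc i).out (mem_image_of_mem _ hzQ) (mem_image_of_mem _ hyQ)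
        ⟨h2.le, csInf_le hE.compact.bddBelow (hyi i)⟩
    subst hd
    refine blkav_V S hE hB hQ hzQ ⟨y, hyQ, hyE⟩ ?_ ?_
    · rw [Set.disjoint_left]
      intro x hx hx'
      exact lt_asymm (hEz x hx) (hBz x hx')
    · rw [Set.disjoint_left]
      intro x hx hx'
      have h1 := hlt 1 one_pos (by norm_num) x hx
      have h2 := hEz _ hα1
      have h3 := hBz x hx'
      linarith
  · have hzE : z ∉ E := fun h => lt_irrefl _ (hEz z h)
    have hαQ : sInf E ∈ Q :=
      hQ.oc.out hzQ hyQ ⟨(hEz _ hα0).le, csInf_le hE.compact.bddBelow hyE⟩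
    have hlt : ∀ i, 0 < i → i < d → ∀ w ∈ f^[i] '' Q, sInf E < w := by
      intro i hi hid w hw
      by_contra hcon
      push Not at hcon
      have h1 : sInf E ∈ f^[i] '' Q := (blkav_img_oc S hQ.oc i).out hw
        (mem_image_of_mem _ hyQ) ⟨hcon, csInf_le hE.compact.bddBelow (hyi i)⟩
      exact Set.disjoint_left.1 (hQ.dj i hi hid) hαQ h1
    have hd : d = 2 := by
      apply blkav_two S hQ (sSup E)
      intro i hi hid
      have h1 := hlt i hi hid _ (mem_image_of_mem _ hzQ)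
      have h2 : sSup E < f^[i] z := by
        by_contra hcon
        push Not at hcon
        exact hout hzE i (hE.oc.out hα0 hα1 ⟨h1.le, hcon⟩)
      exact (blkav_img_oc S hQ.oc i).out (mem_image_of_mem _ hyQ) (mem_image_of_mem _ hzQ)
        ⟨le_csSup hE.compact.bddAbove (hyi i), h2.le⟩
    subst hd
    refine blkav_V S hE hB hQ hzQ ⟨y, hyQ, hyE⟩ ?_ ?_
    · rw [Set.disjoint_left]
      intro x hx hx'
      exact lt_asymm (hEz x hx) (hBz x hx')
    · rw [Set.disjoint_left]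
      intro x hx hx'
      have h1 := hlt 1 one_pos (by norm_num) x hx
      have h2 := hEz _ hα0
      have h3 := hBz x hx'
      linarith

end Pool.Agent.MP4545.Ex
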