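import Pool.Agent.Work.MP_4545a8_an.Ex.Merge
import Pool.Agent.Work.MP_4545a8_an.Ex.Walls

set_option autoImplicit false

/-!
MODULE Cover (small). A compact set of fixed points of `f ∘ g` covered by blocks is covered by
finitely many pairwise disjoint blocks.

PROOF. For `x ∈ X` take a block `Q ∋ x` with property `Φ` and (`wall_open`, `Blk.wall`) an open
`U ∋ x` with `K f g ∩ U ⊆ Q`. By compactness finitely many such blocks cover `X`. Among all finite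
sets `Cs` of blocks with property `Φ` that cover `X` take one of least cardinality. If two different
members `C, D` meet, let `R` be the block of `merge`; `Φ R` by `hm`; replacing `C, D` by `R` gives a
smaller cover.
-/

namespace Pool.Agent.MP4545.Ex

open Set Function Filter Topology
open Pool.Agent.MP4545

variable {f g : ℝ → ℝ} {a b : ℝ}

theorem cover (S : Sys f g a b) (hno : NoCommon f g) (Φ : Set ℝ → Prop)
    (hm : ∀ d P e Q r R, Blk f g d P → Blk f g e Q → Blk f g r R → Φ P → Φ Q →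
      R ⊆ (⋃ i : ℕ, f^[i] '' P) ∪ (⋃ i : ℕ, f^[i] '' Q) → Φ R)
    {X : Set ℝ} (hX : IsCompact X) (hXK : X ⊆ K f g)
    (hc : ∀ x ∈ X, ∃ d Q, Blk f g d Q ∧ Φ Q ∧ x ∈ Q) :
    ∃ Cs : Finset (Set ℝ), (∀ C ∈ Cs, ∃ d, Blk f g d C) ∧ (∀ C ∈ Cs, Φ C) ∧
      (∀ C ∈ Cs, ∀ D ∈ Cs, C ≠ D → Disjoint C D) ∧ ∀ x ∈ X, ∃ C ∈ Cs, x ∈ C := by
  classical
  -- a finite cover
  have h1 : ∀ x : X, ∃ Q U : Set ℝ, (∃ d, Blk f g d Q) ∧ Φ Q ∧ IsOpen U ∧ (x : ℝ) ∈ U ∧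
      K f g ∩ U ⊆ Q := by
    intro x
    obtain ⟨d, Q, hQ, hΦ, hx⟩ := hc x x.2
    obtain ⟨U, hU, hxU, hs⟩ := wall_open S hno (hQ.wall S) (hXK x.2) hx
    exact ⟨Q, U, ⟨d, hQ⟩, hΦ, hU, hxU, hs⟩
  choose Q U hQ hΦ hU hxU hs using h1
  obtain ⟨t, ht⟩ := hX.elim_finite_subcover U hU (fun x hx => mem_iUnion.2 ⟨⟨x, hx⟩, hxU ⟨x, hx⟩⟩)
  have hex : ∃ n : ℕ, ∃ Cs : Finset (Set ℝ), Cs.card = n ∧ (∀ C ∈ Cs, ∃ d, Blk f g d C) ∧
      (∀ C ∈ Cs, Φ C) ∧ ∀ x ∈ X, ∃ C ∈ Cs, x ∈ C := by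
    refine ⟨_, t.image Q, rfl, ?_, ?_, ?_⟩
    · intro C hC
      obtain ⟨x, -, rfl⟩ := Finset.mem_image.1 hC
      exact hQ x
    · intro C hC
      obtain ⟨x, -, rfl⟩ := Finset.mem_image.1 hC
      exact hΦ x
    · intro x hx
      obtain ⟨y, hy, hxy⟩ := mem_iUnion₂.1 (ht hx)
      exact ⟨Q y, Finset.mem_image_of_mem Q hy, hs y ⟨hXK hx, hxy⟩⟩
  obtain ⟨Cs, hcard, hB, hP, hcov⟩ := Nat.find_spec hex
  refine ⟨Cs, hB, hP, ?_, hcov⟩
  intro C hC D hD hne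
  by_contra hdis
  rw [Set.not_disjoint_iff_nonempty_inter] at hdis
  obtain ⟨d, hCb⟩ := hB C hC
  obtain ⟨e, hDb⟩ := hB D hD
  obtain ⟨r, R, hR, hCR, hDR, hsub⟩ := merge S hCb hDb hdis
  have hΦR : Φ R := hm d C e D r R hCb hDb hR (hP C hC) (hP D hD) hsub
  have hlt : (insert R ((Cs.erase C).erase D)).card < Nat.find hex := by
    have hD' : D ∈ Cs.erase C := Finset.mem_erase.2 ⟨fun h => hne h.symm, hD⟩
    have h2 := Finset.card_erase_of_mem hD'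
    have h3 := Finset.card_erase_of_mem hC
    have h4 := Finset.card_insert_le R ((Cs.erase C).erase D)
    have h5 : 0 < (Cs.erase C).card := Finset.card_pos.2 ⟨D, hD'⟩
    omega
  apply Nat.find_min hex hlt
  refine ⟨_, rfl, ?_, ?_, ?_⟩
  · intro E hE
    rcases Finset.mem_insert.1 hE with rfl | hE
    · exact ⟨r, hR⟩
    · exact hB E (Finset.mem_of_mem_erase (Finset.mem_of_mem_erase hE))
  · intro E hE
    rcases Finset.mem_insert.1 hE with rfl | hE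
    · exact hΦR
    · exact hP E (Finset.mem_of_mem_erase (Finset.mem_of_mem_erase hE))
  · intro x hx
    obtain ⟨E, hE, hxE⟩ := hcov x hx
    by_cases h6 : E = C
    · exact ⟨R, Finset.mem_insert_self _ _, hCR (h6 ▸ hxE)⟩
    · by_cases h7 : E = D
      · exact ⟨R, Finset.mem_insert_self _ _, hDR (h7 ▸ hxE)⟩
      · exact ⟨E, Finset.mem_insert_of_mem (Finset.mem_erase.2 ⟨h7, Finset.mem_erase.2 ⟨h6, hE⟩⟩),
          hxE⟩

end Pool.Agent.MP4545.Ex
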