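import Mathlib
import Pool.Agent.Work.MP_4545a8_an.Trap

set_option autoImplicit false

/-!
Common definitions for the structure theorem on commuting interval maps without common periodic
point. `Sys f g a b`: `f, g : ℝ → ℝ` continuous, commuting, with values in `[a,b]`.
`K f g` is the set of fixed points of `f ∘ g`; `f` and `g` are inverse to each other on it.
-/

namespace Pool.Agent.MP4545.Ex

open Set Function Filter Topology
open Pool.Agent.MP4545

/-- `C` is a closed interval of `[a,b]` (nonempty, possibly one point) invariant under both maps. -/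
structure Inv (f g : ℝ → ℝ) (a b : ℝ) (C : Set ℝ) : Prop where
  cl : IsClosed C
  oc : OrdConnected C
  ne : C.Nonempty
  sub : C ⊆ Icc a b
  hf : MapsTo f C C
  hg : MapsTo g C C

/-- a minimal closed invariant interval -/
structure MinInv (f g : ℝ → ℝ) (a b : ℝ) (C : Set ℝ) : Prop extends Inv f g a b C where
  min : ∀ D : Set ℝ, Inv f g a b D → D ⊆ C → D = C

/-- A block of period `d ≥ 2`: a closed interval, invariant under `f ∘ g`, which returns to itself
under `f^d` and `g^d` and is disjoint from its images under `f, …, f^(d-1)`. -/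
structure Blk (f g : ℝ → ℝ) (d : ℕ) (P : Set ℝ) : Prop where
  cl : IsClosed P
  oc : OrdConnected P
  ne : P.Nonempty
  hh : MapsTo (f ∘ g) P P
  two : 2 ≤ d
  ff : f^[d] '' P = P
  gg : g^[d] '' P = P
  dj : ∀ i, 0 < i → i < d → Disjoint P (f^[i] '' P)

/-- A wall: closed interval invariant under `f ∘ g` and under some `f^d` and `g^d`, `d ≥ 1`. -/
structure Wall (f g : ℝ → ℝ) (a b : ℝ) (P : Set ℝ) : Prop where
  cl : IsClosed P
  oc : OrdConnected P
  ne : P.Nonempty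
  sub : P ⊆ Icc a b
  hh : MapsTo (f ∘ g) P P
  per : ∃ d, 0 < d ∧ MapsTo f^[d] P P ∧ MapsTo g^[d] P P

/-- A fixed point `x` of `f ∘ g` all of whose hulls `K(x, f^m x)`, `m ≥ 1`, are equal to `[c,d]`. -/
structure Core (f g : ℝ → ℝ) (a b x c d : ℝ) : Prop where
  hx : x ∈ K f g
  lt : c < d
  sub : Icc c d ⊆ Icc a b
  ff : f '' Icc c d = Icc c d
  gg : g '' Icc c d = Icc c d
  hull : ∀ m, 0 < m → Hull (f ∘ g) x (f^[m] x) = Icc c d

/-- the two sided orbit of a fixed point `x` of `f ∘ g` -/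
def Orb (f g : ℝ → ℝ) (x : ℝ) : Set ℝ := {y | ∃ n, y = f^[n] x ∨ y = g^[n] x}

/-- Some iterate of `J` under `f ∘ g` contains two points of the orbit of `x`. -/
def Big (f g : ℝ → ℝ) (x : ℝ) (J : Set ℝ) : Prop :=
  ∃ n, ∃ y ∈ Orb f g x, ∃ y' ∈ Orb f g x, y ≠ y' ∧ y ∈ (f ∘ g)^[n] '' J ∧ y' ∈ (f ∘ g)^[n] '' J

/-- `(F,G)` on `[0,1]` is a factor of `(f,g)` on `[c,d]`; the fibres are the maximal intervals which
are not big. -/
structure Fac (f g : ℝ → ℝ) (x c d : ℝ) (F G φ : ℝ → ℝ) : Prop where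
  sys : Sys F G 0 1
  cφ : Continuous φ
  mono : Monotone φ
  left : φ c = 0
  right : φ d = 1
  fφ : ∀ t ∈ Icc c d, F (φ t) = φ (f t)
  gφ : ∀ t ∈ Icc c d, G (φ t) = φ (g t)
  ker : ∀ s t, c ≤ s → s ≤ t → t ≤ d → (φ s = φ t ↔ ¬ Big f g x (Icc s t))

/-- mixing of `F ∘ G` on `[0,1]` -/
def Mixing (F G : ℝ → ℝ) : Prop :=
  ∀ p q : ℝ, 0 ≤ p → p < q → q ≤ 1 → ∀ ε : ℝ, 0 < ε →
    ∃ N, ∀ n, N ≤ n → Icc ε (1 - ε) ⊆ (F ∘ G)^[n] '' Icc p q

lemma Blk.wall {f g : ℝ → ℝ} {a b : ℝ} (S : Sys f g a b) {d : ℕ} {P : Set ℝ}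
    (h : Blk f g d P) : Wall f g a b P where
  cl := h.cl
  oc := h.oc
  ne := h.ne
  sub := by
    intro y hy
    rw [← h.ff] at hy
    obtain ⟨x, -, rfl⟩ := hy
    obtain ⟨k, rfl⟩ : ∃ k, d = k + 1 := ⟨d - 1, by have := h.two; omega⟩
    rw [iterate_succ_apply']
    exact S.rf _
  hh := h.hh
  per := ⟨d, by have := h.two; omega, fun x hx => by rw [← h.ff]; exact mem_image_of_mem _ hx,
    fun x hx => by rw [← h.gg]; exact mem_image_of_mem _ hx⟩

lemma Inv.wall {f g : ℝ → ℝ} {a b : ℝ} {P : Set ℝ} (h : Inv f g a b P) : Wall f g a b P where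
  cl := h.cl
  oc := h.oc
  ne := h.ne
  sub := h.sub
  hh := h.hf.comp h.hg
  per := ⟨1, one_pos, h.hf, h.hg⟩

lemma Wall.compact {f g : ℝ → ℝ} {a b : ℝ} {P : Set ℝ} (h : Wall f g a b P) : IsCompact P :=
  isCompact_Icc.of_isClosed_subset h.cl h.sub

lemma Inv.compact {f g : ℝ → ℝ} {a b : ℝ} {P : Set ℝ} (h : Inv f g a b P) : IsCompact P :=
  h.wall.compact

/-- a compact interval is `[sInf P, sSup P]` -/
lemma eq_Icc {P : Set ℝ} (hc : IsCompact P) (ho : OrdConnected P) (hn : P.Nonempty) :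
    P = Icc (sInf P) (sSup P) := by
  apply Subset.antisymm
  · intro x hx
    exact ⟨csInf_le hc.bddBelow hx, le_csSup hc.bddAbove hx⟩
  · exact ho.out (hc.sInf_mem hn) (hc.sSup_mem hn)

end Pool.Agent.MP4545.Ex
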