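import Mathlib

set_option autoImplicit false

/-!
MODULE Desc (small, Mathlib only). A map of `[c,d]` compatible with the fibres of a continuous
monotone map `φ` of `[c,d]` onto `[0,1]` descends to `[0,1]`.

PROOF. For real `u` let `u' = max 0 (min 1 u) ∈ [0,1]`. By the intermediate value theorem
there is `σ u ∈ [c,d]` with `φ (σ u) = u'`. Put `F u = φ (f (σ u))`. As `φ (σ (φ t)) = φ t` for
`t ∈ [c,d]` (`φ t ∈ [0,1]` by monotonicity), `hfib` gives `F (φ t) = φ (f t)`. `F u` depends only on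
`u'`. Continuity: the restriction of `φ` is a continuous surjection `Icc c d → Icc 0 1` of a compact
space on a Hausdorff space, so it is a closed map and a quotient map; `F ∘ φ = φ ∘ f` is
continuous on `Icc c d`; so `F` is continuous on `Icc 0 1`; and `F = (F restricted) ∘ projIcc`
(`Set.projIcc`, `continuous_projIcc`, `Continuous.Icc_extend'`).
-/

namespace Pool.Agent.MP4545.Ex

open Set Function Filter Topology

theorem exists_desc {c d : ℝ} (hcd : c < d) {φ f : ℝ → ℝ} (cφ : Continuous φ) (hmono : Monotone φ)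
    (h0 : φ c = 0) (h1 : φ d = 1) (cf : Continuous f) (hf : MapsTo f (Icc c d) (Icc c d))
    (hfib : ∀ s ∈ Icc c d, ∀ t ∈ Icc c d, φ s = φ t → φ (f s) = φ (f t)) :
    ∃ F : ℝ → ℝ, Continuous F ∧ (∀ u, F u ∈ Icc (0 : ℝ) 1) ∧
      (∀ t ∈ Icc c d, F (φ t) = φ (f t)) ∧ (∀ u, u ≤ 0 → F u = F 0) ∧ (∀ u, 1 ≤ u → F u = F 1) := by
  have hφ : ∀ t ∈ Icc c d, φ t ∈ Icc (0 : ℝ) 1 := by
    intro t ht
    rw [← h0, ← h1]
    exact ⟨hmono ht.1, hmono ht.2⟩
  obtain ⟨Φ, hΦ⟩ : ∃ Φ : Icc c d → Icc (0 : ℝ) 1, ∀ t, ((Φ t : Icc (0 : ℝ) 1) : ℝ) = φ t :=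
    ⟨fun t => ⟨φ t, hφ t t.2⟩, fun _ => rfl⟩
  have hΦc : Continuous Φ := by
    rw [continuous_induced_rng]
    have e : (Subtype.val ∘ Φ) = fun t : Icc c d => φ t := funext hΦ
    rw [e]
    exact cφ.comp continuous_subtype_val
  have hΦs : Surjective Φ := by
    intro w
    have h2 := intermediate_value_Icc hcd.le cφ.continuousOn
    rw [h0, h1] at h2
    obtain ⟨t, ht, htw⟩ := h2 w.2
    exact ⟨⟨t, ht⟩, Subtype.ext ((hΦ _).trans htw)⟩
  choose τ hτ using hΦs
  have hq : IsQuotientMap Φ := hΦc.isClosedMap.isQuotientMap hΦc (fun w => ⟨τ w, hτ w⟩)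
  obtain ⟨G, hG⟩ : ∃ G : Icc (0 : ℝ) 1 → ℝ, ∀ w, G w = φ (f (τ w)) := ⟨_, fun _ => rfl⟩
  have hGΦ : ∀ t, G (Φ t) = φ (f t) := by
    intro t
    rw [hG]
    apply hfib _ (τ (Φ t)).2 _ t.2
    rw [← hΦ, ← hΦ, hτ]
  have hGc : Continuous G := by
    rw [hq.continuous_iff]
    have e : G ∘ Φ = fun t : Icc c d => φ (f t) := funext hGΦ
    rw [e]
    exact cφ.comp (cf.comp continuous_subtype_val)
  refine ⟨fun u => G (projIcc 0 1 zero_le_one u), hGc.comp continuous_projIcc, ?_, ?_, ?_, ?_⟩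
  · intro u
    simp only [hG]
    exact hφ _ (hf (τ _).2)
  · intro t ht
    have e : projIcc 0 1 zero_le_one (φ t) = Φ ⟨t, ht⟩ := by
      rw [projIcc_of_mem zero_le_one (hφ t ht)]
      exact Subtype.ext (hΦ ⟨t, ht⟩).symm
    simp only [e]
    exact hGΦ _
  · intro u hu
    simp only [projIcc_of_le_left zero_le_one hu, projIcc_of_le_left zero_le_one le_rfl]
  · intro u hu
    simp only [projIcc_of_right_le zero_le_one hu, projIcc_of_right_le zero_le_one le_rfl]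

end Pool.Agent.MP4545.Ex
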