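import Pool.Agent.Work.MP_4545a8_an.Ex.HullIt

set_option autoImplicit false

/-!
MODULE Dicho (medium). The dichotomy for the hulls `A i = Hull (f ∘ g) (f^i x) (f^(i+m) x)`:
either they have a common point (then the intersection is an invariant interval) or `x` lies in a
block contained in their union.

PROOF. By module HullIt: `f '' A i = A (i+1)`, `g '' A (i+1) = A i`, `A (i+m) = A i`; each `A i` is
closed, order connected (hull_closed, hull_ord), nonempty, contained in `[a,b]` (`hull_bdd`), invariant
under `f ∘ g` (`hull_inv`). Write `I i j` for `(A i ∩ A j).Nonempty`.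
`I i j → I (i+1) (j+1)` (apply `f` to a common point) and `I (i+1) (j+1) → I i j` (apply `g`).
Let `i0 < m` be such that the right endpoint `β = sSup (A i0)` is minimal among all `A i` (finitely
many sets, `A` is `m`-periodic). If `I i0 j` then `β ∈ A j` (`A j` contains a point `≤ β` and its right
endpoint is `≥ β`). So `I i0 j ∧ I i0 k → I j k`; by shifting (choose `s` with `i + s ≡ i0 mod m`)
`I i j ∧ I i k → I j k` for all `i, j, k`: `I` is an equivalence relation invariant under shifts.
Let `d` be the least positive number with `I 0 d` (exists, `I 0 m`). Then `I i j ↔ i ≡ j [MOD d]`.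
If `d = 1`: all `A j` meet `A i0`, so `β` is in all of them: first case; the intersection is closed,
order connected, in `[a,b]`, and `f` (and `g`) maps it to itself since `f` maps `A i` to `A (i+1)` and
`A 0 = A m`, `g` maps `A (i+1)` to `A i` and `A 0 = A m = A ((m-1)+1)`.
If `d ≥ 2`: `Q = ⋃ k, A (k*d)`. It is closed (finitely many different sets), order connected (all
meet `A 0`; e.g. union of preconnected sets with pairwise nonempty intersection, or by hand), invariant
under `f ∘ g`, `f^d '' Q = ⋃ k, A ((k+1)*d) = Q` (because `A 0 = A (m*d)`), same for `g^d`, and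
disjoint from `f^i '' Q = ⋃ k, A (k*d+i)` for `0 < i < d`. `x ∈ A 0 ⊆ Q`.
-/

namespace Pool.Agent.MP4545.Ex

open Set Function Filter Topology
open Pool.Agent.MP4545

variable {f g : ℝ → ℝ} {a b : ℝ}

private structure DFam (f g : ℝ → ℝ) (a b : ℝ) (A : ℕ → Set ℝ) (m : ℕ) : Prop where
  pos : 0 < m
  cl : ∀ i, IsClosed (A i)
  oc : ∀ i, OrdConnected (A i)
  ne : ∀ i, (A i).Nonempty
  sub : ∀ i, A i ⊆ Icc a b
  inv : ∀ i, MapsTo (f ∘ g) (A i) (A i)
  hf : ∀ i, f '' A i = A (i + 1)
  hg : ∀ i, g '' A (i + 1) = A i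
  per : ∀ i, A (i + m) = A i

private def DI (A : ℕ → Set ℝ) (i j : ℕ) : Prop := (A i ∩ A j).Nonempty

section

variable {A : ℕ → Set ℝ} {m : ℕ}

private lemma dic_symm {i j : ℕ} (h : DI A i j) : DI A j i := by
  obtain ⟨y, h1, h2⟩ := h
  exact ⟨y, h2, h1⟩

private lemma dic_succ (D : DFam f g a b A m) {i j : ℕ} (h : DI A i j) :
    DI A (i + 1) (j + 1) := by
  obtain ⟨y, h1, h2⟩ := h
  refine ⟨f y, ?_, ?_⟩
  · rw [← D.hf]
    exact mem_image_of_mem f h1
  · rw [← D.hf]
    exact mem_image_of_mem f h2

private lemma dic_pred (D : DFam f g a b A m) {i j : ℕ} (h : DI A (i + 1) (j + 1)) :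
    DI A i j := by
  obtain ⟨y, h1, h2⟩ := h
  refine ⟨g y, ?_, ?_⟩
  · rw [← D.hg]
    exact mem_image_of_mem g h1
  · rw [← D.hg]
    exact mem_image_of_mem g h2

private lemma dic_add (D : DFam f g a b A m) {i j : ℕ} (k : ℕ) :
    DI A (i + k) (j + k) ↔ DI A i j := by
  induction k with
  | zero => rfl
  | succ k ih =>
    rw [← ih]
    exact ⟨fun h => dic_pred D h, fun h => dic_succ D h⟩

private lemma dic_perk (D : DFam f g a b A m) (i k : ℕ) : A (i + m * k) = A i := by
  induction k with
  | zero => rfl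
  | succ k ih => rw [Nat.mul_succ, ← Nat.add_assoc, D.per, ih]

private lemma dic_cpt (D : DFam f g a b A m) (i : ℕ) : IsCompact (A i) :=
  isCompact_Icc.of_isClosed_subset (D.cl i) (D.sub i)

private lemma dic_min (D : DFam f g a b A m) : ∃ i0, ∀ j, sSup (A i0) ≤ sSup (A j) := by
  obtain ⟨i0, -, h⟩ := Finset.exists_min_image (Finset.range m) (fun j => sSup (A j))
    ⟨0, Finset.mem_range.2 D.pos⟩
  refine ⟨i0, fun j => ?_⟩
  have h1 := h (j % m) (Finset.mem_range.2 (Nat.mod_lt _ D.pos))
  have h2 : A j = A (j % m) := by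
    conv_lhs => rw [← Nat.mod_add_div j m]
    exact dic_perk D _ _
  rw [h2]
  exact h1

private lemma dic_mem (D : DFam f g a b A m) {i0 : ℕ} (h0 : ∀ j, sSup (A i0) ≤ sSup (A j))
    {j : ℕ} (h : DI A i0 j) : sSup (A i0) ∈ A j := by
  obtain ⟨y, h1, h2⟩ := h
  have h3 : y ≤ sSup (A i0) := le_csSup (dic_cpt D i0).bddAbove h1
  exact (D.oc j).out h2 ((dic_cpt D j).sSup_mem (D.ne j)) ⟨h3, h0 j⟩

private lemma dic_trans (D : DFam f g a b A m) {i j k : ℕ} (h : DI A i j) (h' : DI A i k) :
    DI A j k := by
  obtain ⟨i0, h0⟩ := dic_min D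
  -- shift to `i0`
  obtain ⟨s, hs⟩ : ∃ s, i + s = i0 + m * i := by
    refine ⟨i0 + m * i - i, ?_⟩
    have : 1 * i ≤ m * i := Nat.mul_le_mul_right i D.pos
    omega
  have e : A (i + s) = A i0 := by rw [hs, dic_perk D]
  have h1 : DI A i0 (j + s) := by
    have := (dic_add D s).2 h
    rw [DI, e] at this
    exact this
  have h2 : DI A i0 (k + s) := by
    have := (dic_add D s).2 h'
    rw [DI, e] at this
    exact this
  exact (dic_add D s).1 ⟨sSup (A i0), dic_mem D h0 h1, dic_mem D h0 h2⟩

private lemma dic_fn (D : DFam f g a b A m) (i n : ℕ) : f^[n] '' A i = A (i + n) := by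
  induction n with
  | zero => simp
  | succ n ih => rw [iterate_succ', image_comp, ih, D.hf]; rfl

private lemma dic_gn (D : DFam f g a b A m) (i n : ℕ) : g^[n] '' A (i + n) = A i := by
  induction n with
  | zero => simp
  | succ n ih => rw [iterate_succ, image_comp, ← Nat.add_assoc, D.hg, ih]

private lemma dic_main (D : DFam f g a b A m) : Inv f g a b (⋂ i : ℕ, A i) ∨
    ∃ d Q, Blk f g d Q ∧ A 0 ⊆ Q ∧ Q ⊆ ⋃ i : ℕ, A i := by
  classical
  have hex : ∃ d, 0 < d ∧ DI A 0 d := by
    refine ⟨m, D.pos, ?_⟩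
    have e : A m = A 0 := by
      have := D.per 0
      rwa [Nat.zero_add] at this
    rw [DI, e, inter_self]
    exact D.ne 0
  obtain ⟨d, ⟨hd0, hd⟩, hmin⟩ : ∃ d, (0 < d ∧ DI A 0 d) ∧ ∀ r, 0 < r → r < d → ¬ DI A 0 r :=
    ⟨Nat.find hex, Nat.find_spec hex, fun r hr hr' h => Nat.find_min hex hr' ⟨hr, h⟩⟩
  have hmul : ∀ k, DI A 0 (k * d) := by
    intro k
    induction k with
    | zero =>
      rw [Nat.zero_mul, DI, inter_self]
      exact D.ne 0
    | succ k ih =>
      have h1 : DI A (k * d) (k * d + d) := by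
        have := (dic_add D (i := 0) (j := d) (k * d)).2 hd
        rwa [Nat.zero_add, Nat.add_comm d] at this
      rw [Nat.succ_mul]
      exact dic_trans D (dic_symm ih) h1
  by_cases hd1 : d = 1
  · left
    subst hd1
    have hall : ∀ j, DI A 0 j := fun j => by
      have := hmul j
      rwa [Nat.mul_one] at this
    obtain ⟨i0, h0⟩ := dic_min D
    refine ⟨isClosed_iInter D.cl, ordConnected_iInter D.oc, ⟨sSup (A i0), ?_⟩,
      (iInter_subset A 0).trans (D.sub 0), ?_, ?_⟩
    · rw [mem_iInter]
      exact fun j => dic_mem D h0 (dic_trans D (hall i0) (hall j))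
    · intro y hy
      rw [mem_iInter] at hy ⊢
      intro i
      have h1 : A i = A ((i + m - 1) + 1) := by
        rw [Nat.sub_add_cancel (by have := D.pos; omega), D.per]
      rw [h1, ← D.hf]
      exact mem_image_of_mem f (hy _)
    · intro y hy
      rw [mem_iInter] at hy ⊢
      intro i
      rw [← D.hg]
      exact mem_image_of_mem g (hy _)
  · right
    have hd2 : 2 ≤ d := by omega
    have hrel : ∀ k l, DI A (k * d) (l * d) := fun k l => dic_trans D (hmul k) (hmul l)
    have hm1 : ∀ k, A (k * d) = A ((k + m - 1) * d + d) := by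
      intro k
      have h1 : (k + m - 1) * d + d = k * d + m * d := by
        rw [← Nat.succ_mul, ← Nat.add_mul]
        congr 1
        have := D.pos
        omega
      rw [h1, dic_perk D]
    refine ⟨d, ⋃ k : ℕ, A (k * d), ⟨?_, ?_, ?_, ?_, hd2, ?_, ?_, ?_⟩, ?_, ?_⟩
    · have h1 : (⋃ k : ℕ, A (k * d)) = ⋃ k ∈ Finset.range m, A (k * d) := by
        apply Subset.antisymm
        · refine iUnion_subset fun k => ?_
          have h2 : A (k * d) = A ((k % m) * d) := by
            have h3 : k * d = (k % m) * d + m * (k / m * d) := by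
              calc k * d = (k % m + m * (k / m)) * d := by rw [Nat.mod_add_div]
                _ = (k % m) * d + m * (k / m * d) := by ring
            rw [h3, dic_perk D]
          rw [h2]
          exact subset_biUnion_of_mem (u := fun k => A (k * d))
            (Finset.mem_coe.2 (Finset.mem_range.2 (Nat.mod_lt k D.pos)))
        · exact iUnion₂_subset fun k _ => subset_iUnion (fun k => A (k * d)) k
      rw [h1]
      exact isClosed_biUnion_finset fun k _ => D.cl _
    · apply isPreconnected_iff_ordConnected.1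
      refine IsPreconnected.iUnion_of_reflTransGen
        (fun k => isPreconnected_iff_ordConnected.2 (D.oc _)) fun k l => ?_
      exact Relation.ReflTransGen.single (hrel k l)
    · obtain ⟨y, hy⟩ := D.ne (0 * d)
      exact ⟨y, mem_iUnion.2 ⟨0, hy⟩⟩
    · intro y hy
      obtain ⟨k, hk⟩ := mem_iUnion.1 hy
      exact mem_iUnion.2 ⟨k, D.inv _ hk⟩
    · rw [image_iUnion]
      simp only [dic_fn D]
      apply Subset.antisymm
      · refine iUnion_subset fun k => ?_
        rw [← Nat.succ_mul]
        exact subset_iUnion (fun k => A (k * d)) (k + 1)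
      · refine iUnion_subset fun k => ?_
        rw [hm1 k]
        exact subset_iUnion (fun k => A (k * d + d)) (k + m - 1)
    · rw [image_iUnion]
      apply Subset.antisymm
      · refine iUnion_subset fun k => ?_
        rw [hm1 k, dic_gn D]
        exact subset_iUnion (fun k => A (k * d)) (k + m - 1)
      · refine iUnion_subset fun k => ?_
        rw [← dic_gn D (k * d) d, ← Nat.succ_mul]
        exact subset_iUnion (fun k => g^[d] '' A (k * d)) (k + 1)
    · intro i hi hid
      rw [image_iUnion, Set.disjoint_left]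
      intro y hy hy'
      obtain ⟨l, hl⟩ := mem_iUnion.1 hy
      obtain ⟨k, hk⟩ := mem_iUnion.1 hy'
      rw [dic_fn D] at hk
      have h1 : DI A (l * d) (k * d + i) := ⟨y, hl, hk⟩
      have h2 : DI A (k * d) (k * d + i) := dic_trans D (hrel l k) h1
      apply hmin i hi hid
      have h3 := (dic_add D (i := 0) (j := i) (k * d)).1 (by
        rwa [Nat.zero_add, Nat.add_comm i])
      exact h3
    · have := subset_iUnion (fun k => A (k * d)) 0
      rwa [Nat.zero_mul] at this
    · exact iUnion_subset fun k => subset_iUnion A (k * d)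

end

theorem dicho (S : Sys f g a b) (hno : NoCommon f g) {x : ℝ} (hx : x ∈ K f g) {m : ℕ}
    (hm : 0 < m) :
    Inv f g a b (⋂ i : ℕ, Hull (f ∘ g) (f^[i] x) (f^[i + m] x)) ∨
      ∃ d Q, Blk f g d Q ∧ x ∈ Q ∧ Q ⊆ ⋃ i : ℕ, Hull (f ∘ g) (f^[i] x) (f^[i + m] x) := by
  have D : DFam f g a b (fun i => Hull (f ∘ g) (f^[i] x) (f^[i + m] x)) m :=
    { pos := hm
      cl := fun i => hull_closed _ _ _
      oc := fun i => hull_ord _ _ _
      ne := fun i => ⟨_, left_mem_hull _ _ _⟩
      sub := fun i => hull_bdd S (K_fn S hx i) (K_fn S hx (i + m))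
      inv := fun i => hull_inv _ _ _
      hf := fun i => hull_f S hx m i
      hg := fun i => hull_g S hx m i
      per := fun i => hull_add S hno hx hm i }
  rcases dic_main D with h | ⟨d, Q, h1, h2, h3⟩
  · exact Or.inl h
  · exact Or.inr ⟨d, Q, h1, h2 (left_mem_hull _ _ _), h3⟩

end Pool.Agent.MP4545.Ex
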