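import Pool.Agent.Work.MP_4545a8_an.Ex.Defs

set_option autoImplicit false

/-!
MODULE Exist (small). Minimal closed invariant intervals.

PROOF of `exists_minInv`: Zorn's lemma (`zorn_superset`) as in `exists_min` of file Min.lean: the
intersection of a chain of closed nonempty order connected subsets of `[a,b]` invariant under both maps
is of the same kind (compactness for nonemptiness).
PROOF of `minInv_Icc`: `C = [c,d]` with `c ≤ d`; if `c = d` then `f c = c` and `g c = c`, against
`NoCommon`. `f '' C` is a compact interval contained in `C`, and it is invariant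
(`f (f x) ∈ f '' C` as `f x ∈ C`, `g (f x) = f (g x)`), so it is `C`; same for `g`.
PROOF of `inv_fix`: `C = [c,d]`, `u ↦ f (g u) - u` is `≥ 0` at `c` and `≤ 0` at `d`.
PROOF of `inv_inter`, `inv_dis`: a nonempty intersection of two invariant intervals is an invariant
interval; if one of them is minimal then it is contained in the other one or disjoint from it.
-/

namespace Pool.Agent.MP4545.Ex

open Set Function Filter Topology
open Pool.Agent.MP4545

variable {f g : ℝ → ℝ} {a b : ℝ}

theorem exists_minInv (S : Sys f g a b) {C : Set ℝ} (hC : Inv f g a b C) :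
    ∃ D, MinInv f g a b D ∧ D ⊆ C := by
  obtain ⟨D, hDC, hmin⟩ := zorn_superset_nonempty {D : Set ℝ | Inv f g a b D} (by
    intro c hc hchain hne
    refine ⟨⋂₀ c, ?_, fun s hs => sInter_subset_of_mem hs⟩
    have hnonempty : (⋂₀ c).Nonempty := by
      have : Nonempty c := hne.to_subtype
      rw [sInter_eq_iInter]
      apply IsCompact.nonempty_iInter_of_directed_nonempty_isCompact_isClosed
      · intro s t
        rcases hchain.total s.2 t.2 with h | h
        · exact ⟨s, Subset.rfl, h⟩
        · exact ⟨t, h, Subset.rfl⟩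
      · exact fun s => (hc s.2).ne
      · exact fun s => (hc s.2).compact
      · exact fun s => (hc s.2).cl
    exact { cl := isClosed_sInter fun s hs => (hc hs).cl
            oc := ordConnected_sInter fun s hs => (hc hs).oc
            ne := hnonempty
            sub := by
              obtain ⟨s, hs⟩ := hne
              exact (sInter_subset_of_mem hs).trans (hc hs).sub
            hf := fun x hx s hs => (hc hs).hf (hx s hs)
            hg := fun x hx s hs => (hc hs).hg (hx s hs) }) C hC
  refine ⟨D, { toInv := hmin.prop, min := fun E hE hED => ?_ }, hDC⟩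
  exact Subset.antisymm hED (hmin.le_of_le hE hED)

theorem minInv_Icc (S : Sys f g a b) (hno : NoCommon f g) {C : Set ℝ} (hC : MinInv f g a b C) :
    ∃ c d, c < d ∧ C = Icc c d ∧ f '' C = C ∧ g '' C = C := by
  have hI := eq_Icc hC.compact hC.oc hC.ne
  have h1 : sInf C ∈ C := hC.compact.sInf_mem hC.ne
  have h2 : sSup C ∈ C := hC.compact.sSup_mem hC.ne
  have hle : sInf C ≤ sSup C := csInf_le hC.compact.bddBelow h2
  have key : ∀ w : ℝ → ℝ, Continuous w → MapsTo w C C → (∀ x, f (w x) = w (f x)) →
      (∀ x, g (w x) = w (g x)) → w '' C = C := by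
    intro w cw hw c1 c2
    apply hC.min
    · exact { cl := (hC.compact.image cw).isClosed
              oc := isPreconnected_iff_ordConnected.1
                ((isPreconnected_iff_ordConnected.2 hC.oc).image w cw.continuousOn)
              ne := hC.ne.image _
              sub := (image_subset_iff.2 hw).trans hC.sub
              hf := by
                rintro _ ⟨x, hx, rfl⟩
                exact ⟨f x, hC.hf hx, (c1 x).symm⟩
              hg := by
                rintro _ ⟨x, hx, rfl⟩
                exact ⟨g x, hC.hg hx, (c2 x).symm⟩ }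
    · exact image_subset_iff.2 hw
  refine ⟨sInf C, sSup C, lt_of_le_of_ne hle ?_, hI, ?_, ?_⟩
  · intro heq
    have hI' : ∀ y ∈ C, y = sInf C := by
      intro y hy
      rw [hI, ← heq, Icc_self] at hy
      exact hy
    have e1 : f (sInf C) = sInf C := hI' _ (hC.hf h1)
    have e2 : g (sInf C) = sInf C := hI' _ (hC.hg h1)
    exact hno _ 1 1 one_pos one_pos e1 e2
  · exact key f S.cf hC.hf (fun _ => rfl) (fun x => (S.comm x).symm)
  · exact key g S.cg hC.hg S.comm (fun _ => rfl)

theorem inv_fix (S : Sys f g a b) {C : Set ℝ} (hC : Inv f g a b C) : ∃ x ∈ C, x ∈ K f g := by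
  have h1 : sInf C ∈ C := hC.compact.sInf_mem hC.ne
  have h2 : sSup C ∈ C := hC.compact.sSup_mem hC.ne
  have hle : sInf C ≤ sSup C := csInf_le hC.compact.bddBelow h2
  have hh : MapsTo (f ∘ g) C C := hC.hf.comp hC.hg
  have c : Continuous (fun x => f (g x) - x) := (S.cf.comp S.cg).sub continuous_id
  obtain ⟨x, hx, e⟩ := ivt_zero c hle
    (sub_nonneg.2 (csInf_le hC.compact.bddBelow (hh h1)))
    (sub_nonpos.2 (le_csSup hC.compact.bddAbove (hh h2)))
  exact ⟨x, hC.oc.out h1 h2 hx, sub_eq_zero.1 e⟩

theorem inv_inter {C D : Set ℝ} (hC : Inv f g a b C) (hD : Inv f g a b D)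
    (h : (C ∩ D).Nonempty) : Inv f g a b (C ∩ D) where
  cl := hC.cl.inter hD.cl
  oc := hC.oc.inter hD.oc
  ne := h
  sub := inter_subset_left.trans hC.sub
  hf := fun x hx => ⟨hC.hf hx.1, hD.hf hx.2⟩
  hg := fun x hx => ⟨hC.hg hx.1, hD.hg hx.2⟩

theorem inv_dis {C D : Set ℝ} (hC : MinInv f g a b C) (hD : Inv f g a b D)
    (h : (C ∩ D).Nonempty) : C ⊆ D := by
  have h1 := hC.min _ (inv_inter hC.toInv hD h) inter_subset_left
  rw [← h1]
  exact inter_subset_right

end Pool.Agent.MP4545.Ex
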