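import Mathlib

set_option autoImplicit false

/-!
MODULE Quot (medium, Mathlib only). An interval modulo a closed relation of smallness is an interval.
`s x y` (for `x ≤ y`) is read `the interval [x,y] is small`.

PROOF. For `x ∈ [c,d]` let `L x = sInf {t | c ≤ t ∧ t ≤ x ∧ s t x}`.
(0) Closedness: if `s t' y` for all `t' ∈ (t, y)` close to `t`, then `s t y`: otherwise `hopen` gives
`t < x' < y' < y` with `¬ s x' y'`, but `s t' y` with `t' < x'` gives `s x' y'` by `hmono`. In the same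
way for the right end point. So `s (L x) x`, `c ≤ L x ≤ x`.
(1) `L` is monotone: let `x ≤ y`; if `L y ≤ x` then `s (L y) x` by `hmono` and `L x ≤ L y`; if
`x < L y` then `L x ≤ x < L y`.
(2) for `c ≤ x ≤ y ≤ d`: `L x = L y ↔ s x y`. If `s x y` then `s (L x) y` by `htrans`, so `L y ≤ L x`.
If `L x = L y` then `L y ≤ x` and `s (L y) y` gives `s x y` by `hmono`. (3) `L (L x) = L x`, `L c = c`.
(4) If `c ≤ x < y ≤ d` and `¬ s x y` there is a rational `q ∈ (x,y)` with `¬ s x q`, `¬ s q y`, so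
`L x < L q < L y`. Let `r = sSup {t | x ≤ t ∧ t ≤ y ∧ s x t}`; `s x r` by (0). `r < L y`: if
`L y ≤ r` then `x ≤ L y` (otherwise `s x y` by `hmono`), `s x (L y)` by `hmono`, `s (L y) y`, so `s x y`.
Take a rational `q ∈ (r, L y)`.
(5) `D = {L q | q rational, c ≤ q ≤ d} \ {c, L d}`, a countable set of reals, all in `(c, L d)`. By (4)
it is nonempty, densely ordered, without least and greatest element (apply (4) to `(c, d)`,
`(L q, L q')`, `(c, L q)`, `(L q, d)`). `Order.iso_of_countable_dense` gives an order isomorphism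
`ι : D ≃o Ioo (0 : ℚ) 1`.
(6) For real `x` let `t = max c (min d x)` and `φ x = sSup ({0} ∪ {ι δ | δ ∈ D, δ ≤ L t})`. `φ` is
monotone, `0 ≤ φ ≤ 1`, `φ x = 0` for `x ≤ c` (no `δ ∈ D` is `≤ c`), `φ x = 1` for `x ≥ d` (all
`δ ∈ D` are `≤ L d`), `φ δ = ι δ` for `δ ∈ D` (`L δ = δ`). So the range of `φ`, as a map to
`Icc (0 : ℝ) 1`, is dense and `φ` is continuous (`Monotone.continuous_of_denseRange`).
(7) If `s x y` then `L x = L y` and `φ x = φ y`. If `¬ s x y` then (4), twice, gives `δ < δ'` in `D`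
with `L x < δ < δ' < L y`, so `φ x ≤ ι δ < ι δ' ≤ φ y`.
-/

namespace Pool.Agent.MP4545.Ex

open Set Function Filter Topology

/-- the left end point of the class of a point -/
private theorem qt_left {c d : ℝ} (s : ℝ → ℝ → Prop)
    (hrefl : ∀ x, c ≤ x → x ≤ d → s x x)
    (hmono : ∀ x x' y' y, c ≤ x → x ≤ x' → x' ≤ y' → y' ≤ y → y ≤ d → s x y → s x' y')
    (hopen : ∀ x y, c ≤ x → x < y → y ≤ d → ¬ s x y →
      ∃ x' y', x < x' ∧ x' < y' ∧ y' < y ∧ ¬ s x' y') :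
    ∃ L : ℝ → ℝ, ∀ x, c ≤ x → x ≤ d → c ≤ L x ∧ L x ≤ x ∧
      ∀ t, c ≤ t → t ≤ x → (s t x ↔ L x ≤ t) := by
  refine ⟨fun x => sInf {t | c ≤ t ∧ t ≤ x ∧ s t x}, fun x hcx hxd => ?_⟩
  obtain ⟨A, hA⟩ : ∃ A : Set ℝ, A = {t | c ≤ t ∧ t ≤ x ∧ s t x} := ⟨_, rfl⟩
  have hmem : ∀ t, t ∈ A ↔ c ≤ t ∧ t ≤ x ∧ s t x := fun t => by rw [hA]; rfl
  have hxA : x ∈ A := (hmem x).2 ⟨hcx, le_rfl, hrefl x hcx hxd⟩
  have hbdd : BddBelow A := ⟨c, fun t ht => ((hmem t).1 ht).1⟩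
  have h1 : c ≤ sInf A := le_csInf ⟨x, hxA⟩ (fun t ht => ((hmem t).1 ht).1)
  have h2 : sInf A ≤ x := csInf_le hbdd hxA
  simp only [← hA]
  have h3 : s (sInf A) x := by
    rcases h2.eq_or_lt with h | h
    · rw [h]
      exact hrefl x hcx hxd
    · by_contra hn
      obtain ⟨x', y', h4, h5, h6, h7⟩ := hopen _ _ h1 h hxd hn
      obtain ⟨t, ht, htx⟩ := exists_lt_of_csInf_lt ⟨x, hxA⟩ h4
      obtain ⟨h8, h9, h10⟩ := (hmem t).1 ht
      exact h7 (hmono t x' y' x h8 htx.le h5.le h6.le hxd h10)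
  refine ⟨h1, h2, fun t hct htx => ⟨fun h => csInf_le hbdd ((hmem t).2 ⟨hct, htx, h⟩), fun h => ?_⟩⟩
  exact hmono (sInf A) t x x h1 h htx le_rfl hxd h3

theorem exists_quot {c d : ℝ} (hcd : c < d) (s : ℝ → ℝ → Prop)
    (hrefl : ∀ x, c ≤ x → x ≤ d → s x x)
    (hmono : ∀ x x' y' y, c ≤ x → x ≤ x' → x' ≤ y' → y' ≤ y → y ≤ d → s x y → s x' y')
    (htrans : ∀ x y z, c ≤ x → x ≤ y → y ≤ z → z ≤ d → s x y → s y z → s x z)
    (hopen : ∀ x y, c ≤ x → x < y → y ≤ d → ¬ s x y →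
      ∃ x' y', x < x' ∧ x' < y' ∧ y' < y ∧ ¬ s x' y')
    (htop : ¬ s c d) :
    ∃ φ : ℝ → ℝ, Continuous φ ∧ Monotone φ ∧ (∀ t, t ≤ c → φ t = 0) ∧ (∀ t, d ≤ t → φ t = 1) ∧
      ∀ x y, c ≤ x → x ≤ y → y ≤ d → (φ x = φ y ↔ s x y) := by
  obtain ⟨L, hL⟩ := qt_left s hrefl hmono hopen
  have hLs : ∀ x, c ≤ x → x ≤ d → s (L x) x := fun x h1 h2 =>
    ((hL x h1 h2).2.2 (L x) (hL x h1 h2).1 (hL x h1 h2).2.1).2 le_rfl
  -- monotone
  have hLm : ∀ x y, c ≤ x → x ≤ y → y ≤ d → L x ≤ L y := by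
    intro x y h1 h2 h3
    obtain ⟨a1, a2, a3⟩ := hL x h1 (h2.trans h3)
    obtain ⟨b1, b2, b3⟩ := hL y (h1.trans h2) h3
    rcases le_or_gt (L y) x with h | h
    · exact (a3 (L y) b1 h).1 (hmono (L y) (L y) x y b1 le_rfl h h2 h3 (hLs y (h1.trans h2) h3))
    · exact a2.trans h.le
  have hLe : ∀ x y, c ≤ x → x ≤ y → y ≤ d → (L x = L y ↔ s x y) := by
    intro x y h1 h2 h3
    obtain ⟨a1, a2, a3⟩ := hL x h1 (h2.trans h3)
    obtain ⟨b1, b2, b3⟩ := hL y (h1.trans h2) h3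
    constructor
    · intro h
      exact (b3 x h1 h2).2 (by rw [← h]; exact a2)
    · intro h
      apply le_antisymm (hLm x y h1 h2 h3)
      exact (b3 (L x) a1 (a2.trans h2)).1 (htrans (L x) x y a1 a2 h2 h3 (hLs x h1 (h2.trans h3)) h)
  have hLL : ∀ x, c ≤ x → x ≤ d → L (L x) = L x := by
    intro x h1 h2
    obtain ⟨a1, a2, a3⟩ := hL x h1 h2
    exact (hLe (L x) x a1 a2 h2).2 (hLs x h1 h2)
  have hLc : L c = c := by
    obtain ⟨a1, a2, a3⟩ := hL c le_rfl hcd.le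
    exact le_antisymm a2 a1
  -- density
  have hden : ∀ x y, c ≤ x → x < y → y ≤ d → L x < L y →
      ∃ q : ℚ, c ≤ q ∧ (q : ℝ) ≤ d ∧ L x < L q ∧ L q < L y := by
    intro x y h1 h2 h3 h4
    obtain ⟨a1, a2, a3⟩ := hL x h1 (h2.le.trans h3)
    obtain ⟨b1, b2, b3⟩ := hL y (h1.trans h2.le) h3
    have hns : ¬ s x y := fun h => h4.ne ((hLe x y h1 h2.le h3).2 h)
    have hxL : x < L y := by
      by_contra h
      rw [not_lt] at h
      exact hns ((b3 x h1 h2.le).2 h)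
    obtain ⟨z, hz1, hz2, hz3⟩ : ∃ z, x < z ∧ z < L y ∧ ¬ s x z := by
      by_contra hno
      push Not at hno
      have h5 : s x (L y) := by
        by_contra h6
        obtain ⟨x', y', e1, e2, e3, e4⟩ := hopen x (L y) h1 hxL (b2.trans h3) h6
        obtain ⟨z, hz1, hz2⟩ := exists_between e3
        exact e4 (hmono x x' y' z h1 e1.le e2.le hz1.le (hz2.le.trans (b2.trans h3))
          (hno z ((e1.trans e2).trans hz1) hz2))
      exact hns (htrans x (L y) y h1 hxL.le b2 h3 h5 (hLs y (h1.trans h2.le) h3))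
    obtain ⟨q, hq1, hq2⟩ := exists_rat_btwn hz2
    have hcq : c ≤ (q : ℝ) := h1.trans (hz1.le.trans hq1.le)
    have hqy : (q : ℝ) ≤ y := hq2.le.trans b2
    refine ⟨q, hcq, hqy.trans h3, ?_, ?_⟩
    · apply lt_of_le_of_ne (hLm x q h1 (hz1.le.trans hq1.le) (hqy.trans h3))
      intro h
      apply hz3
      exact hmono x x z q h1 le_rfl hz1.le hq1.le (hqy.trans h3)
        ((hLe x q h1 (hz1.le.trans hq1.le) (hqy.trans h3)).1 h)
    · apply lt_of_le_of_ne (hLm q y hcq hqy h3)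
      intro h
      have h5 := (hLe q y hcq hqy h3).1 h
      have h6 := (b3 q hcq hqy).1 h5
      linarith
  have hLd : c < L d := by
    obtain ⟨b1, b2, b3⟩ := hL d hcd.le le_rfl
    by_contra h
    rw [not_lt] at h
    exact htop ((b3 c le_rfl hcd.le).2 h)
  have hLdd : L d ≤ d := (hL d hcd.le le_rfl).2.1
  -- the countable set
  obtain ⟨D, hD⟩ : ∃ D : Set ℝ, D = {δ | (∃ q : ℚ, c ≤ q ∧ (q : ℝ) ≤ d ∧ L q = δ) ∧ c < δ ∧ δ < L d} :=
    ⟨_, rfl⟩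
  have hDm : ∀ δ, δ ∈ D ↔ (∃ q : ℚ, c ≤ q ∧ (q : ℝ) ≤ d ∧ L q = δ) ∧ c < δ ∧ δ < L d :=
    fun δ => by rw [hD]; rfl
  have hDc : D.Countable := by
    apply (Set.countable_range (fun q : ℚ => L q)).mono
    intro δ hδ
    obtain ⟨⟨q, -, -, h⟩, -⟩ := (hDm δ).1 hδ
    exact ⟨q, h⟩
  have hDL : ∀ δ ∈ D, L δ = δ := by
    intro δ hδ
    obtain ⟨⟨q, h1, h2, h3⟩, -⟩ := (hDm δ).1 hδ
    rw [← h3]
    exact hLL q h1 h2
  have hDcd : ∀ δ ∈ D, c < δ ∧ δ < L d ∧ δ ≤ d := by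
    intro δ hδ
    obtain ⟨-, h1, h2⟩ := (hDm δ).1 hδ
    exact ⟨h1, h2, h2.le.trans hLdd⟩
  have hDden : ∀ x y, c ≤ x → x < y → y ≤ d → L x < L y → ∃ δ ∈ D, L x < δ ∧ δ < L y := by
    intro x y h1 h2 h3 h4
    obtain ⟨q, h5, h6, h7, h8⟩ := hden x y h1 h2 h3 h4
    refine ⟨L q, (hDm _).2 ⟨⟨q, h5, h6, rfl⟩, ?_, ?_⟩, h7, h8⟩
    · exact lt_of_le_of_lt (hL x h1 (h2.le.trans h3)).1 h7
    · exact lt_of_lt_of_le h8 (hLm y d (h1.trans h2.le) h3 le_rfl)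
  have i1 : Countable D := hDc.to_subtype
  have i2 : DenselyOrdered D := by
    constructor
    rintro ⟨x, hx⟩ ⟨y, hy⟩ hxy
    have hxy' : x < y := hxy
    obtain ⟨h1, h2, h3⟩ := hDcd x hx
    obtain ⟨h4, h5, h6⟩ := hDcd y hy
    obtain ⟨δ, hδ, e1, e2⟩ := hDden x y h1.le hxy' h6 (by rw [hDL x hx, hDL y hy]; exact hxy')
    rw [hDL x hx] at e1
    rw [hDL y hy] at e2
    exact ⟨⟨δ, hδ⟩, e1, e2⟩
  have i3 : NoMinOrder D := by
    constructor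
    rintro ⟨x, hx⟩
    obtain ⟨h1, h2, h3⟩ := hDcd x hx
    obtain ⟨δ, hδ, e1, e2⟩ := hDden c x le_rfl h1 h3 (by rw [hDL x hx, hLc]; exact h1)
    rw [hDL x hx] at e2
    exact ⟨⟨δ, hδ⟩, e2⟩
  have i4 : NoMaxOrder D := by
    constructor
    rintro ⟨x, hx⟩
    obtain ⟨h1, h2, h3⟩ := hDcd x hx
    obtain ⟨δ, hδ, e1, e2⟩ := hDden x d h1.le (h2.trans_le hLdd) le_rfl
      (by rw [hDL x hx]; exact h2)
    rw [hDL x hx] at e1
    exact ⟨⟨δ, hδ⟩, e1⟩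
  have i5 : Nonempty D := by
    obtain ⟨δ, hδ, e1, e2⟩ := hDden c d le_rfl hcd le_rfl (by rw [hLc]; exact hLd)
    exact ⟨⟨δ, hδ⟩⟩
  have i6 : Nonempty (Ioo (0 : ℚ) 1) := ⟨⟨1 / 2, by norm_num, by norm_num⟩⟩
  obtain ⟨ι⟩ := Order.iso_of_countable_dense D (Ioo (0 : ℚ) 1)
  have hι0 : ∀ δ : D, (0 : ℝ) < ((ι δ : ℚ) : ℝ) := fun δ => by exact_mod_cast (ι δ).2.1
  have hι1 : ∀ δ : D, ((ι δ : ℚ) : ℝ) < 1 := fun δ => by exact_mod_cast (ι δ).2.2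
  have hιm : ∀ δ δ' : D, (δ : ℝ) ≤ δ' → ((ι δ : ℚ) : ℝ) ≤ ((ι δ' : ℚ) : ℝ) := by
    intro δ δ' h
    have h1 : ι δ ≤ ι δ' := ι.monotone h
    exact_mod_cast h1
  have hιs : ∀ δ δ' : D, (δ : ℝ) < δ' → ((ι δ : ℚ) : ℝ) < ((ι δ' : ℚ) : ℝ) := by
    intro δ δ' h
    have h1 : ι δ < ι δ' := ι.strictMono h
    exact_mod_cast h1
  -- the map
  obtain ⟨A, hA⟩ : ∃ A : ℝ → Set ℝ, ∀ z r, r ∈ A z ↔
      (r = 0 ∨ ∃ δ : D, (δ : ℝ) ≤ z ∧ r = ((ι δ : ℚ) : ℝ)) :=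
    ⟨fun z => {r | r = 0 ∨ ∃ δ : D, (δ : ℝ) ≤ z ∧ r = ((ι δ : ℚ) : ℝ)}, fun _ _ => Iff.rfl⟩
  have hAb : ∀ z, ∀ r ∈ A z, r ≤ 1 := by
    intro z r hr
    rcases (hA z r).1 hr with h | ⟨δ, -, h⟩
    · rw [h]
      exact zero_le_one
    · rw [h]
      exact (hι1 δ).le
  have hAbd : ∀ z, BddAbove (A z) := fun z => ⟨1, hAb z⟩
  have hA0 : ∀ z, (0 : ℝ) ∈ A z := fun z => (hA z 0).2 (Or.inl rfl)
  have hAne : ∀ z, (A z).Nonempty := fun z => ⟨0, hA0 z⟩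
  obtain ⟨ψ, hψ⟩ : ∃ ψ : ℝ → ℝ, ∀ z, ψ z = sSup (A z) := ⟨_, fun _ => rfl⟩
  have hψm : Monotone ψ := by
    intro z z' hz
    rw [hψ, hψ]
    apply csSup_le_csSup (hAbd z') (hAne z)
    intro r hr
    rcases (hA z r).1 hr with h | ⟨δ, h1, h⟩
    · exact (hA z' r).2 (Or.inl h)
    · exact (hA z' r).2 (Or.inr ⟨δ, h1.trans hz, h⟩)
  have hψ0 : ∀ z, 0 ≤ ψ z := fun z => by rw [hψ]; exact le_csSup (hAbd z) (hA0 z)
  have hψ1 : ∀ z, ψ z ≤ 1 := fun z => by rw [hψ]; exact csSup_le (hAne z) (hAb z)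
  have hψle : ∀ (z : ℝ) (δ : D), z ≤ (δ : ℝ) → ψ z ≤ ((ι δ : ℚ) : ℝ) := by
    intro z δ hz
    rw [hψ]
    apply csSup_le (hAne z)
    intro r hr
    rcases (hA z r).1 hr with h | ⟨δ', h1, h⟩
    · rw [h]
      exact (hι0 δ).le
    · rw [h]
      exact hιm δ' δ (h1.trans hz)
  have hψge : ∀ (z : ℝ) (δ : D), (δ : ℝ) ≤ z → ((ι δ : ℚ) : ℝ) ≤ ψ z := by
    intro z δ hz
    rw [hψ]
    exact le_csSup (hAbd z) ((hA z _).2 (Or.inr ⟨δ, hz, rfl⟩))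
  have hψδ : ∀ δ : D, ψ δ = ((ι δ : ℚ) : ℝ) := fun δ =>
    le_antisymm (hψle _ δ le_rfl) (hψge _ δ le_rfl)
  have hψc : ψ c = 0 := by
    apply le_antisymm _ (hψ0 c)
    rw [hψ]
    apply csSup_le (hAne c)
    intro r hr
    rcases (hA c r).1 hr with h | ⟨δ, h1, h⟩
    · rw [h]
    · exact absurd h1 (not_le.2 (hDcd δ δ.2).1)
  have hψd : ψ (L d) = 1 := by
    apply le_antisymm (hψ1 _)
    by_contra hlt
    rw [not_le] at hlt
    obtain ⟨q, hq1, hq2⟩ := exists_rat_btwn (max_lt hlt one_pos)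
    have hq0 : (0 : ℝ) < q := (le_max_right _ _).trans_lt hq1
    have hqI : q ∈ Ioo (0 : ℚ) 1 := ⟨by exact_mod_cast hq0, by exact_mod_cast hq2⟩
    have h1 := hψge (L d) (ι.symm ⟨q, hqI⟩) (hDcd _ (ι.symm ⟨q, hqI⟩).2).2.1.le
    rw [OrderIso.apply_symm_apply] at h1
    have h2 := (le_max_left (ψ (L d)) 0).trans_lt hq1
    have h3 : ((q : ℚ) : ℝ) ≤ ψ (L d) := h1
    linarith
  -- the clamp
  obtain ⟨T, hT⟩ : ∃ T : ℝ → ℝ, ∀ x, T x = max c (min d x) := ⟨_, fun _ => rfl⟩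
  have hTc : ∀ x, c ≤ T x := fun x => by rw [hT]; exact le_max_left _ _
  have hTd : ∀ x, T x ≤ d := fun x => by
    rw [hT]
    exact max_le hcd.le (min_le_left _ _)
  have hTm : Monotone T := by
    intro x y hxy
    rw [hT, hT]
    exact max_le_max le_rfl (min_le_min le_rfl hxy)
  have hTx : ∀ x, c ≤ x → x ≤ d → T x = x := by
    intro x h1 h2
    rw [hT, min_eq_right h2, max_eq_right h1]
  have hm : Monotone fun x => ψ (L (T x)) := fun x y hxy =>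
    hψm (hLm _ _ (hTc x) (hTm hxy) (hTd y))
  refine ⟨fun x => ψ (L (T x)), ?_, hm, ?_, ?_, ?_⟩
  · -- continuity
    obtain ⟨Φ, hΦ⟩ : ∃ Φ : ℝ → Icc (0 : ℝ) 1, ∀ x, ((Φ x : Icc (0 : ℝ) 1) : ℝ) = ψ (L (T x)) :=
      ⟨fun x => ⟨ψ (L (T x)), hψ0 _, hψ1 _⟩, fun _ => rfl⟩
    have hΦm : Monotone Φ := by
      intro x y hxy
      rw [← Subtype.coe_le_coe, hΦ, hΦ]
      exact hm hxy
    have hΦd : DenseRange Φ := by
      apply dense_of_exists_between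
      intro a b hab
      have hab' : (a : ℝ) < b := hab
      obtain ⟨q, hq1, hq2⟩ := exists_rat_btwn hab'
      have hq0 : (0 : ℝ) < q := lt_of_le_of_lt a.2.1 hq1
      have hq1' : (q : ℝ) < 1 := lt_of_lt_of_le hq2 b.2.2
      have hqI : q ∈ Ioo (0 : ℚ) 1 := ⟨by exact_mod_cast hq0, by exact_mod_cast hq1'⟩
      obtain ⟨δ, hδ⟩ : ∃ δ : D, ι δ = ⟨q, hqI⟩ := ⟨ι.symm ⟨q, hqI⟩, ι.apply_symm_apply _⟩
      have h1 : ((Φ δ : Icc (0 : ℝ) 1) : ℝ) = q := by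
        rw [hΦ, hTx δ (hDcd δ δ.2).1.le (hDcd δ δ.2).2.2, hDL δ δ.2, hψδ, hδ]
      refine ⟨Φ δ, ⟨_, rfl⟩, ?_, ?_⟩
      · rw [← Subtype.coe_lt_coe, h1]
        exact hq1
      · rw [← Subtype.coe_lt_coe, h1]
        exact hq2
    have hΦc : Continuous Φ := hΦm.continuous_of_denseRange hΦd
    have e : (fun x => ψ (L (T x))) = fun x => ((Φ x : Icc (0 : ℝ) 1) : ℝ) := by
      funext x
      exact (hΦ x).symm
    rw [e]
    exact continuous_subtype_val.comp hΦc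
  · intro t ht
    have e : T t = c := by
      rw [hT, min_eq_right (ht.trans hcd.le), max_eq_left ht]
    simp only [e, hLc, hψc]
  · intro t ht
    have e : T t = d := by
      rw [hT, min_eq_left ht, max_eq_right hcd.le]
    simp only [e, hψd]
  · intro x y h1 h2 h3
    simp only [hTx x h1 (h2.trans h3), hTx y (h1.trans h2) h3]
    constructor
    · intro h
      by_contra hn
      have hxy : x < y := by
        rcases h2.eq_or_lt with h4 | h4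
        · exact absurd (by rw [← h4]; exact hrefl x h1 (h2.trans h3)) hn
        · exact h4
      have hLxy : L x < L y :=
        lt_of_le_of_ne (hLm x y h1 h2 h3) fun h4 => hn ((hLe x y h1 h2 h3).1 h4)
      obtain ⟨δ, hδ, e1, e2⟩ := hDden x y h1 hxy h3 hLxy
      obtain ⟨g1, g2, g3⟩ := hDcd δ hδ
      have hδy : δ < y := e2.trans_le (hL y (h1.trans h2) h3).2.1
      obtain ⟨δ', hδ', e3, e4⟩ := hDden δ y g1.le hδy h3 (by rw [hDL δ hδ]; exact e2)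
      rw [hDL δ hδ] at e3
      have k1 := hψle (L x) ⟨δ, hδ⟩ e1.le
      have k2 := hψge (L y) ⟨δ', hδ'⟩ e4.le
      have k3 := hιs ⟨δ, hδ⟩ ⟨δ', hδ'⟩ e3
      linarith
    · intro h
      rw [(hLe x y h1 h2 h3).2 h]

end Pool.Agent.MP4545.Ex
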