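import Pool.Agent.Work.MP_4545a8_an.Ex.BigL
import Pool.Agent.Work.MP_4545a8_an.Ex.Quot
import Pool.Agent.Work.MP_4545a8_an.Ex.Desc

set_option autoImplicit false

/-!
MODULE FacEx (medium). The factor obtained by collapsing the intervals that are not big
(structure `Fac` in Defs).

PROOF of `exists_fac`: apply `exists_quot` with `s u v := ¬ Big f g x (Icc u v)`: `hrefl` is
`not_big_single`, `hmono` is `big_mono`, `htrans` is `big_union` (`Icc u v ∪ Icc v w = Icc u w`),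
`hopen` is `big_open`, `htop` is `big_Icc`. Then `exists_desc` for `f` and `g`: if `φ s = φ t`,
`s ≤ t`, then `Icc s t` is not big, so `f '' Icc s t` is not big (`big_f`); it contains
`uIcc (f s) (f t)`, so that interval is not big and `φ (f s) = φ (f t)`. `f` maps `Icc c d` to
itself (`hC.ff`). `F (G u) = G (F u)`: for `u = φ t`, `t ∈ [c,d]`, both are `φ (f (g t))`; for `u ≤ 0`
use `u = 0` and for `u ≥ 1` use `u = 1` (last clauses of `exists_desc`).
PROOF of `fac_onto`: intermediate value theorem. `fac_val`: monotone. `fac_fn`, `fac_gn`, `fac_hn`: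
induction (the iterates of `t` stay in `Icc c d`).
-/

namespace Pool.Agent.MP4545.Ex

open Set Function Filter Topology
open Pool.Agent.MP4545

variable {f g F G φ : ℝ → ℝ} {a b x c d : ℝ}

theorem exists_fac (S : Sys f g a b) (hno : NoCommon f g) (hC : Core f g a b x c d) :
    ∃ F G φ : ℝ → ℝ, Fac f g x c d F G φ := by
  obtain ⟨φ, cφ, mφ, φ0, φ1, hker⟩ := exists_quot hC.lt (fun u v => ¬ Big f g x (Icc u v))
    (fun u _ _ => not_big_single u)
    (fun u u' v' v _ h1 _ h3 _ hs hb => hs (big_mono (Icc_subset_Icc h1 h3) hb))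
    (fun u v w _ h1 h2 _ hs1 hs2 hb => by
      rw [← Icc_union_Icc_eq_Icc h1 h2] at hb
      rcases big_union S hno hC (by rw [Icc_union_Icc_eq_Icc h1 h2]; exact ordConnected_Icc) hb
        with h | h
      · exact hs1 h
      · exact hs2 h)
    (fun u v _ huv _ hs => by
      rw [not_not] at hs
      obtain ⟨u', v', h1, h2, h3, h4⟩ := big_open S hno hC huv hs
      exact ⟨u', v', h1, h2, h3, not_not.2 h4⟩)
    (not_not.2 (big_Icc S hno hC))
  have hcd : c < d := hC.lt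
  have key : ∀ w : ℝ → ℝ, Continuous w → MapsTo w (Icc c d) (Icc c d) →
      (∀ J, Big f g x (w '' J) ↔ Big f g x J) →
      ∀ s ∈ Icc c d, ∀ t ∈ Icc c d, φ s = φ t → φ (w s) = φ (w t) := by
    intro w cw wI wB
    have h1 : ∀ s ∈ Icc c d, ∀ t ∈ Icc c d, s ≤ t → φ s = φ t → φ (w s) = φ (w t) := by
      intro s hs t ht hst hφ
      have h2 := (hker s t hs.1 hst ht.2).1 hφ
      have h3 : ¬ Big f g x (w '' Icc s t) := fun h => h2 ((wB _).1 h)
      have h4 : OrdConnected (w '' Icc s t) := isPreconnected_iff_ordConnected.1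
        ((isPreconnected_iff_ordConnected.2 ordConnected_Icc).image w cw.continuousOn)
      have h5 : uIcc (w s) (w t) ⊆ w '' Icc s t :=
        h4.uIcc_subset (mem_image_of_mem _ ⟨le_rfl, hst⟩) (mem_image_of_mem _ ⟨hst, le_rfl⟩)
      have h6 : ¬ Big f g x (uIcc (w s) (w t)) := fun h => h3 (big_mono h5 h)
      rcases le_total (w s) (w t) with h | h
      · rw [uIcc_of_le h] at h6
        exact (hker _ _ (wI hs).1 h (wI ht).2).2 h6
      · rw [uIcc_of_ge h] at h6
        exact ((hker _ _ (wI ht).1 h (wI hs).2).2 h6).symm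
    intro s hs t ht hφ
    rcases le_total s t with h | h
    · exact h1 s hs t ht h hφ
    · exact (h1 t ht s hs h hφ.symm).symm
  obtain ⟨F, cF, rF, hF, F0, F1⟩ := exists_desc hcd cφ mφ (φ0 c le_rfl) (φ1 d le_rfl) S.cf
    (core_f hC) (key f S.cf (core_f hC) fun J => big_f S hC)
  obtain ⟨G, cG, rG, hG, G0, G1⟩ := exists_desc hcd cφ mφ (φ0 c le_rfl) (φ1 d le_rfl) S.cg
    (core_g hC) (key g S.cg (core_g hC) fun J => big_g S hC)
  have hcomm : ∀ u ∈ Icc (0 : ℝ) 1, F (G u) = G (F u) := by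
    intro u hu
    have := intermediate_value_Icc hcd.le cφ.continuousOn
    rw [φ0 c le_rfl, φ1 d le_rfl] at this
    obtain ⟨t, ht, rfl⟩ := this hu
    rw [hG t ht, hF t ht, hF _ (core_g hC ht), hG _ (core_f hC ht), S.comm]
  refine ⟨F, G, φ, ⟨cF, cG, ?_, rF, rG⟩, cφ, mφ, φ0 c le_rfl, φ1 d le_rfl, hF, hG, hker⟩
  intro u
  rcases le_total u 0 with h | h
  · rw [G0 u h, F0 u h]
    exact hcomm 0 ⟨le_rfl, zero_le_one⟩
  · rcases le_total u 1 with h' | h'
    · exact hcomm u ⟨h, h'⟩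
    · rw [G1 u h', F1 u h']
      exact hcomm 1 ⟨zero_le_one, le_rfl⟩

lemma fac_onto (hC : Core f g a b x c d) (H : Fac f g x c d F G φ) {u : ℝ}
    (hu : u ∈ Icc (0 : ℝ) 1) : ∃ t ∈ Icc c d, φ t = u := by
  have := intermediate_value_Icc hC.lt.le H.cφ.continuousOn
  rw [H.left, H.right] at this
  obtain ⟨t, ht, e⟩ := this hu
  exact ⟨t, ht, e⟩

lemma fac_val (H : Fac f g x c d F G φ) {t : ℝ} (ht : t ∈ Icc c d) : φ t ∈ Icc (0 : ℝ) 1 :=
  ⟨by rw [← H.left]; exact H.mono ht.1, by rw [← H.right]; exact H.mono ht.2⟩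

lemma fac_fn (hC : Core f g a b x c d) (H : Fac f g x c d F G φ) {t : ℝ} (ht : t ∈ Icc c d)
    (n : ℕ) : F^[n] (φ t) = φ (f^[n] t) ∧ f^[n] t ∈ Icc c d := by
  induction n with
  | zero => exact ⟨rfl, ht⟩
  | succ n ih =>
    rw [iterate_succ_apply', iterate_succ_apply', ih.1]
    exact ⟨H.fφ _ ih.2, core_f hC ih.2⟩

lemma fac_gn (hC : Core f g a b x c d) (H : Fac f g x c d F G φ) {t : ℝ} (ht : t ∈ Icc c d)
    (n : ℕ) : G^[n] (φ t) = φ (g^[n] t) ∧ g^[n] t ∈ Icc c d := by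
  induction n with
  | zero => exact ⟨rfl, ht⟩
  | succ n ih =>
    rw [iterate_succ_apply', iterate_succ_apply', ih.1]
    exact ⟨H.gφ _ ih.2, core_g hC ih.2⟩

lemma fac_hn (hC : Core f g a b x c d) (H : Fac f g x c d F G φ) {t : ℝ} (ht : t ∈ Icc c d)
    (n : ℕ) : (F ∘ G)^[n] (φ t) = φ ((f ∘ g)^[n] t) ∧ (f ∘ g)^[n] t ∈ Icc c d := by
  induction n with
  | zero => exact ⟨rfl, ht⟩
  | succ n ih =>
    rw [iterate_succ_apply', iterate_succ_apply', ih.1]
    refine ⟨?_, core_f hC (core_g hC ih.2)⟩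
    show F (G (φ _)) = φ (f (g _))
    rw [H.gφ _ ih.2, H.fφ _ (core_g hC ih.2)]

end Pool.Agent.MP4545.Ex
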