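import Pool.Agent.Work.MP_4545a8_an.Ex.Fthm
import Pool.Agent.Work.MP_4545a8_an.NonCross

set_option autoImplicit false

/-!
MODULE Fkl (small). All periodic points of `f^k ∘ g^l`, `k, l ≥ 1`, lie in every invariant interval.

PROOF. Put `G' = f^(k*n-1) ∘ g^(l*n)`. File NonCross.lean: `sys_word`, `noCommon_word` (its
hypothesis follows from `hno`), `word_comp`: `f ∘ G' = f^(k*n) ∘ g^(l*n) = (f^k ∘ g^l)^n`
(`Function.Commute.comp_iterate`, `iterate_mul`), so `z ∈ K f G'`. `B` is `Inv f G' a b`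
(`MapsTo.iterate`, `MapsTo.comp`). Apply `K_sub` to `(f, G')`.
-/

namespace Pool.Agent.MP4545.Ex

open Set Function Filter Topology
open Pool.Agent.MP4545

variable {f g : ℝ → ℝ} {a b : ℝ}

lemma noCommon_pts (hno : NoCommon f g) : ∀ x ∈ Icc a b, x ∉ periodicPts f ∩ periodicPts g := by
  rintro x - ⟨⟨n, hn, h1⟩, ⟨m, hm, h2⟩⟩
  exact hno x n m hn hm h1 h2

theorem word_sub (S : Sys f g a b) (hno : NoCommon f g) {B : Set ℝ} (hB : Inv f g a b B)
    {k l n : ℕ} (hk : 0 < k) (hl : 0 < l) (hn : 0 < n) {z : ℝ}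
    (hz : (f^[k] ∘ g^[l])^[n] z = z) : z ∈ B := by
  have hkn : 0 < k * n := Nat.mul_pos hk hn
  have hln : 0 < l * n := Nat.mul_pos hl hn
  have S' := sys_word S (k * n - 1) hln
  have hno' := noCommon_word S (k * n - 1) hln (noCommon_pts (a := a) (b := b) hno)
  have hB' : Inv f (f^[k * n - 1] ∘ g^[l * n]) a b B :=
    ⟨hB.cl, hB.oc, hB.ne, hB.sub, hB.hf, (hB.hf.iterate _).comp (hB.hg.iterate _)⟩
  apply K_sub S' hno' hB'
  have hc : Function.Commute f g := S.comm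
  have h1 : f ∘ (f^[k * n - 1] ∘ g^[l * n]) = (f^[k] ∘ g^[l])^[n] := by
    rw [word_comp, show k * n - 1 + 1 = k * n by omega, (hc.iterate_iterate k l).comp_iterate,
      ← iterate_mul, ← iterate_mul]
  show (f ∘ (f^[k * n - 1] ∘ g^[l * n])) z = z
  rw [h1]
  exact hz

end Pool.Agent.MP4545.Ex
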