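import Pool.Agent.Work.MP_4545a8_an.Ex.HullIt

set_option autoImplicit false

/-!
MODULE TwoSides (small). If the intersection `D` of the hulls `A i = Hull (f^i x) (f^(i+m) x)` is
nonempty and contains no point `f^n x`, then some progression `f^(i+m*k) x` is to the right of `D`
and some progression is to the left of `D`.

PROOF. `A (i+m) = A i` (`hull_add`), each `A i` is compact (`hull_compact`) and order connected. Let
`i1 < m` be an index with the greatest `l = sInf (A i1)`. For every `i`, `A i` and `A i1` have a common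
point (a point of `D`), it is `≥ l`, and `sInf (A i) ≤ l`: so `l ∈ A i`. So `l ∈ D`, and as
`D ⊆ A i1`, `l` is the least element of `D`. For all `k`, `f^(i1+m*k) x ∈ A (i1+m*k) = A i1`
(`left_mem_hull`), so it is `≥ l`; it is not in `D`, and `D` is order connected and contains `l` and
`sSup D` (`D` is compact), so it is `> sSup D`. The second claim is symmetric (index with the least
`sSup (A i)`).
-/

namespace Pool.Agent.MP4545.Ex

open Set Function Filter Topology
open Pool.Agent.MP4545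

variable {f g : ℝ → ℝ} {a b : ℝ}

lemma hull_mul (S : Sys f g a b) (hno : NoCommon f g) {x : ℝ} (hx : x ∈ K f g) {m : ℕ}
    (hm : 0 < m) (i k : ℕ) : Hull (f ∘ g) (f^[i + m * k] x) (f^[i + m * k + m] x) =
      Hull (f ∘ g) (f^[i] x) (f^[i + m] x) := by
  induction k with
  | zero => rfl
  | succ k ih =>
    rw [← ih, show i + m * (k + 1) = i + m * k + m by ring]
    exact hull_add S hno hx hm _

lemma hull_mod (S : Sys f g a b) (hno : NoCommon f g) {x : ℝ} (hx : x ∈ K f g) {m : ℕ}
    (hm : 0 < m) (i : ℕ) : Hull (f ∘ g) (f^[i] x) (f^[i + m] x) =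
      Hull (f ∘ g) (f^[i % m] x) (f^[i % m + m] x) := by
  conv_lhs => rw [← Nat.mod_add_div i m]
  exact hull_mul S hno hx hm _ _

theorem two_sides (S : Sys f g a b) (hno : NoCommon f g) {x : ℝ} (hx : x ∈ K f g) {m : ℕ}
    (hm : 0 < m) (hne : (⋂ i : ℕ, Hull (f ∘ g) (f^[i] x) (f^[i + m] x)).Nonempty)
    (hout : ∀ n, f^[n] x ∉ ⋂ i : ℕ, Hull (f ∘ g) (f^[i] x) (f^[i + m] x)) :
    (∃ i, ∀ k, sSup (⋂ i : ℕ, Hull (f ∘ g) (f^[i] x) (f^[i + m] x)) < f^[i + m * k] x) ∧
    (∃ i, ∀ k, f^[i + m * k] x < sInf (⋂ i : ℕ, Hull (f ∘ g) (f^[i] x) (f^[i + m] x))) := by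
  set A : ℕ → Set ℝ := fun i => Hull (f ∘ g) (f^[i] x) (f^[i + m] x) with hA
  set D : Set ℝ := ⋂ i : ℕ, Hull (f ∘ g) (f^[i] x) (f^[i + m] x) with hD
  have hAc : ∀ i, IsCompact (A i) := fun i => hull_compact S (K_fn S hx _) (K_fn S hx _)
  have hAo : ∀ i, OrdConnected (A i) := fun i => hull_ord _ _ _
  have hAn : ∀ i, (A i).Nonempty := fun i => ⟨_, left_mem_hull _ _ _⟩
  have hDA : ∀ i, D ⊆ A i := fun i => iInter_subset _ i
  have hDc : IsCompact D := (hAc 0).of_isClosed_subset
    (isClosed_iInter fun i => hull_closed _ _ _) (hDA 0)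
  have hDo : OrdConnected D := ordConnected_iInter fun i => hAo i
  obtain ⟨w, hw⟩ := hne
  have hAmod : ∀ i, A i = A (i % m) := fun i => hull_mod S hno hx hm i
  have hAmul : ∀ i k, A (i + m * k) = A i := fun i k => hull_mul S hno hx hm i k
  constructor
  · -- index with the greatest `sInf`
    obtain ⟨i1, -, hi1⟩ := Finset.exists_max_image (Finset.range m) (fun i => sInf (A i))
      ⟨0, Finset.mem_range.2 hm⟩
    have hl : sInf (A i1) ∈ D := by
      refine mem_iInter.2 fun i => ?_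
      have h1 : sInf (A i) ≤ sInf (A i1) := by
        rw [hAmod i]
        exact hi1 _ (Finset.mem_range.2 (Nat.mod_lt _ hm))
      have h2 : sInf (A i1) ≤ w := csInf_le (hAc i1).bddBelow (hDA i1 hw)
      exact (hAo i).out ((hAc i).sInf_mem (hAn i)) (hDA i hw) ⟨h1, h2⟩
    refine ⟨i1, fun k => ?_⟩
    by_contra hcon
    push Not at hcon
    have h3 : f^[i1 + m * k] x ∈ A i1 := by
      rw [← hAmul i1 k]
      exact left_mem_hull _ _ _
    exact hout (i1 + m * k) (hDo.out hl (hDc.sSup_mem ⟨w, hw⟩)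
      ⟨csInf_le (hAc i1).bddBelow h3, hcon⟩)
  · obtain ⟨i1, -, hi1⟩ := Finset.exists_min_image (Finset.range m) (fun i => sSup (A i))
      ⟨0, Finset.mem_range.2 hm⟩
    have hl : sSup (A i1) ∈ D := by
      refine mem_iInter.2 fun i => ?_
      have h1 : sSup (A i1) ≤ sSup (A i) := by
        rw [hAmod i]
        exact hi1 _ (Finset.mem_range.2 (Nat.mod_lt _ hm))
      have h2 : w ≤ sSup (A i1) := le_csSup (hAc i1).bddAbove (hDA i1 hw)
      exact (hAo i).out (hDA i hw) ((hAc i).sSup_mem (hAn i)) ⟨h2, h1⟩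
    refine ⟨i1, fun k => ?_⟩
    by_contra hcon
    push Not at hcon
    have h3 : f^[i1 + m * k] x ∈ A i1 := by
      rw [← hAmul i1 k]
      exact left_mem_hull _ _ _
    exact hout (i1 + m * k) (hDo.out (hDc.sInf_mem ⟨w, hw⟩) hl
      ⟨hcon, le_csSup (hAc i1).bddAbove h3⟩)

end Pool.Agent.MP4545.Ex
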