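import Pool.Agent.Work.MP_4545a8_an.Ex.Uthm
import Pool.Agent.Work.MP_4545a8_an.Ex.TwoSides

/-!
MODULE Fthm (medium). All fixed points of `f ∘ g` lie in every invariant interval.

PROOF of `no_blk`. For a block `Q` of period `d ≥ 2`, the disjoint sets `Q` and `f '' Q` (`dj` with
`i = 1`) are both `Inv f^[d] g^[d] a b`; `inv_meet` for the pair `(f^d, g^d)` (`sys_iter`,
`noCommon_iter` of Trap.lean) is a contradiction.
PROOF of `inv_inter_hull`: `dicho` and `no_blk`.
PROOF of `K_sub`. Let `x ∈ K f g`, `x ∉ B`. For `m ≥ 1` put `D m = ⋂ i, Hull (f^i x) (f^(i+m) x)`,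
invariant by `inv_inter_hull`.
(a) Suppose every `D m` (`m ≥ 1`) contains some `f^n x`; then `x = g^n (f^n x) ∈ D m`, `f x ∈ D m`,
so `Hull x (f x) ⊆ D m ⊆ Hull x (f^m x)`; and `f^m x ∈ Hull x (f x)` (`trap` or `hull_per` with
`m = 1`), so `Hull x (f^m x) = Hull x (f x) =: L` for all `m ≥ 1`. `L = Icc c d`, `c < d`
(it contains `x ≠ f x`), `Core f g a b x c d` (`hull_per` with `m = 1`). `E = L ∩ B` is nonempty
(`inv_meet`), `z_lemma` with `r = 1` gives `E = L`, so `x ∈ B`, contradiction.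
(b) Otherwise there is `m ≥ 1` such that `D = D m` contains no `f^n x`. `two_sides`: there is `i` with
`f^(i+m*k) x > sSup D` for all `k`. Put `x' = f^i x`, `F = f^m`, `G = g^m` (`sys_iter`,
`noCommon_iter`, `K_iter`); so `F^k x' > sSup D` for all `k`. `D` is `Inv F G a b`. Let `n ≥ 1` and
`D' = ⋂ j, Hull (F ∘ G) (F^j x') (F^(j+n) x')`, `Inv F G a b` by `inv_inter_hull` for `(F, G)`. `D'`
contains some `F^j x'`: otherwise `two_sides` for `(F, G)` gives `j` with `F^j x' < sInf D'`, so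
`sSup D < sInf D'` and `D`, `D'` are disjoint, against `inv_meet` for `(F, G)`. As in (a),
`Hull (F ∘ G) x' (F^n x') = Hull (F ∘ G) x' (F x') =: A'` for all `n ≥ 1`, `A' = Icc c' d'`,
`Core F G a b x' c' d'`. `E = A' ∩ D` is nonempty (`inv_meet` for `(F, G)`); `z_lemma` for `(F, G)` gives
`E = A'`, so `x' ∈ D`, contradiction.
(It is convenient to prove first: `core_of`: if `x ∈ K f g` and every `D m`, `m ≥ 1`, contains some
`f^n x`, then `Core f g a b x c d` for some `c, d` with `x ∈ Icc c d`.)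
-/

set_option autoImplicit false

namespace Pool.Agent.MP4545.Ex

open Set Function Filter Topology
open Pool.Agent.MP4545

variable {f g : ℝ → ℝ} {a b : ℝ}

theorem no_blk (S : Sys f g a b) (hno : NoCommon f g) {d : ℕ} {Q : Set ℝ} (hQ : Blk f g d Q) :
    False := by
  have h2 := hQ.two
  have hd : 0 < d := by omega
  have hW := hQ.wall S
  have hc : Function.Commute f g := S.comm
  have hQf : MapsTo f^[d] Q Q := fun x hx => by
    rw [← hQ.ff]
    exact mem_image_of_mem _ hx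
  have hQg : MapsTo g^[d] Q Q := fun x hx => by
    rw [← hQ.gg]
    exact mem_image_of_mem _ hx
  have hI1 : Inv f^[d] g^[d] a b Q := ⟨hQ.cl, hQ.oc, hQ.ne, hW.sub, hQf, hQg⟩
  have hI2 : Inv f^[d] g^[d] a b (f '' Q) :=
    { cl := (hW.compact.image S.cf).isClosed
      oc := isPreconnected_iff_ordConnected.1
        ((isPreconnected_iff_ordConnected.2 hQ.oc).image f S.cf.continuousOn)
      ne := hQ.ne.image _
      sub := by rintro _ ⟨x, -, rfl⟩; exact S.rf x
      hf := by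
        rintro _ ⟨x, hx, rfl⟩
        exact ⟨f^[d] x, hQf hx, by rw [← iterate_succ_apply' f, iterate_succ_apply f]⟩
      hg := by
        rintro _ ⟨x, hx, rfl⟩
        exact ⟨g^[d] x, hQg hx, (hc.iterate_right d).eq x⟩ }
  obtain ⟨y, hy1, hy2⟩ := inv_meet (sys_iter S hd) (noCommon_iter hno hd) hI1 hI2
  exact Set.disjoint_left.1 (hQ.dj 1 one_pos (by omega)) hy1 hy2

theorem inv_inter_hull (S : Sys f g a b) (hno : NoCommon f g) {x : ℝ} (hx : x ∈ K f g) {m : ℕ}
    (hm : 0 < m) : Inv f g a b (⋂ i : ℕ, Hull (f ∘ g) (f^[i] x) (f^[i + m] x)) := by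
  rcases dicho S hno hx hm with h | ⟨d, Q, hQ, -⟩
  · exact h
  · exact (no_blk S hno hQ).elim

theorem core_of (S : Sys f g a b) (hno : NoCommon f g) {x : ℝ} (hx : x ∈ K f g)
    (h : ∀ m, 0 < m → ∃ n, f^[n] x ∈ ⋂ i : ℕ, Hull (f ∘ g) (f^[i] x) (f^[i + m] x)) :
    ∃ c d, Core f g a b x c d ∧ Inv f g a b (Icc c d) ∧ x ∈ Icc c d := by
  set L := Hull (f ∘ g) x (f x) with hL
  have hLc : IsCompact L := hull_compact S hx (K_f S hx)
  have hLo : OrdConnected L := hull_ord _ _ _
  have hxL : x ∈ L := left_mem_hull _ _ _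
  have hfxL : f x ∈ L := right_mem_hull _ _ _
  have hper := hull_per S hno hx (m := 1) one_pos
  have hfL : f '' L = L := hper.1
  have hgL : g '' L = L := hper.2
  have hLI : Inv f g a b L :=
    { cl := hull_closed _ _ _
      oc := hLo
      ne := ⟨x, hxL⟩
      sub := hull_bdd S hx (K_f S hx)
      hf := fun y hy => by rw [← hfL]; exact mem_image_of_mem f hy
      hg := fun y hy => by rw [← hgL]; exact mem_image_of_mem g hy }
  have hLIcc : L = Icc (sInf L) (sSup L) := eq_Icc hLc hLo ⟨x, hxL⟩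
  have hne : f x ≠ x := not_per S hno hx (n := 1) one_pos
  have hlt : sInf L < sSup L := by
    have h1 : sInf L ≤ x := csInf_le hLc.bddBelow hxL
    have h2 : x ≤ sSup L := le_csSup hLc.bddAbove hxL
    have h3 : sInf L ≤ f x := csInf_le hLc.bddBelow hfxL
    have h4 : f x ≤ sSup L := le_csSup hLc.bddAbove hfxL
    rcases lt_or_gt_of_ne hne with h | h
    · linarith
    · linarith
  have hhull : ∀ m, 0 < m → Hull (f ∘ g) x (f^[m] x) = L := by
    intro m hm
    obtain ⟨n, hn⟩ := h m hm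
    have hD := inv_inter_hull S hno hx hm
    have hxD : x ∈ ⋂ i : ℕ, Hull (f ∘ g) (f^[i] x) (f^[i + m] x) := by
      have h1 := hD.hg.iterate n hn
      rwa [gn_fn S hx n] at h1
    apply Subset.antisymm
    · exact hull_sub hLI.cl hLo (hLI.hf.comp hLI.hg) hxL (hLI.hf.iterate m hxL)
    · have h1 : L ⊆ ⋂ i : ℕ, Hull (f ∘ g) (f^[i] x) (f^[i + m] x) :=
        hull_sub hD.cl hD.oc (hD.hf.comp hD.hg) hxD (hD.hf hxD)
      have h2 := h1.trans (iInter_subset _ 0)
      rwa [Nat.zero_add] at h2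
  refine ⟨sInf L, sSup L, ?_, ?_, ?_⟩
  · exact
      { hx := hx
        lt := hlt
        sub := hLIcc.symm.subset.trans hLI.sub
        ff := by rw [← hLIcc, hfL]
        gg := by rw [← hLIcc, hgL]
        hull := fun m hm => (hhull m hm).trans hLIcc }
  · rw [← hLIcc]
    exact hLI
  · rw [← hLIcc]
    exact hxL

private theorem fthm_a (S : Sys f g a b) (hno : NoCommon f g) {x : ℝ} (hx : x ∈ K f g) {B : Set ℝ}
    (hB : Inv f g a b B)
    (h : ∀ m, 0 < m → ∃ n, f^[n] x ∈ ⋂ i : ℕ, Hull (f ∘ g) (f^[i] x) (f^[i + m] x)) :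
    x ∈ B := by
  obtain ⟨c, d, hC, hI, hxI⟩ := core_of S hno hx h
  have hne := inv_meet S hno hI hB
  have hE : Icc c d ∩ B = Icc c d := by
    refine z_lemma S hno hC (hI.cl.inter hB.cl) (hI.oc.inter hB.oc) hne inter_subset_left
      (r := 1) one_pos ?_ ?_
    · exact fun y hy => ⟨hI.hf hy.1, hB.hf hy.2⟩
    · exact fun y hy => ⟨hI.hg hy.1, hB.hg hy.2⟩
  rw [← hE] at hxI
  exact hxI.2

theorem K_sub (S : Sys f g a b) (hno : NoCommon f g) {B : Set ℝ} (hB : Inv f g a b B) :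
    K f g ⊆ B := by
  intro x hx
  by_cases h : ∀ m, 0 < m → ∃ n, f^[n] x ∈ ⋂ i : ℕ, Hull (f ∘ g) (f^[i] x) (f^[i + m] x)
  · exact fthm_a S hno hx hB h
  · exfalso
    push Not at h
    obtain ⟨m, hm, hout⟩ := h
    have hD := inv_inter_hull S hno hx hm
    obtain ⟨⟨i, hi⟩, -⟩ := two_sides S hno hx hm hD.ne hout
    set D := ⋂ i : ℕ, Hull (f ∘ g) (f^[i] x) (f^[i + m] x) with hDdef
    have S' := sys_iter S hm
    have hno' := noCommon_iter hno hm
    have hx' : f^[i] x ∈ K f^[m] g^[m] := K_iter S (K_fn S hx i) m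
    have hD' : Inv f^[m] g^[m] a b D :=
      ⟨hD.cl, hD.oc, hD.ne, hD.sub, hD.hf.iterate m, hD.hg.iterate m⟩
    have hi' : ∀ k, sSup D < (f^[m])^[k] (f^[i] x) := by
      intro k
      have e : (f^[m])^[k] (f^[i] x) = f^[i + m * k] x := by
        rw [← iterate_mul, ← iterate_add_apply, Nat.add_comm]
      rw [e]
      exact hi k
    have key : ∀ n, 0 < n → ∃ j, (f^[m])^[j] (f^[i] x) ∈
        ⋂ j : ℕ, Hull (f^[m] ∘ g^[m]) ((f^[m])^[j] (f^[i] x)) ((f^[m])^[j + n] (f^[i] x)) := by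
      intro n hn
      by_contra hcon
      push Not at hcon
      have hDn := inv_inter_hull S' hno' hx' hn
      obtain ⟨-, j, hj⟩ := two_sides S' hno' hx' hn hDn.ne hcon
      obtain ⟨y, hy1, hy2⟩ := inv_meet S' hno' hD' hDn
      have h1 : y ≤ sSup D := le_csSup hD'.compact.bddAbove hy1
      have h2 := csInf_le hDn.compact.bddBelow hy2
      have h3 := hj 0
      have h4 := hi' (j + n * 0)
      linarith
    have h1 := fthm_a S' hno' hx' hD' key
    have h2 : f^[i] x ≤ sSup D := le_csSup hD'.compact.bddAbove h1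
    have h3 := hi' 0
    have h4 : (f^[m])^[0] (f^[i] x) = f^[i] x := rfl
    rw [h4] at h3
    linarith

end Pool.Agent.MP4545.Ex
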