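import Pool.Agent.Work.MP_4545a8_an.Ex.Defs

set_option autoImplicit false

/-! Two neighbouring minimal invariant intervals `A < B` and the largest invariant intervals
`EA ⊇ A`, `EB ⊇ B` disjoint from the other one. -/

namespace Pool.Agent.MP4545.Ex

open Set Function Filter Topology
open Pool.Agent.MP4545

structure Gap (f g : ℝ → ℝ) (a b : ℝ) (A B EA EB : Set ℝ) : Prop where
  mA : MinInv f g a b A
  mB : MinInv f g a b B
  iA : Inv f g a b EA
  iB : Inv f g a b EB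
  sA : A ⊆ EA
  sB : B ⊆ EB
  dA : Disjoint EA B
  dB : Disjoint EB A
  lt : sSup EA < sInf EB
  adj : ∀ D, Inv f g a b D → ¬ (sSup A < sInf D ∧ sSup D < sInf B)
  maxA : ∀ C, Inv f g a b C → A ⊆ C → Disjoint C B → C ⊆ EA
  maxB : ∀ C, Inv f g a b C → B ⊆ C → Disjoint C A → C ⊆ EB

/-- points between `EA` and `EB` -/
lemma Gap.below {f g : ℝ → ℝ} {a b : ℝ} {A B EA EB : Set ℝ} (G : Gap f g a b A B EA EB) {z : ℝ}
    (h1 : sSup EA < z) (h2 : z < sInf EB) :
    (∀ y ∈ EA, y < z) ∧ (∀ y ∈ EB, z < y) ∧ (∀ y ∈ A, y < z) ∧ (∀ y ∈ B, z < y) := by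
  have e1 : ∀ y ∈ EA, y < z := fun y hy => (le_csSup G.iA.compact.bddAbove hy).trans_lt h1
  have e2 : ∀ y ∈ EB, z < y := fun y hy => h2.trans_le (csInf_le G.iB.compact.bddBelow hy)
  exact ⟨e1, e2, fun y hy => e1 y (G.sA hy), fun y hy => e2 y (G.sB hy)⟩

end Pool.Agent.MP4545.Ex
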