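import Pool.Agent.Work.MP_4545a8_an.Ex.GapHull
import Pool.Agent.Work.MP_4545a8_an.Ex.BlkAv
import Pool.Agent.Work.MP_4545a8_an.Ex.Dicho

/-!
MODULE GapDicho (medium). For a fixed point `z` of `f ∘ g` in the gap: either
`Hull z (f^m z) = Hull z (f z)` or `z` lies in a block all of whose translates avoid `EA` and `EB`.

PROOF. Write `A i = Hull (f ∘ g) (f^i z) (f^(i+m) z)` (module HullIt: `f '' A i = A (i+1)`,
`g '' A (i+1) = A i`, `A (i+m) = A i`). Apply `dicho`.
Case 1: `D = ⋂ i, A i` is invariant.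
(1a) `z ∈ D`. Then `f z ∈ D`, so `Hull z (f z) ⊆ D ⊆ A 0 = Hull z (f^m z)`; and
`f^m z ∈ Hull z (f z)` (it is invariant by `gap_hull`), so `A 0 ⊆ Hull z (f z)`.
(1b) `z ∉ D`. `U = ⋃ i < m, A i` is closed (finite union), order connected (all contain the
nonempty `D`), invariant under `f` and `g` (periodicity), contains `z` and `f z`. So
`Hull z (f z) ⊆ U` and by `gap_hull` `A ⊆ U`, `B ⊆ U`. `D` is an interval, so either all its points
are `< z` or all are `> z`. Say `< z`. Let `i0 < m` be an index with the least `ρ = sSup (A i0)`. For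
every `i`, `A i` has a common point with `A i0` (a point of `D`), which is `≤ ρ`, and
`sSup (A i) ≥ ρ`, so `ρ ∈ A i`. So `ρ ∈ D` and `ρ < z`. Take `y ∈ B`; `y ∈ A i` for some `i < m`; with
`k = i0 + m - i`, `f^k y ∈ A (i0 + m) = A i0`, so `f^k y ≤ ρ < z`; but `f^k y ∈ B`, all points of `B`
are `> z` (`Gap.below`). Contradiction. If all points of `D` are `> z` use the index with the
greatest `sInf (A i)` and `A` in place of `B`.
Case 2: a block `Q ∋ z`. If some translate `f^i '' Q` meets `EA` then `blk_avoid` with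
`E = EA` gives an invariant `V ⊇ EA ⊇ A` with `z ∈ V`, disjoint from `B`; `G.maxA` gives `V ⊆ EA`,
`z ∈ EA`, contradiction (`Gap.below`). The same for `EB`.
-/

set_option autoImplicit false

namespace Pool.Agent.MP4545.Ex

open Set Function Filter Topology
open Pool.Agent.MP4545

variable {f g : ℝ → ℝ} {a b : ℝ} {A B EA EB : Set ℝ}

private lemma gapd_case1 (S : Sys f g a b) (hno : NoCommon f g) (G : Gap f g a b A B EA EB) {z : ℝ}
    (hz : z ∈ K f g) (h1 : sSup EA < z) (h2 : z < sInf EB) {m : ℕ} (hm : 0 < m)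
    (hD : Inv f g a b (⋂ i : ℕ, Hull (f ∘ g) (f^[i] z) (f^[i + m] z))) :
    Hull (f ∘ g) z (f^[m] z) = Hull (f ∘ g) z (f z) := by
  obtain ⟨hL, hAL, hBL, -⟩ := gap_hull S hno G hz h1 h2
  set H : ℕ → Set ℝ := fun i => Hull (f ∘ g) (f^[i] z) (f^[i + m] z) with hH
  have hH0 : H 0 = Hull (f ∘ g) z (f^[m] z) := by
    show Hull (f ∘ g) (f^[0] z) (f^[0 + m] z) = _
    rw [Nat.zero_add]
    rfl
  have hf : ∀ i, f '' H i = H (i + 1) := fun i => hull_f S hz m i
  have hg : ∀ i, g '' H (i + 1) = H i := fun i => hull_g S hz m i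
  have hper : ∀ i, H (i + m) = H i := fun i => hull_add S hno hz hm i
  have hperk : ∀ k i, H (i + m * k) = H i := by
    intro k
    induction k with
    | zero => intro i; rfl
    | succ k ih =>
      intro i
      rw [Nat.mul_succ, ← Nat.add_assoc, hper, ih]
  have hmod : ∀ i, H i = H (i % m) := by
    intro i
    conv_lhs => rw [← Nat.mod_add_div i m]
    exact hperk _ _
  have hfk : ∀ k i y, y ∈ H i → f^[k] y ∈ H (i + k) := by
    intro k
    induction k with
    | zero => intro i y hy; exact hy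
    | succ k ih =>
      intro i y hy
      rw [iterate_succ_apply']
      have h3 := mem_image_of_mem f (ih i y hy)
      rw [hf] at h3
      exact h3
  have hKi : ∀ i, f^[i] z ∈ K f g := fun i => K_fn S hz i
  have hcpt : ∀ i, IsCompact (H i) := fun i => hull_compact S (hKi i) (hKi (i + m))
  have hoc : ∀ i, OrdConnected (H i) := fun i => hull_ord _ _ _
  have hne : ∀ i, (H i).Nonempty := fun i => ⟨_, left_mem_hull _ _ _⟩
  by_cases hzD : z ∈ ⋂ i, H i
  · apply Subset.antisymm
    · exact hull_sub hL.cl hL.oc (hL.hf.comp hL.hg) (left_mem_hull _ _ _) (hL.hf.iterate m (left_mem_hull _ _ _))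
    · rw [← hH0]
      exact (hull_sub hD.cl hD.oc (hD.hf.comp hD.hg) hzD (hD.hf hzD)).trans (iInter_subset _ 0)
  · exfalso
    have hU : Inv f g a b (⋃ i, H i) :=
      { cl := by
          have e : (⋃ i, H i) = ⋃ i ∈ Finset.range m, H i := by
            apply Subset.antisymm
            · refine iUnion_subset fun i => ?_
              rw [hmod i]
              exact subset_biUnion_of_mem (u := fun i => H i)
                (show i % m ∈ (Finset.range m : Finset ℕ) from
                  Finset.mem_range.2 (Nat.mod_lt _ hm))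
            · exact iUnion₂_subset fun i _ => subset_iUnion _ i
          rw [e]
          exact isClosed_biUnion_finset fun i _ => hull_closed _ _ _
        oc := by
          apply isPreconnected_iff_ordConnected.1
          exact isPreconnected_iUnion hD.ne fun i => isPreconnected_iff_ordConnected.2 (hoc i)
        ne := ⟨_, mem_iUnion.2 ⟨0, left_mem_hull _ _ _⟩⟩
        sub := iUnion_subset fun i => hull_bdd S (hKi i) (hKi (i + m))
        hf := by
          intro x hx
          obtain ⟨i, hi⟩ := mem_iUnion.1 hx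
          refine mem_iUnion.2 ⟨i + 1, ?_⟩
          rw [← hf]
          exact mem_image_of_mem f hi
        hg := by
          intro x hx
          obtain ⟨i, hi⟩ := mem_iUnion.1 hx
          refine mem_iUnion.2 ⟨i + m - 1, ?_⟩
          rw [← hg]
          apply mem_image_of_mem g
          have e : i + m - 1 + 1 = i + m := by omega
          rw [e, hper]
          exact hi }
    have hLU : Hull (f ∘ g) z (f z) ⊆ ⋃ i, H i := by
      apply hull_sub hU.cl hU.oc (hU.hf.comp hU.hg)
      · exact mem_iUnion.2 ⟨0, left_mem_hull _ _ _⟩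
      · exact mem_iUnion.2 ⟨1, left_mem_hull _ _ _⟩
    obtain ⟨y0, hy0⟩ := hD.ne
    have hy0i : ∀ i, y0 ∈ H i := fun i => mem_iInter.1 hy0 i
    have hgap := G.below h1 h2
    have hside : (∀ y ∈ ⋂ i, H i, y < z) ∨ (∀ y ∈ ⋂ i, H i, z < y) := by
      rcases lt_trichotomy y0 z with h | h | h
      · left
        intro y hy
        by_contra hcon
        push Not at hcon
        exact hzD (hD.oc.out hy0 hy ⟨h.le, hcon⟩)
      · exact absurd (h ▸ hy0) hzD
      · right
        intro y hy
        by_contra hcon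
        push Not at hcon
        exact hzD (hD.oc.out hy hy0 ⟨hcon, h.le⟩)
    have hshift : ∀ (i i0 : ℕ) (y : ℝ), y ∈ H i → ∃ k, f^[k] y ∈ H i0 := by
      intro i i0 y hy
      refine ⟨i0 + m * (i + 1) - i, ?_⟩
      have h3 := hfk (i0 + m * (i + 1) - i) i y hy
      have h4 : i ≤ m * (i + 1) := by nlinarith
      have e : i + (i0 + m * (i + 1) - i) = i0 + m * (i + 1) := by omega
      rw [e, hperk] at h3
      exact h3
    have hrange : (Finset.range m).Nonempty := ⟨0, Finset.mem_range.2 hm⟩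
    rcases hside with hs | hs
    · obtain ⟨i0, -, hi0⟩ := Finset.exists_min_image (Finset.range m) (fun i => sSup (H i)) hrange
      have hmin : ∀ i, sSup (H i0) ≤ sSup (H i) := fun i => by
        rw [hmod i]
        exact hi0 _ (Finset.mem_range.2 (Nat.mod_lt _ hm))
      have hρD : sSup (H i0) ∈ ⋂ i, H i := mem_iInter.2 fun i =>
        (hoc i).out (hy0i i) ((hcpt i).sSup_mem (hne i))
          ⟨le_csSup (hcpt i0).bddAbove (hy0i i0), hmin i⟩
      have hρz := hs _ hρD
      obtain ⟨y, hy⟩ := G.mB.ne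
      obtain ⟨i, hi⟩ := mem_iUnion.1 (hLU (hBL hy))
      obtain ⟨k, hk⟩ := hshift i i0 y hi
      have h3 : f^[k] y ≤ sSup (H i0) := le_csSup (hcpt i0).bddAbove hk
      have h4 := hgap.2.2.2 _ (G.mB.hf.iterate k hy)
      linarith
    · obtain ⟨i0, -, hi0⟩ := Finset.exists_max_image (Finset.range m) (fun i => sInf (H i)) hrange
      have hmax : ∀ i, sInf (H i) ≤ sInf (H i0) := fun i => by
        rw [hmod i]
        exact hi0 _ (Finset.mem_range.2 (Nat.mod_lt _ hm))
      have hρD : sInf (H i0) ∈ ⋂ i, H i := mem_iInter.2 fun i =>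
        (hoc i).out ((hcpt i).sInf_mem (hne i)) (hy0i i)
          ⟨hmax i, csInf_le (hcpt i0).bddBelow (hy0i i0)⟩
      have hρz := hs _ hρD
      obtain ⟨y, hy⟩ := G.mA.ne
      obtain ⟨i, hi⟩ := mem_iUnion.1 (hLU (hAL hy))
      obtain ⟨k, hk⟩ := hshift i i0 y hi
      have h3 : sInf (H i0) ≤ f^[k] y := csInf_le (hcpt i0).bddBelow hk
      have h4 := hgap.2.2.1 _ (G.mA.hf.iterate k hy)
      linarith

theorem gap_dicho (S : Sys f g a b) (hno : NoCommon f g) (G : Gap f g a b A B EA EB) {z : ℝ}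
    (hz : z ∈ K f g) (h1 : sSup EA < z) (h2 : z < sInf EB) {m : ℕ} (hm : 0 < m) :
    Hull (f ∘ g) z (f^[m] z) = Hull (f ∘ g) z (f z) ∨
      ∃ d Q, Blk f g d Q ∧ z ∈ Q ∧
        ∀ i : ℕ, Disjoint (f^[i] '' Q) EA ∧ Disjoint (f^[i] '' Q) EB := by
  rcases dicho S hno hz hm with hD | ⟨d, Q, hQ, hzQ, -⟩
  · exact Or.inl (gapd_case1 S hno G hz h1 h2 hm hD)
  · right
    have hgap := G.below h1 h2
    refine ⟨d, Q, hQ, hzQ, fun i => ⟨?_, ?_⟩⟩
    · rw [Set.disjoint_iff_inter_eq_empty]
      by_contra hne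
      have hne' := Set.nonempty_iff_ne_empty.2 hne
      obtain ⟨V, hV, hEV, hzV, hVB⟩ := blk_avoid S hno G.iA G.mB.toInv hQ hz hzQ
        (Or.inl ⟨hgap.1, hgap.2.2.2⟩) ⟨i, hne'⟩
      have h3 := G.maxA V hV (G.sA.trans hEV) hVB hzV
      exact lt_irrefl _ (hgap.1 z h3)
    · rw [Set.disjoint_iff_inter_eq_empty]
      by_contra hne
      have hne' := Set.nonempty_iff_ne_empty.2 hne
      obtain ⟨V, hV, hEV, hzV, hVA⟩ := blk_avoid S hno G.iB G.mA.toInv hQ hz hzQ
        (Or.inr ⟨hgap.2.1, hgap.2.2.1⟩) ⟨i, hne'⟩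
      have h3 := G.maxB V hV (G.sB.trans hEV) hVA hzV
      exact lt_irrefl _ (hgap.2.1 z h3)

end Pool.Agent.MP4545.Ex
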