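import Pool.Agent.Work.MP_4545a8_an.Ex.Defs

set_option autoImplicit false

/-!
MODULE HullIt (small). Hulls under iterates. `Hull h p q` is the smallest closed order connected
`h`-invariant set containing `p, q` (file Trap.lean: lemmas `img`, `img'`, `hull_sub`, `hull_mono`,
`hull_bdd`, `hull_compact`, `trap`).

PROOF of `img_it`, `img_it'`: induction on `n` with `img`, `img'` (points stay in `K f g` by `K_fn`,
`K_gn`).
PROOF of `hull_per`. Put `A = Hull (f ∘ g) x (f^m x)`. By `trap` (with `A` itself) the points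
`f^(2m) x` and `g^m x` are in `A`. `f^m '' A = Hull (f^m x) (f^(2m) x) ⊆ A` (`img_it`, `hull_mono`),
`g^m '' A = Hull (g^m x) (g^m (f^m x)) = Hull (g^m x) x ⊆ A` (`gn_fn`, `hull_symm` not even needed).
`f^m '' (g^m '' A) = Hull (f^m (g^m x)) (f^m x) = A` and `g^m '' (f^m '' A) = A` in the same way.
So `A = f^m '' (g^m '' A) ⊆ f^m '' A ⊆ A` and `A = g^m '' (f^m '' A) ⊆ g^m '' A ⊆ A`.
PROOF of `hull_f`, `hull_g`, `hull_hh`: `img`, `img'` and `iterate_succ_apply'`.
-/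

namespace Pool.Agent.MP4545.Ex

open Set Function Filter Topology
open Pool.Agent.MP4545

variable {f g : ℝ → ℝ} {a b : ℝ}

lemma img_it (S : Sys f g a b) {p q : ℝ} (hp : p ∈ K f g) (hq : q ∈ K f g) (n : ℕ) :
    f^[n] '' Hull (f ∘ g) p q = Hull (f ∘ g) (f^[n] p) (f^[n] q) := by
  induction n with
  | zero => simp
  | succ n ih =>
    rw [iterate_succ', image_comp, ih, img S (K_fn S hp n) (K_fn S hq n)]
    rfl

lemma img_it' (S : Sys f g a b) {p q : ℝ} (hp : p ∈ K f g) (hq : q ∈ K f g) (n : ℕ) :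
    g^[n] '' Hull (f ∘ g) p q = Hull (f ∘ g) (g^[n] p) (g^[n] q) := by
  induction n with
  | zero => simp
  | succ n ih =>
    rw [iterate_succ', image_comp, ih, img' S (K_gn S hp n) (K_gn S hq n)]
    rfl

theorem hull_per (S : Sys f g a b) (hno : NoCommon f g) {x : ℝ} (hx : x ∈ K f g) {m : ℕ}
    (hm : 0 < m) : f^[m] '' Hull (f ∘ g) x (f^[m] x) = Hull (f ∘ g) x (f^[m] x) ∧
      g^[m] '' Hull (f ∘ g) x (f^[m] x) = Hull (f ∘ g) x (f^[m] x) := by
  have hm1 : f^[m] x ∈ K f g := K_fn S hx m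
  have hg1 : g^[m] x ∈ K f g := K_gn S hx m
  have h2 : f^[m] (f^[m] x) ∈ Hull (f ∘ g) x (f^[m] x) := by
    have := (trap S hno hx (hull_closed _ _ _) (hull_ord _ _ _)
      (fun y hy => hull_inv (f ∘ g) x (f^[m] x) y hy) (left_mem_hull _ _ _) hm
      (right_mem_hull _ _ _) 2).1
    rwa [Nat.mul_comm, Nat.two_mul, iterate_add_apply] at this
  have h3 : g^[m] x ∈ Hull (f ∘ g) x (f^[m] x) := by
    have := (trap S hno hx (hull_closed _ _ _) (hull_ord _ _ _)
      (fun y hy => hull_inv (f ∘ g) x (f^[m] x) y hy) (left_mem_hull _ _ _) hm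
      (right_mem_hull _ _ _) 1).2
    rwa [Nat.mul_one] at this
  have f1 : f^[m] '' Hull (f ∘ g) x (f^[m] x) ⊆ Hull (f ∘ g) x (f^[m] x) := by
    rw [img_it S hx hm1]
    exact hull_mono (right_mem_hull _ _ _) h2
  have g1 : g^[m] '' Hull (f ∘ g) x (f^[m] x) ⊆ Hull (f ∘ g) x (f^[m] x) := by
    rw [img_it' S hx hm1, gn_fn S hx]
    exact hull_mono h3 (left_mem_hull _ _ _)
  have fg1 : f^[m] '' (g^[m] '' Hull (f ∘ g) x (f^[m] x)) = Hull (f ∘ g) x (f^[m] x) := by
    rw [img_it' S hx hm1, gn_fn S hx, img_it S hg1 hx, fn_gn S hx]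
  have gf1 : g^[m] '' (f^[m] '' Hull (f ∘ g) x (f^[m] x)) = Hull (f ∘ g) x (f^[m] x) := by
    rw [img_it S hx hm1, img_it' S hm1 (K_fn S hm1 m), gn_fn S hx, gn_fn S hm1]
  constructor
  · apply Subset.antisymm f1
    conv_lhs => rw [← fg1]
    exact image_mono g1
  · apply Subset.antisymm g1
    conv_lhs => rw [← gf1]
    exact image_mono f1

/-- the hulls `A i = K(f^i x, f^(i+m) x)` are permuted cyclically -/
theorem hull_f (S : Sys f g a b) {x : ℝ} (hx : x ∈ K f g) (m i : ℕ) :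
    f '' Hull (f ∘ g) (f^[i] x) (f^[i + m] x) =
      Hull (f ∘ g) (f^[i + 1] x) (f^[i + 1 + m] x) := by
  rw [img S (K_fn S hx _) (K_fn S hx _), ← iterate_succ_apply' f, ← iterate_succ_apply' f,
    show i + 1 + m = i + m + 1 by omega]

theorem hull_g (S : Sys f g a b) {x : ℝ} (hx : x ∈ K f g) (m i : ℕ) :
    g '' Hull (f ∘ g) (f^[i + 1] x) (f^[i + 1 + m] x) =
      Hull (f ∘ g) (f^[i] x) (f^[i + m] x) := by
  rw [img' S (K_fn S hx _) (K_fn S hx _), show i + 1 + m = i + m + 1 by omega,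
    iterate_succ_apply' f, iterate_succ_apply' f, gf S (K_fn S hx _), gf S (K_fn S hx _)]

theorem hull_add (S : Sys f g a b) (hno : NoCommon f g) {x : ℝ} (hx : x ∈ K f g) {m : ℕ}
    (hm : 0 < m) (i : ℕ) : Hull (f ∘ g) (f^[i + m] x) (f^[i + m + m] x) =
      Hull (f ∘ g) (f^[i] x) (f^[i + m] x) := by
  have h1 := (hull_per S hno (K_fn S hx i) hm).1
  rw [img_it S (K_fn S hx i) (K_fn S (K_fn S hx i) m), ← iterate_add_apply,
    ← iterate_add_apply, Nat.add_comm m i] at h1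
  rw [← h1, show i + m + m = m + (i + m) by omega]

end Pool.Agent.MP4545.Ex
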