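import Pool.Agent.Work.MP_4545a8_an.Ex.GapDef
import Pool.Agent.Work.MP_4545a8_an.Ex.Exist
import Pool.Agent.Work.MP_4545a8_an.Ex.HullIt

set_option autoImplicit false

/-!
MODULE GapHull (small). The invariant interval generated by a fixed point `z` of `f ∘ g` in the gap.

PROOF. `L = Hull (f ∘ g) z (f z)` is invariant: `hull_per` with `m = 1`, `hull_closed`, `hull_ord`,
`left_mem_hull`, `hull_bdd`. If `L` meets `A` then `A ⊆ L` (`inv_dis`), same for `B`. Suppose `L` is
disjoint from both. As `z ∈ L`, `sSup A < z < sInf B` (`Gap.below`; `sSup A ∈ A`, `sInf B ∈ B` by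
compactness) and `L` is order connected, `sSup A < sInf L` and `sSup L < sInf B`, against `G.adj`. If
`A ⊆ L` and `L` is disjoint from `B` then `L ⊆ EA` (`G.maxA`), but `z ∉ EA`. If `B ⊆ L` and `L` is
disjoint from `A` then `L ⊆ EB`, but `z ∉ EB`. So `A ⊆ L` and `B ⊆ L`.
Last clause: `C ⊇ A ∪ B` is order connected, so `z ∈ C`, `f z ∈ C`; `hull_sub`.
-/

namespace Pool.Agent.MP4545.Ex

open Set Function Filter Topology
open Pool.Agent.MP4545

variable {f g : ℝ → ℝ} {a b : ℝ} {A B EA EB : Set ℝ}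

/-- the hull of `z` and `f z` is invariant -/
lemma inv_hull (S : Sys f g a b) (hno : NoCommon f g) {z : ℝ} (hz : z ∈ K f g) :
    Inv f g a b (Hull (f ∘ g) z (f z)) where
  cl := hull_closed _ _ _
  oc := hull_ord _ _ _
  ne := ⟨z, left_mem_hull _ _ _⟩
  sub := hull_bdd S hz (K_f S hz)
  hf := fun y hy => by
    have h1 := (hull_per S hno hz one_pos).1
    rw [iterate_one] at h1
    rw [← h1]
    exact mem_image_of_mem _ hy
  hg := fun y hy => by
    have h1 := (hull_per S hno hz one_pos).2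
    rw [iterate_one, iterate_one] at h1
    rw [← h1]
    exact mem_image_of_mem _ hy

theorem gap_hull (S : Sys f g a b) (hno : NoCommon f g) (G : Gap f g a b A B EA EB) {z : ℝ}
    (hz : z ∈ K f g) (h1 : sSup EA < z) (h2 : z < sInf EB) :
    Inv f g a b (Hull (f ∘ g) z (f z)) ∧ A ⊆ Hull (f ∘ g) z (f z) ∧
      B ⊆ Hull (f ∘ g) z (f z) ∧
      ∀ C, Inv f g a b C → A ⊆ C → B ⊆ C → Hull (f ∘ g) z (f z) ⊆ C := by
  have hL := inv_hull S hno hz
  obtain ⟨bA, bB, bA', bB'⟩ := G.below h1 h2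
  have hzL : z ∈ Hull (f ∘ g) z (f z) := left_mem_hull _ _ _
  set L := Hull (f ∘ g) z (f z) with hLdef
  have hAc : sSup A ∈ A := G.mA.compact.sSup_mem G.mA.ne
  have hBc : sInf B ∈ B := G.mB.compact.sInf_mem G.mB.ne
  have hAL : (A ∩ L).Nonempty ∨ Disjoint A L := by
    rw [← not_disjoint_iff_nonempty_inter]
    exact (em _).symm
  have hBL : (B ∩ L).Nonempty ∨ Disjoint B L := by
    rw [← not_disjoint_iff_nonempty_inter]
    exact (em _).symm
  have hlast : ∀ C, Inv f g a b C → A ⊆ C → B ⊆ C → L ⊆ C := by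
    intro C hC hAC hBC
    have hzC : z ∈ C := hC.oc.out (hAC hAc) (hBC hBc) ⟨(bA' _ hAc).le, (bB' _ hBc).le⟩
    exact hull_sub hC.cl hC.oc (fun y hy => hC.hf (hC.hg hy)) hzC (hC.hf hzC)
  rcases hAL with hA | hA
  · rcases hBL with hB | hB
    · exact ⟨hL, inv_dis G.mA hL hA, inv_dis G.mB hL hB, hlast⟩
    · exact absurd (bA z (G.maxA L hL (inv_dis G.mA hL hA) hB.symm hzL)) (lt_irrefl z)
  · rcases hBL with hB | hB
    · exact absurd (bB z (G.maxB L hL (inv_dis G.mB hL hB) hA.symm hzL)) (lt_irrefl z)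
    · exfalso
      apply G.adj L hL
      constructor
      · by_contra hcon
        push Not at hcon
        exact (Set.disjoint_left.1 hA) hAc (hL.oc.out (hL.compact.sInf_mem hL.ne) hzL
          ⟨hcon, (bA' _ hAc).le⟩)
      · by_contra hcon
        push Not at hcon
        exact (Set.disjoint_left.1 hB) hBc (hL.oc.out hzL (hL.compact.sSup_mem hL.ne)
          ⟨(bB' _ hBc).le, hcon⟩)

end Pool.Agent.MP4545.Ex
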