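import Pool.Agent.Work.MP_4545a8_an.Ex.Defs

set_option autoImplicit false

/-!
MODULE Merge (medium). Two blocks that meet are contained in one block.

PROOF. First `(f ∘ g) '' P = P` for a block `P` of period `d`: `(f ∘ g)^d '' P = f^d '' (g^d '' P) = P`
(the maps commute) and `(f ∘ g) '' P ⊆ P`, so `P = (f ∘ g)^d '' P ⊆ (f ∘ g) '' P ⊆ P`. Hence
`g '' (f^(i+1) '' P) = f^i '' ((f ∘ g) '' P) = f^i '' P`.
Put `P i = f^i '' P` (`P (i+d) = P i`), `Q j = f^j '' Q` (`Q (j+e) = Q j`); all are closed (compact),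
order connected, nonempty. `P i`, `P i'` are disjoint if `i ≢ i' [MOD d]` (apply a power of `f` and use
`dj`), same for `Q`. Let `N i j` mean `(P i ∩ Q j).Nonempty`. `N i j ↔ N (i+1) (j+1)` (apply `f`, `g`).
`N 0 0` holds, so `N i i` for all `i`. Among the finitely many intervals `P i, Q j` let `V` be one
whose right endpoint `β` is minimal.
Case `V = P i0`: every `Q j` with `N i0 j` contains `β`. So `N i0 j ∧ N i0 j' → j ≡ j' [MOD e]`, by
shifting `N i j ∧ N i j' → j ≡ j' [MOD e]` for all `i`. As `P d = P 0`, `N 0 0` and `N 0 d`, so `e ∣ d`.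
Put `R = Q ∪ ⋃ k, P (k*e)`. Each `P (k*e)` meets `Q (k*e) = Q`, so `R` is order connected; it is
closed (finite union), `f ∘ g`-invariant, `f^e '' R = Q ∪ ⋃ k, P ((k+1)*e) = R`, `g^e '' R = R`, and
`R` is disjoint from `f^i '' R = Q i ∪ ⋃ k, P (k*e+i)` for `0 < i < e` (four easy cases: `Q 0, Q i`;
`Q 0, P (k*e+i)`: `N (k*e+i) (k*e+i)` and `N (k*e+i) 0` would give `i ≡ 0 [MOD e]`; `P (k*e), Q i`: the
same; `P (k*e), P (k'*e+i)`: `k*e ≢ k'*e+i [MOD d]` because `e ∣ d`). So `R` is a block of period `e`.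
Case `V = Q j0`: the same with the roles of `P` and `Q` exchanged.
-/

namespace Pool.Agent.MP4545.Ex

open Set Function Filter Topology
open Pool.Agent.MP4545

variable {f g : ℝ → ℝ} {a b : ℝ}

theorem Blk.himg (S : Sys f g a b) {d : ℕ} {P : Set ℝ} (hP : Blk f g d P) :
    (f ∘ g) '' P = P := by
  have hc : Function.Commute f g := S.comm
  have h1 : (f ∘ g)^[d] '' P = P := by
    rw [hc.comp_iterate, image_comp, hP.gg, hP.ff]
  apply Subset.antisymm (image_subset_iff.2 hP.hh)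
  obtain ⟨k, rfl⟩ : ∃ k, d = k + 1 := ⟨d - 1, by have := hP.two; omega⟩
  intro y hy
  rw [← h1] at hy
  obtain ⟨x, hx, rfl⟩ := hy
  rw [iterate_succ_apply']
  exact mem_image_of_mem _ (hP.hh.iterate k hx)

private theorem mg_add (f : ℝ → ℝ) (P : Set ℝ) (i j : ℕ) :
    f^[i] '' (f^[j] '' P) = f^[i + j] '' P := by
  rw [iterate_add, image_comp]

private theorem mg_per {d : ℕ} {P : Set ℝ} (hP : Blk f g d P) (i k : ℕ) :
    f^[i + d * k] '' P = f^[i] '' P := by
  induction k with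
  | zero => simp
  | succ k ih =>
    rw [Nat.mul_succ, ← add_assoc, ← mg_add, hP.ff, ih]

private theorem mg_mod {d : ℕ} {P : Set ℝ} (hP : Blk f g d P) {i j : ℕ} (h : i ≡ j [MOD d]) :
    f^[i] '' P = f^[j] '' P := by
  have h1 := mg_per hP (i % d) (i / d)
  have h2 := mg_per hP (j % d) (j / d)
  rw [Nat.mod_add_div] at h1 h2
  rw [h1, h2, h]

private theorem mg_g (S : Sys f g a b) {d : ℕ} {P : Set ℝ} (hP : Blk f g d P) (i : ℕ) :
    g '' (f^[i + 1] '' P) = f^[i] '' P := by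
  have hc : Function.Commute g f := fun x => (S.comm x).symm
  rw [← image_comp, (hc.iterate_right (i + 1)).comp_eq, iterate_succ, comp_assoc, image_comp,
    Blk.himg S hP]

private theorem mg_gk (S : Sys f g a b) {d : ℕ} {P : Set ℝ} (hP : Blk f g d P) (i k : ℕ) :
    g^[k] '' (f^[i + k] '' P) = f^[i] '' P := by
  induction k with
  | zero => simp
  | succ k ih =>
    rw [iterate_succ, image_comp, ← add_assoc, mg_g S hP, ih]

private theorem mg_hi (S : Sys f g a b) {d : ℕ} {P : Set ℝ} (hP : Blk f g d P) (i : ℕ) :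
    (f ∘ g) '' (f^[i] '' P) = f^[i] '' P := by
  have hc : Function.Commute g f := fun x => (S.comm x).symm
  have hc' : Function.Commute (f ∘ g) (f^[i]) := by
    intro x
    have h1 : g (f^[i] x) = f^[i] (g x) := (hc.iterate_right i).eq x
    change f (g (f^[i] x)) = f^[i] (f (g x))
    rw [h1]
    exact (iterate_succ_apply' f i (g x)).symm.trans (iterate_succ_apply f i (g x))
  rw [← image_comp, hc'.comp_eq, image_comp, Blk.himg S hP]

private theorem mg_disj {d : ℕ} {P : Set ℝ} (hP : Blk f g d P) {i j : ℕ}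
    (h : (f^[i] '' P ∩ f^[j] '' P).Nonempty) : i ≡ j [MOD d] := by
  have hd : 0 < d := by have := hP.two; omega
  obtain ⟨y, h1, h2⟩ := h
  obtain ⟨k, hk⟩ : ∃ k, i + k ≡ 0 [MOD d] := by
    refine ⟨(d - 1) * i, ?_⟩
    have e : i + (d - 1) * i = d * i := by
      obtain ⟨e, rfl⟩ : ∃ e, d = e + 1 := ⟨d - 1, by omega⟩
      simp only [Nat.add_sub_cancel]
      ring
    rw [e]
    exact (Nat.modEq_zero_iff_dvd).2 (dvd_mul_right d i)
  have h3 : f^[k] y ∈ f^[i + k] '' P := by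
    rw [add_comm, ← mg_add]
    exact mem_image_of_mem _ h1
  have h4 : f^[k] y ∈ f^[j + k] '' P := by
    rw [add_comm, ← mg_add]
    exact mem_image_of_mem _ h2
  rw [mg_mod hP hk] at h3
  have h5 : f^[0] '' P = P := by simp
  rw [h5] at h3
  have h6 : (j + k) % d = 0 := by
    by_contra hne
    have h7 := hP.dj ((j + k) % d) (Nat.pos_of_ne_zero hne) (Nat.mod_lt _ hd)
    rw [mg_mod hP (Nat.mod_modEq (j + k) d)] at h7
    exact Set.disjoint_left.1 h7 h3 h4
  have h8 : j + k ≡ 0 [MOD d] := h6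
  exact Nat.ModEq.add_right_cancel' k (hk.trans h8.symm)

private theorem mg_conn (S : Sys f g a b) {d : ℕ} {P : Set ℝ} (hP : Blk f g d P) (i : ℕ) :
    IsPreconnected (f^[i] '' P) :=
  (isPreconnected_iff_ordConnected.2 hP.oc).image _ (S.cf.iterate i).continuousOn

private theorem mg_comp (S : Sys f g a b) {d : ℕ} {P : Set ℝ} (hP : Blk f g d P) (i : ℕ) :
    IsCompact (f^[i] '' P) :=
  (hP.wall S).compact.image (S.cf.iterate i)

private theorem mg_shift (S : Sys f g a b) {d e : ℕ} {P Q : Set ℝ} (hP : Blk f g d P)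
    (hQ : Blk f g e Q) (i j k : ℕ) :
    (f^[i] '' P ∩ f^[j] '' Q).Nonempty ↔ (f^[i + k] '' P ∩ f^[j + k] '' Q).Nonempty := by
  constructor
  · rintro ⟨y, h1, h2⟩
    refine ⟨f^[k] y, ?_, ?_⟩
    · rw [add_comm, ← mg_add]
      exact mem_image_of_mem _ h1
    · rw [add_comm, ← mg_add]
      exact mem_image_of_mem _ h2
  · rintro ⟨y, h1, h2⟩
    refine ⟨g^[k] y, ?_, ?_⟩
    · rw [← mg_gk S hP i k]
      exact mem_image_of_mem _ h1
    · rw [← mg_gk S hQ j k]
      exact mem_image_of_mem _ h2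

/-- the case in which an interval of the orbit of `P` ends first -/
private theorem mg_aux (S : Sys f g a b) {d e : ℕ} {P Q : Set ℝ} (hP : Blk f g d P)
    (hQ : Blk f g e Q) (h : (P ∩ Q).Nonempty) (i0 : ℕ)
    (hmin : ∀ j, sSup (f^[i0] '' P) ≤ sSup (f^[j] '' Q)) :
    ∃ R, Blk f g e R ∧ P ⊆ R ∧ Q ⊆ R ∧
      R ⊆ (⋃ i : ℕ, f^[i] '' P) ∪ (⋃ i : ℕ, f^[i] '' Q) := by
  have hd : 0 < d := by have := hP.two; omega
  have he : 0 < e := by have := hQ.two; omega
  have e0 : ∀ X : Set ℝ, f^[0] '' X = X := fun X => by simp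
  have hN0 : ∀ i, (f^[i] '' P ∩ f^[i] '' Q).Nonempty := by
    intro i
    have h1 := (mg_shift S hP hQ 0 0 i).1 (by rw [e0, e0]; exact h)
    rwa [zero_add] at h1
  -- all `Q j` which meet `P i0` contain its right end point
  have hb : ∀ j, (f^[i0] '' P ∩ f^[j] '' Q).Nonempty → sSup (f^[i0] '' P) ∈ f^[j] '' Q := by
    rintro j ⟨z, hz1, hz2⟩
    have h1 : z ≤ sSup (f^[i0] '' P) := le_csSup (mg_comp S hP i0).bddAbove hz1
    have h2 : sSup (f^[j] '' Q) ∈ f^[j] '' Q := (mg_comp S hQ j).sSup_mem ⟨z, hz2⟩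
    exact (isPreconnected_iff_ordConnected.1 (mg_conn S hQ j)).out hz2 h2 ⟨h1, hmin j⟩
  have hN1 : ∀ i j j', (f^[i] '' P ∩ f^[j] '' Q).Nonempty → (f^[i] '' P ∩ f^[j'] '' Q).Nonempty →
      j ≡ j' [MOD e] := by
    intro i j j' h1 h2
    obtain ⟨k, hk⟩ : ∃ k, i + k ≡ i0 [MOD d] := by
      refine ⟨(d - 1) * i + i0, ?_⟩
      have e1 : i + ((d - 1) * i + i0) = i0 + d * i := by
        obtain ⟨c, rfl⟩ : ∃ c, d = c + 1 := ⟨d - 1, by omega⟩
        simp only [Nat.add_sub_cancel]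
        ring
      rw [e1]
      exact Nat.ModEq.symm ((Nat.modEq_iff_dvd' (Nat.le_add_right _ _)).2
        ⟨i, by rw [Nat.add_sub_cancel_left]⟩)
    have h3 := (mg_shift S hP hQ i j k).1 h1
    have h4 := (mg_shift S hP hQ i j' k).1 h2
    rw [mg_mod hP hk] at h3 h4
    have h5 := mg_disj hQ ⟨_, hb _ h3, hb _ h4⟩
    exact Nat.ModEq.add_right_cancel' k h5
  have hde : e ∣ d := by
    have h1 := hN0 d
    rw [mg_mod hP (show d ≡ 0 [MOD d] from by simp [Nat.ModEq])] at h1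
    exact (Nat.modEq_zero_iff_dvd).1 (hN1 0 d 0 h1 (hN0 0))
  -- the union
  obtain ⟨R, hR⟩ : ∃ R : Set ℝ, R = ⋃ k : ℕ, (Q ∪ f^[k * e] '' P) := ⟨_, rfl⟩
  have hRm : ∀ y, y ∈ R ↔ y ∈ Q ∨ ∃ k, y ∈ f^[k * e] '' P := by
    intro y
    rw [hR, mem_iUnion]
    constructor
    · rintro ⟨k, h1 | h1⟩
      · exact Or.inl h1
      · exact Or.inr ⟨k, h1⟩
    · rintro (h1 | ⟨k, h1⟩)
      · exact ⟨0, Or.inl h1⟩
      · exact ⟨k, Or.inr h1⟩
  have hRf : R = ⋃ k : Fin d, (Q ∪ f^[(k : ℕ) * e] '' P) := by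
    ext y
    rw [hRm, mem_iUnion]
    constructor
    · rintro (h1 | ⟨k, h1⟩)
      · exact ⟨⟨0, hd⟩, Or.inl h1⟩
      · refine ⟨⟨k % d, Nat.mod_lt _ hd⟩, Or.inr ?_⟩
        rw [mg_mod hP ((Nat.mod_modEq k d).mul_right e)]
        exact h1
    · rintro ⟨k, h1 | h1⟩
      · exact Or.inl h1
      · exact Or.inr ⟨k, h1⟩
  obtain ⟨y0, hy0⟩ := hQ.ne
  have hke : ∀ k, k * e ≡ 0 [MOD e] := fun k => (Nat.modEq_zero_iff_dvd).2 (dvd_mul_left e k)
  have hmeet : ∀ k, (f^[k * e] '' P ∩ Q).Nonempty := by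
    intro k
    have h1 := hN0 (k * e)
    rw [mg_mod hQ (hke k), e0] at h1
    exact h1
  have hQiff : ∀ i, f^[i + e] '' Q = f^[i] '' Q := fun i => mg_mod hQ (by simp [Nat.ModEq])
  have hblk : Blk f g e R := by
    refine { cl := ?_, oc := ?_, ne := ?_, hh := ?_, two := hQ.two, ff := ?_, gg := ?_, dj := ?_ }
    · rw [hRf]
      exact isClosed_iUnion_of_finite fun k => hQ.cl.union (mg_comp S hP _).isClosed
    · rw [← isPreconnected_iff_ordConnected, hR]
      apply isPreconnected_iUnion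
      · exact ⟨y0, mem_iInter.2 fun k => Or.inl hy0⟩
      · intro k
        obtain ⟨z, hz1, hz2⟩ := hmeet k
        exact IsPreconnected.union z hz2 hz1 (isPreconnected_iff_ordConnected.2 hQ.oc)
          (mg_conn S hP _)
    · exact ⟨y0, (hRm y0).2 (Or.inl hy0)⟩
    · intro y hy
      rcases (hRm y).1 hy with h1 | ⟨k, h1⟩
      · exact (hRm _).2 (Or.inl (hQ.hh h1))
      · refine (hRm _).2 (Or.inr ⟨k, ?_⟩)
        rw [← mg_hi S hP (k * e)]
        exact mem_image_of_mem _ h1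
    · apply Subset.antisymm
      · rintro _ ⟨y, hy, rfl⟩
        rcases (hRm y).1 hy with h1 | ⟨k, h1⟩
        · refine (hRm _).2 (Or.inl ?_)
          rw [← hQ.ff]
          exact mem_image_of_mem _ h1
        · refine (hRm _).2 (Or.inr ⟨k + 1, ?_⟩)
          rw [show (k + 1) * e = e + k * e by ring, ← mg_add]
          exact mem_image_of_mem _ h1
      · intro y hy
        rcases (hRm y).1 hy with h1 | ⟨k, h1⟩
        · rw [← hQ.ff] at h1
          obtain ⟨x, hx, rfl⟩ := h1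
          exact mem_image_of_mem _ ((hRm x).2 (Or.inl hx))
        · rw [← mg_per hP (k * e) e, show k * e + d * e = e + (k + (d - 1)) * e by
            obtain ⟨c, rfl⟩ : ∃ c, d = c + 1 := ⟨d - 1, by omega⟩
            simp only [Nat.add_sub_cancel]
            ring, ← mg_add] at h1
          obtain ⟨x, hx, rfl⟩ := h1
          exact mem_image_of_mem _ ((hRm x).2 (Or.inr ⟨_, hx⟩))
    · apply Subset.antisymm
      · rintro _ ⟨y, hy, rfl⟩
        rcases (hRm y).1 hy with h1 | ⟨k, h1⟩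
        · refine (hRm _).2 (Or.inl ?_)
          rw [← hQ.gg]
          exact mem_image_of_mem _ h1
        · refine (hRm _).2 (Or.inr ⟨k + (d - 1), ?_⟩)
          rw [← mg_per hP (k * e) e, show k * e + d * e = (k + (d - 1)) * e + e by
            obtain ⟨c, rfl⟩ : ∃ c, d = c + 1 := ⟨d - 1, by omega⟩
            simp only [Nat.add_sub_cancel]
            ring] at h1
          rw [← mg_gk S hP ((k + (d - 1)) * e) e]
          exact mem_image_of_mem _ h1
      · intro y hy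
        rcases (hRm y).1 hy with h1 | ⟨k, h1⟩
        · rw [← hQ.gg] at h1
          obtain ⟨x, hx, rfl⟩ := h1
          exact mem_image_of_mem _ ((hRm x).2 (Or.inl hx))
        · rw [← mg_gk S hP (k * e) e, show k * e + e = (k + 1) * e by ring] at h1
          obtain ⟨x, hx, rfl⟩ := h1
          exact mem_image_of_mem _ ((hRm x).2 (Or.inr ⟨_, hx⟩))
    · intro i hi hie
      have hi0 : ¬ i ≡ 0 [MOD e] := by
        intro h1
        have h2 : i % e = 0 := h1
        rw [Nat.mod_eq_of_lt hie] at h2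
        omega
      rw [Set.disjoint_left]
      rintro y hy ⟨x, hx, hxy⟩
      rcases (hRm y).1 hy with h1 | ⟨k, h1⟩
      · rcases (hRm x).1 hx with h2 | ⟨k', h2⟩
        · exact Set.disjoint_left.1 (hQ.dj i hi hie) h1 ⟨x, h2, hxy⟩
        · have h3 : y ∈ f^[i + k' * e] '' P := by
            rw [← mg_add, ← hxy]
            exact mem_image_of_mem _ h2
          have h4 := hN1 (i + k' * e) (i + k' * e) 0 (hN0 _) ⟨y, h3, by rw [e0]; exact h1⟩
          apply hi0
          have h5 : i + k' * e ≡ i + 0 [MOD e] := (hke k').add_left i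
          exact h5.symm.trans h4
      · rcases (hRm x).1 hx with h2 | ⟨k', h2⟩
        · have h3 : y ∈ f^[i] '' Q := ⟨x, h2, hxy⟩
          have h4 := hN1 (k * e) i (k * e) ⟨y, h1, h3⟩ (hN0 _)
          exact hi0 (h4.trans (hke k))
        · have h3 : y ∈ f^[i + k' * e] '' P := by
            rw [← mg_add, ← hxy]
            exact mem_image_of_mem _ h2
          have h4 := (mg_disj hP ⟨y, h1, h3⟩).of_dvd hde
          apply hi0
          have h5 : i + k' * e ≡ i + 0 [MOD e] := (hke k').add_left i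
          exact (h5.symm.trans h4.symm).trans (hke k)
  refine ⟨R, hblk, ?_, ?_, ?_⟩
  · intro y hy
    exact (hRm y).2 (Or.inr ⟨0, by rw [zero_mul, e0]; exact hy⟩)
  · intro y hy
    exact (hRm y).2 (Or.inl hy)
  · intro y hy
    rcases (hRm y).1 hy with h1 | ⟨k, h1⟩
    · exact Or.inr (mem_iUnion.2 ⟨0, by rw [e0]; exact h1⟩)
    · exact Or.inl (mem_iUnion.2 ⟨k * e, h1⟩)

private theorem mg_min {d : ℕ} {P : Set ℝ} (hP : Blk f g d P) :
    ∃ i0, ∀ j, sSup (f^[i0] '' P) ≤ sSup (f^[j] '' P) := by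
  have hd : 0 < d := by have := hP.two; omega
  obtain ⟨i0, -, h⟩ := Finset.exists_min_image (Finset.range d) (fun i => sSup (f^[i] '' P))
    ⟨0, Finset.mem_range.2 hd⟩
  refine ⟨i0, fun j => ?_⟩
  have h1 := h (j % d) (Finset.mem_range.2 (Nat.mod_lt _ hd))
  rwa [mg_mod hP (Nat.mod_modEq j d)] at h1

theorem merge (S : Sys f g a b) {d e : ℕ} {P Q : Set ℝ} (hP : Blk f g d P) (hQ : Blk f g e Q)
    (h : (P ∩ Q).Nonempty) :
    ∃ r R, Blk f g r R ∧ P ⊆ R ∧ Q ⊆ R ∧ R ⊆ (⋃ i : ℕ, f^[i] '' P) ∪ (⋃ i : ℕ, f^[i] '' Q) := by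
  obtain ⟨i0, hi0⟩ := mg_min hP
  obtain ⟨j0, hj0⟩ := mg_min hQ
  rcases le_total (sSup (f^[i0] '' P)) (sSup (f^[j0] '' Q)) with h1 | h1
  · obtain ⟨R, h2, h3, h4, h5⟩ := mg_aux S hP hQ h i0 (fun j => h1.trans (hj0 j))
    exact ⟨e, R, h2, h3, h4, h5⟩
  · obtain ⟨R, h2, h3, h4, h5⟩ := mg_aux S hQ hP (by rw [inter_comm]; exact h) j0
      (fun j => h1.trans (hi0 j))
    exact ⟨d, R, h2, h4, h3, by rw [union_comm]; exact h5⟩

end Pool.Agent.MP4545.Ex
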