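import Pool.Agent.Work.MP_4545a8_an.Ex.Dicho
import Pool.Agent.Work.MP_4545a8_an.Ex.Cover
import Pool.Agent.Work.MP_4545a8_an.Ex.Exist

set_option autoImplicit false

/-!
MODULE SLem (medium). In a minimal invariant interval `I` some fixed point `x` of `f ∘ g` has all its
hulls `K(x, f^m x)`, `m ≥ 1`, equal to `I`.

PROOF. Suppose not. Let `X = K f g ∩ I`, compact, nonempty (`inv_fix`), `f` maps `X` to `X` (`K_f`).
For `x ∈ X` there is `m ≥ 1` with `Hull x (f^m x) ≠ I`. All hulls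
`A i = Hull (f^i x) (f^(i+m) x)` are contained in `I` (`hull_sub`; `I` is closed, order connected,
`f ∘ g`-invariant and contains the orbit). Apply `dicho`. If `D = ⋂ i, A i` is an invariant interval,
`D ⊆ I` gives `D = I`, so `A 0 = I`, contradiction. So `x` lies in a block `Q ⊆ ⋃ A i ⊆ I`.
Apply `cover` with `Φ Q = (Q ⊆ I)` (the images `f^i '' P` of a block `P ⊆ I` are in `I`): a finite
family `Cs` of pairwise disjoint blocks contained in `I` covers `X`. It is nonempty as `X` is. Let `C`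
be the member with the least `sInf`. There is another member: take `x ∈ C ∩ X` (`C` is `f ∘ g`
invariant, so it contains a fixed point of `f ∘ g`; `C ⊆ I`); `f x ∈ X` and `f x ∉ C` because
`C` and `f '' C` are disjoint (`dj` with `i = 1`). Let `C'` be the member different from `C` with the
least `sInf`. Disjoint intervals: `sSup C < sInf C'`. By `between` (`Blk.wall`) there is `z ∈ K f g`
with `sSup C < z < sInf C'`; `z ∈ I`, so `z ∈ C''` for a member `C''` different from `C`, `C'`, and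
`sInf C'' ≤ z < sInf C'` contradicts the choice of `C'`.
-/

namespace Pool.Agent.MP4545.Ex

open Set Function Filter Topology
open Pool.Agent.MP4545

variable {f g : ℝ → ℝ} {a b : ℝ}

theorem s_lemma (S : Sys f g a b) (hno : NoCommon f g) {I : Set ℝ} (hI : MinInv f g a b I) :
    ∃ x ∈ K f g, x ∈ I ∧ ∀ m, 0 < m → Hull (f ∘ g) x (f^[m] x) = I := by
  by_contra hcon
  push Not at hcon
  have hKcl : IsClosed (K f g) := isClosed_eq (S.cf.comp S.cg) continuous_id
  have hXc : IsCompact (K f g ∩ I) := hI.compact.inter_left hKcl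
  have hmem : ∀ x ∈ I, ∀ n, f^[n] x ∈ I := fun x hx n => hI.hf.iterate n hx
  have hcov : ∀ x ∈ K f g ∩ I, ∃ d Q, Blk f g d Q ∧ Q ⊆ I ∧ x ∈ Q := by
    rintro x ⟨hx, hxI⟩
    obtain ⟨m, hm, hne⟩ := hcon x hx hxI
    have hsub : ∀ i, Hull (f ∘ g) (f^[i] x) (f^[i + m] x) ⊆ I := fun i =>
      hull_sub hI.cl hI.oc (fun y hy => hI.hf (hI.hg hy)) (hmem x hxI i) (hmem x hxI (i + m))
    rcases dicho S hno hx hm with h | ⟨d, Q, hQ, hxQ, hQs⟩
    · exfalso
      have h0 := (iInter_subset (fun i : ℕ => Hull (f ∘ g) (f^[i] x) (f^[i + m] x)) 0)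
      have h1 := hI.min _ h (h0.trans (hsub 0))
      apply hne
      apply Subset.antisymm
      · simpa using hsub 0
      · rw [← h1]
        simpa using h0
    · exact ⟨d, Q, hQ, hQs.trans (iUnion_subset hsub), hxQ⟩
  obtain ⟨Cs, h1, h2, h3, h4⟩ : ∃ Cs : Finset (Set ℝ), (∀ C ∈ Cs, ∃ d, Blk f g d C) ∧
      (∀ C ∈ Cs, C ⊆ I) ∧ (∀ C ∈ Cs, ∀ D ∈ Cs, C ≠ D → Disjoint C D) ∧
      ∀ x ∈ K f g ∩ I, ∃ C ∈ Cs, x ∈ C := by
    exact cover S hno (fun Q => Q ⊆ I) (by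
      intro d P e Q r R _ _ _ hP hQ hR
      refine hR.trans (union_subset (iUnion_subset fun i => ?_) (iUnion_subset fun i => ?_))
      · rintro _ ⟨y, hy, rfl⟩
        exact hmem y (hP hy) i
      · rintro _ ⟨y, hy, rfl⟩
        exact hmem y (hQ hy) i) hXc inter_subset_left hcov
  obtain ⟨x0, hx0I, hx0K⟩ := inv_fix S hI.toInv
  obtain ⟨C0, hC0, -⟩ := h4 x0 ⟨hx0K, hx0I⟩
  obtain ⟨C, hC, hCmin⟩ := Cs.exists_min_image sInf ⟨C0, hC0⟩
  obtain ⟨d, hd⟩ := h1 C hC
  have cC : IsCompact C := (hd.wall S).compact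
  have e1 : sInf C ∈ C := cC.sInf_mem hd.ne
  have e2 : sSup C ∈ C := cC.sSup_mem hd.ne
  have hle : sInf C ≤ sSup C := csInf_le cC.bddBelow e2
  have cF : Continuous (fun x => f (g x) - x) := (S.cf.comp S.cg).sub continuous_id
  obtain ⟨x, hx, ex⟩ := ivt_zero cF hle
    (sub_nonneg.2 (csInf_le cC.bddBelow (hd.hh e1)))
    (sub_nonpos.2 (le_csSup cC.bddAbove (hd.hh e2)))
  have hxC : x ∈ C := hd.oc.out e1 e2 hx
  have hxK : x ∈ K f g := sub_eq_zero.1 ex
  obtain ⟨D, hD, hfD⟩ := h4 (f x) ⟨K_f S hxK, hI.hf (h2 C hC hxC)⟩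
  have hDC : D ≠ C := by
    rintro rfl
    have := hd.dj 1 one_pos (by have := hd.two; omega)
    rw [Set.disjoint_left] at this
    exact this hfD ⟨x, hxC, rfl⟩
  obtain ⟨C', hC', hC'min⟩ := (Cs.filter fun E => E ≠ C).exists_min_image sInf
    ⟨D, Finset.mem_filter.2 ⟨hD, hDC⟩⟩
  rw [Finset.mem_filter] at hC'
  obtain ⟨d', hd'⟩ := h1 C' hC'.1
  have cC' : IsCompact C' := (hd'.wall S).compact
  have f1 : sInf C' ∈ C' := cC'.sInf_mem hd'.ne
  have hlt : sSup C < sInf C' := by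
    by_contra hge
    have h5 : sInf C' ∈ C := hd.oc.out e1 e2 ⟨hCmin C' hC'.1, not_lt.1 hge⟩
    exact Set.disjoint_left.1 (h3 C hC C' hC'.1 (Ne.symm hC'.2)) h5 f1
  obtain ⟨z, hzK, hz1, hz2⟩ := between S hno (hd.wall S) (hd'.wall S) hlt
  have hzI : z ∈ I := hI.oc.out (h2 C hC e2) (h2 C' hC'.1 f1) ⟨hz1.le, hz2.le⟩
  obtain ⟨E, hE, hzE⟩ := h4 z ⟨hzK, hzI⟩
  have hEC : E ≠ C := by
    rintro rfl
    exact absurd (le_csSup cC.bddAbove hzE) (not_le.2 hz1)
  obtain ⟨e, he⟩ := h1 E hE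
  have h6 := hC'min E (Finset.mem_filter.2 ⟨hE, hEC⟩)
  have h7 : sInf E ≤ z := csInf_le (he.wall S).compact.bddBelow hzE
  exact absurd (h6.trans h7) (not_le.2 hz2)

end Pool.Agent.MP4545.Ex
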