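import Pool.Agent.Work.MP_4545a8_an.Ex.Upg
import Pool.Agent.Work.MP_4545a8_an.Ex.SLem
import Pool.Agent.Work.MP_4545a8_an.NonCross

/-!
MODULE MixWord (medium). If `F ∘ G` is exact on `[0,1]` then so are all `F^k ∘ G^l`, `k, l ≥ 1`.

PROOF of `exact_le` (`1 ≤ k ≤ l`). Put `G' = F^(k-1) ∘ G^l`. File NonCross.lean: `sys_word` gives
`Sys F G' 0 1`, `noCommon_word` gives `NoCommon F G'` (its hypothesis
`∀ x ∈ Icc 0 1, x ∉ periodicPts F ∩ periodicPts G` follows from `hno`, `mem_periodicPts`), and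
`word_comp` gives `F ∘ G' = F^k ∘ G^l`. As `k ≤ l`: `F^(l-k+1) ∘ G' = F^l ∘ G^l = (F ∘ G)^l`
(the maps commute), so `(F ∘ G)^(l*n) = G'^n ∘ F^((l-k+1)*n)`.
(1) `Icc 0 1` is a minimal invariant interval of `(F, G')`: let `D ⊆ Icc 0 1` be `Inv F G' 0 1`. It is
invariant under `(F ∘ G)^l`. `D = Icc u v` (`eq_Icc`). If `u = v` then `F u = u = G' u`, against
`NoCommon F G'`. If `u < v` then `(F ∘ G)^(l*n) '' D = Icc 0 1` for large `n` (hypothesis `hex`; take
`n ≥ N`, then `l*n ≥ N`), so `D = Icc 0 1`.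
(2) `s_lemma` gives `x` with all hulls of `(F, G')` equal to `Icc 0 1`; `Core F G' 0 1 x 0 1`
(`ff`, `gg` from `minInv_Icc`).
(3) Every `Icc p q`, `0 ≤ p < q ≤ 1`, is `Big F G' x`: for some `n`,
`G'^n '' (F^((l-k+1)*n) '' Icc p q) = Icc 0 1`, which is big (`big_Icc`); use `big_gn`, `big_fn` of
module BigL.
(4) `Mixing F G'`: for `ε > 0` apply `cover_big` with `s = ε`, `t = 1 - ε`. (5) `upgrade` for `(F, G')`.
PROOF of `exact_all`: if `k ≤ l` this is `exact_le`; if `l < k` apply `exact_le` to `(G, F)` and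
`(l, k)` (`Sys.swap`, `noCommon_swap`, `swap_comp`), `G^l ∘ F^k = F^k ∘ G^l` (commuting iterates).
-/

set_option autoImplicit false

namespace Pool.Agent.MP4545.Ex

open Set Function Filter Topology
open Pool.Agent.MP4545

theorem exact_le {F G : ℝ → ℝ} (S : Sys F G 0 1) (hno : NoCommon F G)
    (hex : ∀ p q : ℝ, 0 ≤ p → p < q → q ≤ 1 →
      ∃ N, ∀ n, N ≤ n → (F ∘ G)^[n] '' Icc p q = Icc (0 : ℝ) 1)
    {k l : ℕ} (hk : 0 < k) (hkl : k ≤ l) {p q : ℝ} (hp : 0 ≤ p) (hpq : p < q) (hq : q ≤ 1) :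
    ∃ N, ∀ n, N ≤ n → (F^[k] ∘ G^[l])^[n] '' Icc p q = Icc (0 : ℝ) 1 := by
  have hl : 0 < l := by omega
  have hc : Function.Commute F G := S.comm
  obtain ⟨j, rfl⟩ : ∃ j, k = j + 1 := ⟨k - 1, by omega⟩
  obtain ⟨i, rfl⟩ : ∃ i, l = i + j := ⟨l - j, by omega⟩
  have hi : 0 < i := by omega
  have S' : Sys F (F^[j] ∘ G^[i + j]) 0 1 := sys_word S j hl
  have hno' : NoCommon F (F^[j] ∘ G^[i + j]) := by
    apply noCommon_word S j hl
    rintro x - ⟨h1, h2⟩
    obtain ⟨n, hn, hn'⟩ := mem_periodicPts.1 h1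
    obtain ⟨m, hm, hm'⟩ := mem_periodicPts.1 h2
    exact hno x n m hn hm hn' hm'
  set G' : ℝ → ℝ := F^[j] ∘ G^[i + j] with hG'
  have hFG' : F ∘ G' = F^[j + 1] ∘ G^[i + j] := word_comp j (i + j)
  have hc' : Function.Commute G' F^[i] := by
    have h1 : Function.Commute F G' := S'.comm
    exact h1.symm.iterate_right i
  have hpow : (F ∘ G)^[i + j] = G' ∘ F^[i] := by
    rw [hc.comp_iterate, ← hc'.comp_eq.symm, hG', ← comp_assoc, ← iterate_add]
  have hpown : ∀ n, (F ∘ G)^[(i + j) * n] = G'^[n] ∘ F^[i * n] := by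
    intro n
    rw [iterate_mul, hpow, hc'.comp_iterate, iterate_mul]
  -- minimality
  have hmin : MinInv F G' 0 1 (Icc 0 1) :=
    { cl := isClosed_Icc
      oc := ordConnected_Icc
      ne := ⟨0, left_mem_Icc.2 zero_le_one⟩
      sub := Subset.rfl
      hf := fun x _ => S'.rf x
      hg := fun x _ => S'.rg x
      min := by
        intro D hD hDs
        have hD' := eq_Icc hD.compact hD.oc hD.ne
        have h0 := hD.compact.sInf_mem hD.ne
        have h1 := hD.compact.sSup_mem hD.ne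
        have hle : sInf D ≤ sSup D := csInf_le hD.compact.bddBelow h1
        rcases eq_or_lt_of_le hle with heq | hlt
        · exfalso
          have hall : ∀ y ∈ D, y = sInf D := by
            intro y hy
            rw [hD', ← heq, Icc_self] at hy
            exact hy
          exact hno' (sInf D) 1 1 one_pos one_pos (hall _ (hD.hf h0)) (hall _ (hD.hg h0))
        · obtain ⟨N, hN⟩ := hex (sInf D) (sSup D) (hDs h0).1 hlt (hDs h1).2
          have h2 := hN ((i + j) * N) (by nlinarith)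
          rw [← hD'] at h2
          apply Subset.antisymm hDs
          rw [← h2, hpown]
          rintro _ ⟨y, hy, rfl⟩
          exact hD.hg.iterate N (hD.hf.iterate (i * N) hy) }
  obtain ⟨x, hxK, -, hxH⟩ := s_lemma S' hno' hmin
  obtain ⟨-, -, -, -, hff, hgg⟩ := minInv_Icc S' hno' hmin
  have hC : Core F G' 0 1 x 0 1 :=
    { hx := hxK
      lt := zero_lt_one
      sub := Subset.rfl
      ff := hff
      gg := hgg
      hull := hxH }
  have hbig : ∀ p q : ℝ, 0 ≤ p → p < q → q ≤ 1 → Big F G' x (Icc p q) := by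
    intro p q hp hpq hq
    obtain ⟨N, hN⟩ := hex p q hp hpq hq
    have h2 := hN ((i + j) * N) (by nlinarith)
    rw [hpown, image_comp] at h2
    have h3 := big_Icc S' hno' hC
    rw [← h2, big_gn S' hC, big_fn S' hC] at h3
    exact h3
  have hmix : Mixing F G' := by
    intro p q hp hpq hq ε hε
    exact cover_big S' hno' hC ordConnected_Icc (hbig p q hp hpq hq) hε (by linarith)
  obtain ⟨N, hN⟩ := upgrade S' hno' hmix hff hgg hp hpq hq
  refine ⟨N, fun n hn => ?_⟩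
  rw [← hFG']
  exact hN n hn

theorem exact_all {F G : ℝ → ℝ} (S : Sys F G 0 1) (hno : NoCommon F G)
    (hex : ∀ p q : ℝ, 0 ≤ p → p < q → q ≤ 1 →
      ∃ N, ∀ n, N ≤ n → (F ∘ G)^[n] '' Icc p q = Icc (0 : ℝ) 1)
    {k l : ℕ} (hk : 0 < k) (hl : 0 < l) {p q : ℝ} (hp : 0 ≤ p) (hpq : p < q) (hq : q ≤ 1) :
    ∃ N, ∀ n, N ≤ n → (F^[k] ∘ G^[l])^[n] '' Icc p q = Icc (0 : ℝ) 1 := by
  rcases le_or_gt k l with h | h
  · exact exact_le S hno hex hk h hp hpq hq
  · have hc : Function.Commute F G := S.comm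
    have h1 := exact_le S.swap (noCommon_swap hno) (by rw [swap_comp S]; exact hex) hl h.le
      hp hpq hq
    have h2 : G^[l] ∘ F^[k] = F^[k] ∘ G^[l] := ((hc.iterate_iterate k l).comp_eq).symm
    rw [h2] at h1
    exact h1

end Pool.Agent.MP4545.Ex
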