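import Pool.Agent.Work.MP_4545a8_an.Ex.HullIt
import Pool.Agent.Work.MP_4545a8_an.Dyn

set_option autoImplicit false

/-!
MODULE Strong (medium). The orbit of a core point `x` (see `Core` in Defs).

PROOFS. `orb_K`, `orb_Icc`: `K_fn`, `K_gn`; `x ∈ Icc c d` since `x ∈ Hull = Icc c d`
(`left_mem_hull`), and `f, g` map `Icc c d` to itself (`ff`, `gg`).
`orb_f`: if `y = f^n x` then `f y = f^(n+1) x`; if `y = g^(n+1) x` then `f y = g^n x` (`fg`), if
`y = g^0 x` then `f y = f^1 x`. `orb_g` in the same way (`gf`).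
`orb_hull`: for two different points `y, y'` of the orbit `Hull (f ∘ g) y y' = Icc c d`. One may write
(up to order) `y = f^i x`, `y' = f^j x` with `i < j`, then `Hull y y' = f^i '' Hull x (f^(j-i) x) =
f^i '' Icc c d = Icc c d` (`img_it`); or `y = g^i x`, `y' = f^j x`, `i + j > 0`, then
`Hull y y' = g^i '' Hull x (f^(i+j) x)` (`gn_fn`); or `y = g^i x`, `y' = g^j x`, `i > j`: `y' =
g^i (f^(i-j) x)`, again `g^i '' Hull x (f^(i-j) x)`. Use `hull_symm` for the order.
`orb_three`: infinitely many points: the `f^n x` are pairwise different (`not_per`, injectivity of `f`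
on `K`); so at least three of them are in the open interval `(c,d)`.
`cover_pair`: `V = ⋃ n, h^n '' uIcc y y'` (`h = f ∘ g`) is an increasing union of intervals containing
`y` (`h y = y`, `h y' = y'`, so `uIcc y y' ⊆ h '' uIcc y y'`), hence order connected, and invariant
under `h`; its closure is closed, order connected, `h`-invariant and contains `y, y'`, so it contains
`Hull y y' = Icc c d`. Hence `V` contains points `< s` and `> t` (`c < s`, `t < d`), both are in
`h^N '' uIcc y y'` for some `N`, then `Icc s t ⊆ h^n '' uIcc y y'` for `n ≥ N`.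
`cover_big`: if `y ≠ y'` are in `h^n0 '' J`, `J` order connected, then `uIcc y y' ⊆ h^n0 '' J`; apply
`cover_pair`.
-/

namespace Pool.Agent.MP4545.Ex

open Set Function Filter Topology
open Pool.Agent.MP4545

variable {f g : ℝ → ℝ} {a b x c d : ℝ}

lemma orb_K (S : Sys f g a b) (hC : Core f g a b x c d) {y : ℝ} (hy : y ∈ Orb f g x) :
    y ∈ K f g := by
  obtain ⟨n, rfl | rfl⟩ := hy
  · exact K_fn S hC.hx n
  · exact K_gn S hC.hx n

lemma core_mem (hC : Core f g a b x c d) : x ∈ Icc c d := by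
  rw [← hC.hull 1 one_pos]
  exact left_mem_hull _ _ _

lemma core_f (hC : Core f g a b x c d) : MapsTo f (Icc c d) (Icc c d) := fun y hy => by
  rw [← hC.ff]; exact mem_image_of_mem _ hy

lemma core_g (hC : Core f g a b x c d) : MapsTo g (Icc c d) (Icc c d) := fun y hy => by
  rw [← hC.gg]; exact mem_image_of_mem _ hy

lemma orb_Icc (S : Sys f g a b) (hC : Core f g a b x c d) {y : ℝ} (hy : y ∈ Orb f g x) :
    y ∈ Icc c d := by
  obtain ⟨n, rfl | rfl⟩ := hy
  · exact (core_f hC).iterate n (core_mem hC)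
  · exact (core_g hC).iterate n (core_mem hC)

lemma orb_f (S : Sys f g a b) (hC : Core f g a b x c d) {y : ℝ} (hy : y ∈ Orb f g x) :
    f y ∈ Orb f g x := by
  obtain ⟨n, rfl | rfl⟩ := hy
  · exact ⟨n + 1, Or.inl (iterate_succ_apply' f n x).symm⟩
  · cases n with
    | zero => exact ⟨1, Or.inl rfl⟩
    | succ n =>
      refine ⟨n, Or.inr ?_⟩
      rw [iterate_succ_apply', fg S (K_gn S hC.hx n)]

lemma orb_g (S : Sys f g a b) (hC : Core f g a b x c d) {y : ℝ} (hy : y ∈ Orb f g x) :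
    g y ∈ Orb f g x := by
  obtain ⟨n, rfl | rfl⟩ := hy
  · cases n with
    | zero => exact ⟨1, Or.inr rfl⟩
    | succ n =>
      refine ⟨n, Or.inl ?_⟩
      rw [iterate_succ_apply', gf S (K_fn S hC.hx n)]
  · exact ⟨n + 1, Or.inr (iterate_succ_apply' g n x).symm⟩

lemma core_fn (hC : Core f g a b x c d) (n : ℕ) : f^[n] '' Icc c d = Icc c d := by
  induction n with
  | zero => simp
  | succ n ih => rw [iterate_succ', image_comp, ih, hC.ff]

lemma core_gn (hC : Core f g a b x c d) (n : ℕ) : g^[n] '' Icc c d = Icc c d := by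
  induction n with
  | zero => simp
  | succ n ih => rw [iterate_succ', image_comp, ih, hC.gg]

lemma core_hull_g (S : Sys f g a b) (hC : Core f g a b x c d) {m : ℕ} (hm : 0 < m) :
    Hull (f ∘ g) x (g^[m] x) = Icc c d := by
  have h1 := img_it' S (K_fn S hC.hx m) hC.hx m
  rw [gn_fn S hC.hx, hull_symm _ (f^[m] x) x, hC.hull m hm, core_gn hC] at h1
  exact h1.symm

lemma orb_hull_ff (S : Sys f g a b) (hC : Core f g a b x c d) {i j : ℕ} (hij : i < j) :
    Hull (f ∘ g) (f^[i] x) (f^[j] x) = Icc c d := by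
  have h1 := img_it S hC.hx (K_fn S hC.hx (j - i)) i
  rw [hC.hull (j - i) (by omega), core_fn hC, ← iterate_add_apply,
    show i + (j - i) = j by omega] at h1
  exact h1.symm

lemma orb_hull_gg (S : Sys f g a b) (hC : Core f g a b x c d) {i j : ℕ} (hij : i < j) :
    Hull (f ∘ g) (g^[i] x) (g^[j] x) = Icc c d := by
  have h1 := img_it' S hC.hx (K_gn S hC.hx (j - i)) i
  rw [core_hull_g S hC (by omega), core_gn hC, ← iterate_add_apply,
    show i + (j - i) = j by omega] at h1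
  exact h1.symm

lemma orb_hull_fg (S : Sys f g a b) (hC : Core f g a b x c d) {i j : ℕ} (hij : 0 < i + j) :
    Hull (f ∘ g) (f^[i] x) (g^[j] x) = Icc c d := by
  have h1 := img_it' S (K_fn S (K_fn S hC.hx i) j) hC.hx j
  rw [gn_fn S (K_fn S hC.hx i), hull_symm _ (f^[j] (f^[i] x)) x, ← iterate_add_apply,
    hC.hull (j + i) (by omega), core_gn hC] at h1
  exact h1.symm

theorem orb_hull (S : Sys f g a b) (hno : NoCommon f g) (hC : Core f g a b x c d) {y y' : ℝ}
    (hy : y ∈ Orb f g x) (hy' : y' ∈ Orb f g x) (hne : y ≠ y') :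
    Hull (f ∘ g) y y' = Icc c d := by
  obtain ⟨i, rfl | rfl⟩ := hy <;> obtain ⟨j, rfl | rfl⟩ := hy'
  · rcases lt_trichotomy i j with h | h | h
    · exact orb_hull_ff S hC h
    · exact absurd (by rw [h]) hne
    · rw [hull_symm]; exact orb_hull_ff S hC h
  · rcases Nat.eq_zero_or_pos (i + j) with h | h
    · have hi : i = 0 := by omega
      have hj : j = 0 := by omega
      subst hi; subst hj
      exact absurd rfl hne
    · exact orb_hull_fg S hC h
  · rcases Nat.eq_zero_or_pos (j + i) with h | h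
    · have hi : i = 0 := by omega
      have hj : j = 0 := by omega
      subst hi; subst hj
      exact absurd rfl hne
    · rw [hull_symm]; exact orb_hull_fg S hC h
  · rcases lt_trichotomy i j with h | h | h
    · exact orb_hull_gg S hC h
    · exact absurd (by rw [h]) hne
    · rw [hull_symm]; exact orb_hull_gg S hC h

lemma orb_inj (S : Sys f g a b) (hno : NoCommon f g) (hC : Core f g a b x c d) :
    Injective (fun n => f^[n] x) := by
  intro i j hij
  simp only at hij
  by_contra hne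
  rcases lt_or_gt_of_ne hne with h | h
  · have h1 : g^[i] (f^[i] x) = g^[i] (f^[j] x) := by rw [hij]
    rw [gn_fn S hC.hx, show j = i + (j - i) by omega, iterate_add_apply,
      gn_fn S (K_fn S hC.hx _)] at h1
    exact not_per S hno hC.hx (by omega) h1.symm
  · have h1 : g^[j] (f^[j] x) = g^[j] (f^[i] x) := by rw [hij]
    rw [gn_fn S hC.hx, show i = j + (i - j) by omega, iterate_add_apply,
      gn_fn S (K_fn S hC.hx _)] at h1
    exact not_per S hno hC.hx (by omega) h1.symm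

theorem orb_three (S : Sys f g a b) (hno : NoCommon f g) (hC : Core f g a b x c d) :
    ∃ y₁ ∈ Orb f g x, ∃ y₂ ∈ Orb f g x, ∃ y₃ ∈ Orb f g x,
      c < y₁ ∧ y₁ < y₂ ∧ y₂ < y₃ ∧ y₃ < d := by
  have hinf : (range (fun n => f^[n] x) \ {c, d}).Infinite :=
    (infinite_range_of_injective (orb_inj S hno hC)).diff (toFinite _)
  obtain ⟨y₁, y₂, y₃, y₄, h1, h2, h3, h4, h12, h23, h34⟩ := exists_four hinf
  have key : ∀ y ∈ range (fun n => f^[n] x) \ {c, d}, y ∈ Orb f g x ∧ c < y ∧ y < d := by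
    rintro y ⟨⟨n, rfl⟩, hy⟩
    have ho : f^[n] x ∈ Orb f g x := ⟨n, Or.inl rfl⟩
    have hI := orb_Icc S hC ho
    simp only [mem_insert_iff, mem_singleton_iff, not_or] at hy
    exact ⟨ho, lt_of_le_of_ne hI.1 (Ne.symm hy.1), lt_of_le_of_ne hI.2 hy.2⟩
  exact ⟨y₁, (key _ h1).1, y₂, (key _ h2).1, y₃, (key _ h3).1, (key _ h1).2.1, h12, h23,
    (key _ h3).2.2⟩

lemma h_fix (S : Sys f g a b) (hC : Core f g a b x c d) {y : ℝ} (hy : y ∈ Orb f g x) (n : ℕ) :
    (f ∘ g)^[n] y = y := iterate_fixed (show (f ∘ g) y = y from orb_K S hC hy) n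

lemma h_img_ord (S : Sys f g a b) {J : Set ℝ} (hJ : OrdConnected J) (n : ℕ) :
    OrdConnected ((f ∘ g)^[n] '' J) :=
  isPreconnected_iff_ordConnected.1 ((isPreconnected_iff_ordConnected.2 hJ).image _
    (((S.cf.comp S.cg).iterate n).continuousOn))

theorem cover_pair (S : Sys f g a b) (hno : NoCommon f g) (hC : Core f g a b x c d) {y y' : ℝ}
    (hy : y ∈ Orb f g x) (hy' : y' ∈ Orb f g x) (hne : y ≠ y') {s t : ℝ} (hs : c < s)
    (ht : t < d) : ∃ N, ∀ n, N ≤ n → Icc s t ⊆ (f ∘ g)^[n] '' uIcc y y' := by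
  have ch : Continuous (f ∘ g) := S.cf.comp S.cg
  set J : ℕ → Set ℝ := fun n => (f ∘ g)^[n] '' uIcc y y' with hJ
  have hord : ∀ n, OrdConnected (J n) := fun n => h_img_ord S ordConnected_uIcc n
  have hyJ : ∀ n, y ∈ J n := fun n => ⟨y, left_mem_uIcc, h_fix S hC hy n⟩
  have hy'J : ∀ n, y' ∈ J n := fun n => ⟨y', right_mem_uIcc, h_fix S hC hy' n⟩
  have hmono1 : ∀ n, J n ⊆ J (n + 1) := by
    intro n
    have h1 : uIcc y y' ⊆ (f ∘ g)^[1] '' uIcc y y' :=
      (hord 1).uIcc_subset (hyJ 1) (hy'J 1)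
    calc J n = (f ∘ g)^[n] '' uIcc y y' := rfl
      _ ⊆ (f ∘ g)^[n] '' ((f ∘ g)^[1] '' uIcc y y') := image_mono h1
      _ = J (n + 1) := by rw [← image_comp, ← iterate_add]
  have hmono : Monotone J := monotone_nat_of_le_succ hmono1
  set V : Set ℝ := ⋃ n, J n with hV
  have hVpre : IsPreconnected V :=
    isPreconnected_iUnion ⟨y, mem_iInter.2 hyJ⟩ fun n =>
      isPreconnected_iff_ordConnected.2 (hord n)
  have hVinv : MapsTo (f ∘ g) V V := by
    intro u hu
    obtain ⟨n, hn⟩ := mem_iUnion.1 hu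
    obtain ⟨w, hw, rfl⟩ := hn
    exact mem_iUnion.2 ⟨n + 1, w, hw, iterate_succ_apply' (f ∘ g) n w⟩
  have hcl : Icc c d ⊆ closure V := by
    rw [← orb_hull S hno hC hy hy' hne]
    apply hull_sub isClosed_closure (isPreconnected_iff_ordConnected.1 hVpre.closure)
    · exact fun u hu => hVinv.closure ch hu
    · exact subset_closure (mem_iUnion.2 ⟨0, hyJ 0⟩)
    · exact subset_closure (mem_iUnion.2 ⟨0, hy'J 0⟩)
  have hcd : c ≤ d := hC.lt.le
  obtain ⟨v, hvs, hv⟩ := mem_closure_iff.1 (hcl (left_mem_Icc.2 hcd)) (Iio s) isOpen_Iio hs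
  obtain ⟨v', hvt, hv'⟩ := mem_closure_iff.1 (hcl (right_mem_Icc.2 hcd)) (Ioi t) isOpen_Ioi ht
  obtain ⟨n1, hn1⟩ := mem_iUnion.1 hv
  obtain ⟨n2, hn2⟩ := mem_iUnion.1 hv'
  refine ⟨max n1 n2, fun n hn => ?_⟩
  intro z hz
  exact (hord n).out (hmono (le_trans (le_max_left _ _) hn) hn1)
    (hmono (le_trans (le_max_right _ _) hn) hn2) ⟨le_trans (le_of_lt hvs) hz.1,
      le_trans hz.2 (le_of_lt hvt)⟩

theorem cover_big (S : Sys f g a b) (hno : NoCommon f g) (hC : Core f g a b x c d) {J : Set ℝ}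
    (hJ : OrdConnected J) (hB : Big f g x J) {s t : ℝ} (hs : c < s) (ht : t < d) :
    ∃ N, ∀ n, N ≤ n → Icc s t ⊆ (f ∘ g)^[n] '' J := by
  obtain ⟨n0, y, hy, y', hy', hne, h1, h2⟩ := hB
  have h3 : uIcc y y' ⊆ (f ∘ g)^[n0] '' J := (h_img_ord S hJ n0).uIcc_subset h1 h2
  obtain ⟨N, hN⟩ := cover_pair S hno hC hy hy' hne hs ht
  refine ⟨N + n0, fun n hn => ?_⟩
  calc Icc s t ⊆ (f ∘ g)^[n - n0] '' uIcc y y' := hN _ (by omega)
    _ ⊆ (f ∘ g)^[n - n0] '' ((f ∘ g)^[n0] '' J) := image_mono h3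
    _ = (f ∘ g)^[n] '' J := by
      rw [← image_comp, ← iterate_add, show n - n0 + n0 = n by omega]

end Pool.Agent.MP4545.Ex
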