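import Pool.Agent.Work.MP_4545a8_an.Ex.GapDef
import Pool.Agent.Work.MP_4545a8_an.Ex.Adj

/-!
MODULE U1 (medium). Construction of a `Gap` (file GapDef) from two disjoint invariant intervals.

PROOF of `exists_maxInv`. Let `U` be the union of all `C` with `Inv f g a b C`, `A ⊆ C`,
`Disjoint C B`. All these `C` contain the nonempty set `A`, so `U` is order connected. `E = closure U`
is closed, order connected (closure of a preconnected set), in `[a,b]`, invariant (continuity). `U` is
disjoint from `B`. Suppose `E` meets `B`. Then `B ⊆ E` (`inv_dis`). `B = Icc b0 b1` with `b0 < b1`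
(`minInv_Icc`). `U` is order connected and disjoint from `B`, so `U ⊆ Iio b0` or `U ⊆ Ioi b1`, so
`E ⊆ Iic b0` or `E ⊆ Ici b1`, against `b1 ∈ E`, `b0 ∈ E`.
PROOF of `exists_gap`. Take `A', B'` from `exists_adj` (call them `A, B`), they are disjoint; `EA` from
`exists_maxInv` for `(A, B)` and `EB` from `exists_maxInv` for `(B, A)`. It remains to show
`sSup EA < sInf EB`. First `EA ∩ EB = ∅`: otherwise it is an invariant interval (`inv_inter`), take a
minimal `D ⊆ EA ∩ EB`. `EA` is order connected, contains `A` and is disjoint from `B`, so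
`EA ⊆ Iio (sInf B)`; in the same way `EB ⊆ Ioi (sSup A)`. `D` is compact, so
`sSup A < sInf D` and `sSup D < sInf B`, against the last clause of `exists_adj`. So `EA`, `EB` are
disjoint compact intervals, and as `A ⊆ EA` is to the left of `B ⊆ EB`, `sSup EA < sInf EB`.
-/

set_option autoImplicit false

namespace Pool.Agent.MP4545.Ex

open Set Function Filter Topology
open Pool.Agent.MP4545

variable {f g : ℝ → ℝ} {a b : ℝ}

theorem exists_maxInv (S : Sys f g a b) (hno : NoCommon f g) {A B : Set ℝ}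
    (hA : MinInv f g a b A) (hB : MinInv f g a b B) (hd : Disjoint A B) :
    ∃ E, Inv f g a b E ∧ A ⊆ E ∧ Disjoint E B ∧
      ∀ C, Inv f g a b C → A ⊆ C → Disjoint C B → C ⊆ E := by
  set Cs : Set (Set ℝ) := {C | Inv f g a b C ∧ A ⊆ C ∧ Disjoint C B} with hCs
  have hACs : A ∈ Cs := ⟨hA.toInv, Subset.rfl, hd⟩
  set U : Set ℝ := ⋃₀ Cs with hU
  obtain ⟨x0, hx0⟩ := hA.ne
  have hUp : IsPreconnected U := by
    refine isPreconnected_sUnion x0 Cs (fun C hC => hC.2.1 hx0) ?_
    intro C hC
    exact isPreconnected_iff_ordConnected.2 hC.1.oc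
  have hUB : Disjoint U B := by
    rw [Set.disjoint_left]
    rintro y ⟨C, hC, hyC⟩ hyB
    exact Set.disjoint_left.1 hC.2.2 hyC hyB
  have hAU : A ⊆ U := subset_sUnion_of_mem hACs
  have hEf : MapsTo f (closure U) (closure U) := by
    have h1 : MapsTo f U U := by
      rintro y ⟨C, hC, hyC⟩
      exact ⟨C, hC, hC.1.hf hyC⟩
    exact h1.closure S.cf
  have hEg : MapsTo g (closure U) (closure U) := by
    have h1 : MapsTo g U U := by
      rintro y ⟨C, hC, hyC⟩
      exact ⟨C, hC, hC.1.hg hyC⟩
    exact h1.closure S.cg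
  have hE : Inv f g a b (closure U) :=
    { cl := isClosed_closure
      oc := isPreconnected_iff_ordConnected.1 hUp.closure
      ne := ⟨x0, subset_closure (hAU hx0)⟩
      sub := by
        apply closure_minimal _ isClosed_Icc
        rintro y ⟨C, hC, hyC⟩
        exact hC.1.sub hyC
      hf := hEf
      hg := hEg }
  refine ⟨closure U, hE, hAU.trans subset_closure, ?_, ?_⟩
  · rw [Set.disjoint_iff_inter_eq_empty]
    by_contra hne
    have hne' := Set.nonempty_iff_ne_empty.2 hne
    have hBE : B ⊆ closure U := inv_dis hB hE (by rwa [Set.inter_comm] at hne')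
    obtain ⟨b0, b1, hb, hBI, -, -⟩ := minInv_Icc S hno hB
    have hUo : OrdConnected U := isPreconnected_iff_ordConnected.1 hUp
    have hb0 : b0 ∈ B := by rw [hBI]; exact left_mem_Icc.2 hb.le
    have hb1 : b1 ∈ B := by rw [hBI]; exact right_mem_Icc.2 hb.le
    have hside : U ⊆ Iic b0 ∨ U ⊆ Ici b1 := by
      by_contra hcon
      rw [not_or, Set.not_subset, Set.not_subset] at hcon
      obtain ⟨⟨u, hu, hu'⟩, v, hv, hv'⟩ := hcon
      rw [mem_Iic, not_le] at hu'
      rw [mem_Ici, not_le] at hv'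
      -- u > b0, v < b1; u ∉ B, v ∉ B
      have huB : u ∉ Icc b0 b1 := fun h => Set.disjoint_left.1 hUB hu (by rw [hBI]; exact h)
      have hvB : v ∉ Icc b0 b1 := fun h => Set.disjoint_left.1 hUB hv (by rw [hBI]; exact h)
      have hu1 : b1 < u := by
        by_contra h
        exact huB ⟨hu'.le, not_lt.1 h⟩
      have hv1 : v < b0 := by
        by_contra h
        exact hvB ⟨not_lt.1 h, hv'.le⟩
      have : b0 ∈ U := hUo.out hv hu ⟨hv1.le, by linarith⟩
      exact Set.disjoint_left.1 hUB this hb0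
    rcases hside with h | h
    · have h1 : closure U ⊆ Iic b0 := closure_minimal h isClosed_Iic
      have h2 := h1 (hBE hb1)
      rw [mem_Iic] at h2
      linarith
    · have h1 : closure U ⊆ Ici b1 := closure_minimal h isClosed_Ici
      have h2 := h1 (hBE hb0)
      rw [mem_Ici] at h2
      linarith
  · intro C hC hAC hCB
    exact (subset_sUnion_of_mem (show C ∈ Cs from ⟨hC, hAC, hCB⟩)).trans subset_closure

theorem exists_gap (S : Sys f g a b) (hno : NoCommon f g) {A B : Set ℝ} (hA : Inv f g a b A)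
    (hB : Inv f g a b B) (hd : Disjoint A B) :
    ∃ A' B' EA EB : Set ℝ, Gap f g a b A' B' EA EB := by
  obtain ⟨A, B, hA, hB, hlt, hadj⟩ := exists_adj S hno hA hB hd
  have hltAB : ∀ x ∈ A, ∀ y ∈ B, x < y := fun x hx y hy =>
    ((le_csSup hA.compact.bddAbove hx).trans_lt hlt).trans_le (csInf_le hB.compact.bddBelow hy)
  have hAB : Disjoint A B := by
    rw [Set.disjoint_left]
    intro x hx hy
    exact lt_irrefl _ (hltAB x hx x hy)
  obtain ⟨EA, hEA, hAEA, hEAB, hmaxA⟩ := exists_maxInv S hno hA hB hAB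
  obtain ⟨EB, hEB, hBEB, hEBA, hmaxB⟩ := exists_maxInv S hno hB hA hAB.symm
  have hA1 := hA.compact.sSup_mem hA.ne
  have hB0 := hB.compact.sInf_mem hB.ne
  have hEAlt : ∀ x ∈ EA, x < sInf B := by
    intro x hx
    by_contra h
    push Not at h
    have h1 : sInf B ∈ EA := hEA.oc.out (hAEA hA1) hx ⟨hlt.le, h⟩
    exact Set.disjoint_left.1 hEAB h1 hB0
  have hEBlt : ∀ x ∈ EB, sSup A < x := by
    intro x hx
    by_contra h
    push Not at h
    have h1 : sSup A ∈ EB := hEB.oc.out hx (hBEB hB0) ⟨h, hlt.le⟩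
    exact Set.disjoint_left.1 hEBA h1 hA1
  have hdisj : ∀ x, x ∈ EA → x ∈ EB → False := by
    intro x hx hy
    have hI := inv_inter hEA hEB ⟨x, hx, hy⟩
    refine hadj _ hI ⟨?_, ?_⟩
    · exact hEBlt _ (hI.compact.sInf_mem hI.ne).2
    · exact hEAlt _ (hI.compact.sSup_mem hI.ne).1
  have hltE : sSup EA < sInf EB := by
    have h1 := hEA.compact.sSup_mem hEA.ne
    have h2 := hEB.compact.sInf_mem hEB.ne
    by_contra h
    push Not at h
    -- sInf EB ≤ sSup EA
    rcases le_total (sInf EB) (sSup A) with h3 | h3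
    · exact absurd (hEBlt _ h2) (not_lt.2 h3)
    · exact hdisj (sInf EB) (hEA.oc.out (hAEA hA1) h1 ⟨h3, h⟩) h2
  exact ⟨A, B, EA, EB,
    { mA := hA
      mB := hB
      iA := hEA
      iB := hEB
      sA := hAEA
      sB := hBEB
      dA := hEAB
      dB := hEBA
      lt := hltE
      adj := hadj
      maxA := hmaxA
      maxB := hmaxB }⟩

end Pool.Agent.MP4545.Ex
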