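import Pool.Agent.Work.MP_4545a8_an.Ex.ZLem

/-!
MODULE Upg (medium). Without common periodic points mixing is exactness.

PROOF. Put `H = F ∘ G`; `H '' Icc 0 1 = Icc 0 1`. Let
`E = {e | (e = 0 ∨ e = 1) ∧ ∀ k u, 0 < u → u < 1 → H^k u ≠ e}`.
(1) If `y ∈ Icc 0 1` and `y ∉ E` there are `k` and `u ∈ (0,1)` with `H^k u = y` (`k = 0` if `y` is
inside). So for `0 ≤ p < q ≤ 1` there is `N` with `y ∈ H^n '' Icc p q` for all `n ≥ N` (`hmix` with
`ε = min u (1 - u)`; `n ≥ N0 + k`).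
(2) If `w ∈ Icc 0 1` and `H^k w ∈ E` then `w ∈ E`: `w` is not in `(0,1)` by definition of `E`, so
`w = 0` or `w = 1`, and `H^j u = w` with `u ∈ (0,1)` would give `H^(k+j) u ∈ E`.
(3) `H` maps `E` to `E`: every `e ∈ E` is `H w`, `w ∈ Icc 0 1` (surjectivity), `w ∈ E` by (2).
So `H` restricted to a part of the (at most two element) set `E` covers `E`; if `E` has one element `e`
then `H e = e`; if `E = {0, 1}` the preimages of `0` and of `1` in `E` are different, so `H` permutes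
`{0, 1}`.
(4) `F` maps `E` to `E`. Suppose `e ∈ E`, `y = F e ∉ E`. `G y = H e ∈ E` by (3) (`G (F e) = F (G e)`).
By (1) every interval `Icc p q` contains `w` with `H^n w = y`, for some `n`, and then
`H^n (G w) = G (H^n w) = G y ∈ E`, so `G w ∈ E ⊆ {0, 1}` by (2). So `G w ∈ {0, 1}` for a dense set of
`w ∈ Icc 0 1`, hence for all `w ∈ Icc 0 1` (continuity), against `hG` (the point `1/2`).
(5) `G` maps `E` to `E`: the same with `F` and `G` exchanged (`G ∘ F = F ∘ G`, `swap_comp`).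
(6) `E` is empty by `two_set` (module ZLem, `r = 1`). So by (1) for `y = 0` and `y = 1` there is `N`
such that `0, 1 ∈ H^n '' Icc p q` for `n ≥ N`; `H^n '' Icc p q` is an interval contained in
`Icc 0 1`.
-/

set_option autoImplicit false

namespace Pool.Agent.MP4545.Ex

open Set Function Filter Topology
open Pool.Agent.MP4545

private lemma upg_map {A B H : ℝ → ℝ} {E : Set ℝ} (hB : Continuous B)
    (hcomm : ∀ n u, H^[n] (B u) = B (H^[n] u)) (hBA : ∀ u, B (A u) = H u)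
    (hBr : ∀ u, B u ∈ Icc (0 : ℝ) 1) (hAr : ∀ u, A u ∈ Icc (0 : ℝ) 1)
    (h1 : ∀ y ∈ Icc (0 : ℝ) 1, y ∉ E → ∀ p q : ℝ, 0 ≤ p → p < q → q ≤ 1 →
      ∃ n, y ∈ H^[n] '' Icc p q)
    (h2 : ∀ w ∈ Icc (0 : ℝ) 1, ∀ k, H^[k] w ∈ E → w ∈ E) (hE : ∀ e ∈ E, e = 0 ∨ e = 1)
    (hH : MapsTo H E E) (hsurj : B '' Icc (0 : ℝ) 1 = Icc (0 : ℝ) 1) : MapsTo A E E := by
  intro e he
  by_contra hy
  have hBy : B (A e) ∈ E := by rw [hBA]; exact hH he
  have hdense : ∀ p q : ℝ, 0 ≤ p → p < q → q ≤ 1 → ∃ w ∈ Icc p q, B w = 0 ∨ B w = 1 := by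
    intro p q hp hpq hq
    obtain ⟨n, w, hw, hwn⟩ := h1 (A e) (hAr e) hy p q hp hpq hq
    refine ⟨w, hw, hE _ ?_⟩
    apply h2 (B w) (hBr w) n
    rw [hcomm, hwn]
    exact hBy
  have hhalf : (1 / 2 : ℝ) ∈ B '' Icc (0 : ℝ) 1 := by
    rw [hsurj]
    constructor <;> norm_num
  obtain ⟨w, hw, hw2⟩ := hhalf
  obtain ⟨δ, hδ, hδ'⟩ := Metric.continuous_iff.1 hB w (1 / 4) (by norm_num)
  have hno : ∀ w', |w' - w| < δ → B w' ≠ 0 ∧ B w' ≠ 1 := by
    intro w' hw'
    have h3 := hδ' w' (by rw [Real.dist_eq]; exact hw')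
    rw [Real.dist_eq, hw2, abs_lt] at h3
    constructor
    · intro h4
      rw [h4] at h3
      linarith [h3.1]
    · intro h4
      rw [h4] at h3
      linarith [h3.2]
  rcases lt_or_eq_of_le hw.2 with hlt | heq
  · obtain ⟨w', hw', h4⟩ := hdense w (min 1 (w + δ / 2)) hw.1 (lt_min hlt (by linarith))
      (min_le_left _ _)
    have h5 : w' ≤ w + δ / 2 := hw'.2.trans (min_le_right _ _)
    have h6 := hno w' (by rw [abs_lt]; constructor <;> linarith [hw'.1])
    rcases h4 with h4 | h4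
    · exact h6.1 h4
    · exact h6.2 h4
  · obtain ⟨w', hw', h4⟩ := hdense (max 0 (w - δ / 2)) w (le_max_left _ _)
      (max_lt (by rw [heq]; norm_num) (by linarith)) hw.2
    have h5 : w - δ / 2 ≤ w' := (le_max_right _ _).trans hw'.1
    have h6 := hno w' (by rw [abs_lt]; constructor <;> linarith [hw'.2])
    rcases h4 with h4 | h4
    · exact h6.1 h4
    · exact h6.2 h4

theorem upgrade {F G : ℝ → ℝ} (S : Sys F G 0 1) (hno : NoCommon F G) (hmix : Mixing F G)
    (hF : F '' Icc (0 : ℝ) 1 = Icc (0 : ℝ) 1) (hG : G '' Icc (0 : ℝ) 1 = Icc (0 : ℝ) 1) {p q : ℝ}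
    (hp : 0 ≤ p) (hpq : p < q) (hq : q ≤ 1) :
    ∃ N, ∀ n, N ≤ n → (F ∘ G)^[n] '' Icc p q = Icc (0 : ℝ) 1 := by
  have hc : Function.Commute F G := S.comm
  have hHr : ∀ u, (F ∘ G) u ∈ Icc (0 : ℝ) 1 := fun u => S.rf _
  have hHsurj : (F ∘ G) '' Icc (0 : ℝ) 1 = Icc (0 : ℝ) 1 := by
    rw [image_comp, hG, hF]
  set H : ℝ → ℝ := F ∘ G with hH
  set E : Set ℝ := {e | (e = 0 ∨ e = 1) ∧ ∀ (k : ℕ) (u : ℝ), 0 < u → u < 1 → H^[k] u ≠ e} with hE
  have h1 : ∀ y ∈ Icc (0 : ℝ) 1, y ∉ E → ∀ p q : ℝ, 0 ≤ p → p < q → q ≤ 1 →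
      ∃ N, ∀ n, N ≤ n → y ∈ H^[n] '' Icc p q := by
    intro y hy hyE p q hp hpq hq
    obtain ⟨k, u, hu0, hu1, huk⟩ : ∃ (k : ℕ) (u : ℝ), 0 < u ∧ u < 1 ∧ H^[k] u = y := by
      by_cases hy' : 0 < y ∧ y < 1
      · exact ⟨0, y, hy'.1, hy'.2, rfl⟩
      · have h3 : y = 0 ∨ y = 1 := by
          rcases eq_or_lt_of_le hy.1 with h | h
          · exact Or.inl h.symm
          · right
            by_contra h4
            exact hy' ⟨h, lt_of_le_of_ne hy.2 h4⟩
        by_contra hcon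
        push Not at hcon
        exact hyE ⟨h3, fun k u h4 h5 => hcon k u h4 h5⟩
    obtain ⟨N, hN⟩ := hmix p q hp hpq hq (min u (1 - u)) (lt_min hu0 (by linarith))
    refine ⟨N + k, fun n hn => ?_⟩
    have h3 : u ∈ Icc (min u (1 - u)) (1 - min u (1 - u)) := by
      refine ⟨min_le_left _ _, ?_⟩
      have := min_le_right u (1 - u)
      linarith
    obtain ⟨w, hw, hw'⟩ := hN (n - k) (by omega) h3
    refine ⟨w, hw, ?_⟩
    have e : n = k + (n - k) := by omega
    rw [e, iterate_add_apply, hw', huk]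
  have h2 : ∀ w ∈ Icc (0 : ℝ) 1, ∀ k, H^[k] w ∈ E → w ∈ E := by
    intro w hw k hk
    have hw01 : w = 0 ∨ w = 1 := by
      rcases eq_or_lt_of_le hw.1 with h | h
      · exact Or.inl h.symm
      · right
        by_contra h4
        exact hk.2 k w h (lt_of_le_of_ne hw.2 h4) rfl
    refine ⟨hw01, fun j u hu0 hu1 hj => ?_⟩
    apply hk.2 (k + j) u hu0 hu1
    rw [iterate_add_apply, hj]
  have hpre : ∀ e ∈ E, ∃ w ∈ E, H w = e := by
    intro e he
    have h3 : e ∈ Icc (0 : ℝ) 1 := by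
      rcases he.1 with h | h
      · rw [h]; constructor <;> norm_num
      · rw [h]; constructor <;> norm_num
    rw [← hHsurj] at h3
    obtain ⟨w, hw, hwe⟩ := h3
    exact ⟨w, h2 w hw 1 (by show H w ∈ E; rw [hwe]; exact he), hwe⟩
  have h3 : MapsTo H E E := by
    intro e he
    obtain ⟨w, hw, hwe⟩ := hpre e he
    by_cases hwe' : w = e
    · rw [hwe'] at hwe
      rw [hwe]
      exact he
    · obtain ⟨w', hw', hww⟩ := hpre w hw
      have h4 : w' = e := by
        by_contra h5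
        have h6 : w' = w := by
          rcases he.1 with h | h <;> rcases hw.1 with h' | h' <;> rcases hw'.1 with h'' | h''
          · exact absurd (h'.trans h.symm) hwe'
          · exact absurd (h'.trans h.symm) hwe'
          · exact absurd (h''.trans h.symm) h5
          · exact h''.trans h'.symm
          · exact h''.trans h'.symm
          · exact absurd (h''.trans h.symm) h5
          · exact absurd (h'.trans h.symm) hwe'
          · exact absurd (h'.trans h.symm) hwe'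
        rw [h6] at hww
        exact hwe' (hww.symm.trans hwe)
      rw [h4] at hww
      rw [hww]
      exact hw
  have hE01 : ∀ e ∈ E, e = 0 ∨ e = 1 := fun e he => he.1
  have h1' : ∀ y ∈ Icc (0 : ℝ) 1, y ∉ E → ∀ p q : ℝ, 0 ≤ p → p < q → q ≤ 1 →
      ∃ n, y ∈ H^[n] '' Icc p q := by
    intro y hy hyE p q hp hpq hq
    obtain ⟨N, hN⟩ := h1 y hy hyE p q hp hpq hq
    exact ⟨N, hN N le_rfl⟩
  have hcG : ∀ n u, H^[n] (G u) = G (H^[n] u) := by
    intro n u
    have h4 : Function.Commute H G := by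
      intro v
      show F (G (G v)) = G (F (G v))
      exact S.comm (G v)
    exact (h4.iterate_left n).eq u
  have hcF : ∀ n u, H^[n] (F u) = F (H^[n] u) := by
    intro n u
    have h4 : Function.Commute H F := by
      intro v
      show F (G (F v)) = F (F (G v))
      rw [S.comm v]
    exact (h4.iterate_left n).eq u
  have hFE : MapsTo F E E := upg_map S.cg hcG (fun u => (S.comm u).symm) S.rg S.rf h1' h2 hE01 h3 hG
  have hGE : MapsTo G E E := upg_map S.cf hcF (fun u => rfl) S.rf S.rg h1' h2 hE01 h3 hF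
  have hempty : ∀ e, e ∉ E := by
    intro e he
    exact two_set S hno (r := 1) one_pos ⟨e, he⟩ hE01 hFE hGE
  obtain ⟨N0, hN0⟩ := h1 0 (by constructor <;> norm_num) (hempty 0) p q hp hpq hq
  obtain ⟨N1, hN1⟩ := h1 1 (by constructor <;> norm_num) (hempty 1) p q hp hpq hq
  refine ⟨max N0 N1, fun n hn => ?_⟩
  apply Subset.antisymm
  · rintro _ ⟨w, hw, rfl⟩
    have h4 : MapsTo H (Icc (0 : ℝ) 1) (Icc (0 : ℝ) 1) := fun u _ => hHr u
    exact h4.iterate n ⟨hp.trans hw.1, hw.2.trans hq⟩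
  · have hcont : Continuous (H^[n]) := (S.cf.comp S.cg).iterate n
    have h5 : OrdConnected (H^[n] '' Icc p q) := isPreconnected_iff_ordConnected.1
      (isPreconnected_Icc.image _ hcont.continuousOn)
    exact h5.out (hN0 n (le_of_max_le_left hn)) (hN1 n (le_of_max_le_right hn))

end Pool.Agent.MP4545.Ex
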