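import Pool.Agent.Work.MP_4545a8_an.Ex.GapDicho
import Pool.Agent.Work.MP_4545a8_an.Ex.U1
import Pool.Agent.Work.MP_4545a8_an.Ex.Cover
import Pool.Agent.Work.MP_4545a8_an.Ex.ZLem

set_option autoImplicit false

/-!
MODULE Uthm (medium). Two invariant intervals of a pair without common periodic point intersect.

PROOF. Suppose they are disjoint; let `G` be a gap (`exists_gap`). Let `X = K f g ∩ Ioo α β`,
`α = sSup EA`, `β = sInf EB`. By `wall_right` for `EA` and `wall_left` for `EB` (`Inv.wall`) there are no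
points of `K f g` in `(α, α + ε)` and in `(β - ε, β)`, so `X = K f g ∩ Icc (α + ε') (β - ε')` is
compact. It is nonempty (`between`).
Suppose some `z ∈ X` satisfies `Hull z (f^m z) = Hull z (f z)` for all `m ≥ 1`. By `gap_hull`
`Hull z (f z)` is invariant, compact, contains `A` and `B`; it is `Icc c d` (`eq_Icc`), `c < d` as it
contains `z < sInf B ∈ B`; `Core f g a b z c d` (`ff`, `gg`: `hull_per` with `m = 1`). `z_lemma` with
`E = A`, `r = 1` gives `A = Icc c d ⊇ B`, but `A`, `B` are disjoint (`G.dA`, `G.sA`) and `B` nonempty.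
So for every `z ∈ X` there is `m ≥ 1` with `Hull z (f^m z) ≠ Hull z (f z)`, and `gap_dicho` gives a
block `Q ∋ z` with property `Φ Q := ∀ i, Disjoint (f^i '' Q) EA ∧ Disjoint (f^i '' Q) EB`. `Φ` passes to
the blocks `R ⊆ (⋃ f^i '' P) ∪ (⋃ f^i '' Q)` (apply `f^j`). `cover` gives a finite family `Cs` covering
`X`. Let `C` be the member with least `sInf` among those which meet `X`. `C` is order connected, disjoint
from `EA ∋ α` (`i = 0`), contains a point `> α`: so `C ⊆ Ioi α`, `α < sInf C` (`sInf C ∈ C`). In the same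
way `sInf C < β`. By `between` for `EA` and `C` (`Blk.wall`) there is `z ∈ K f g` with
`α < z < sInf C`; `z ∈ X`, so `z ∈ C'` for a member `C'`, `sInf C' ≤ z < sInf C`, contradiction.
-/

namespace Pool.Agent.MP4545.Ex

open Set Function Filter Topology
open Pool.Agent.MP4545

variable {f g : ℝ → ℝ} {a b : ℝ}

theorem inv_meet (S : Sys f g a b) (hno : NoCommon f g) {A B : Set ℝ} (hA : Inv f g a b A)
    (hB : Inv f g a b B) : (A ∩ B).Nonempty := by
  by_contra hAB
  rw [not_nonempty_iff_eq_empty, ← disjoint_iff_inter_eq_empty] at hAB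
  obtain ⟨A', B', EA, EB, G⟩ := exists_gap S hno hA hB hAB
  clear hAB hA hB
  obtain ⟨ε1, hε1, k1⟩ := wall_right S hno G.iA.wall
  obtain ⟨ε2, hε2, k2⟩ := wall_left S hno G.iB.wall
  have hαE : sSup EA ∈ EA := G.iA.compact.sSup_mem G.iA.ne
  have hβE : sInf EB ∈ EB := G.iB.compact.sInf_mem G.iB.ne
  have hαβ := G.lt
  set α := sSup EA with hα
  set β := sInf EB with hβ
  set X : Set ℝ := K f g ∩ Ioo α β with hX
  have hXeq : X = K f g ∩ Icc (α + ε1 / 2) (β - ε2 / 2) := by
    ext z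
    constructor
    · rintro ⟨hzK, hz1, hz2⟩
      have hzK' : f (g z) = z := hzK
      refine ⟨hzK, ?_, ?_⟩
      · by_contra hcon
        push Not at hcon
        have := k1 z hz1 (by linarith)
        linarith
      · by_contra hcon
        push Not at hcon
        have := k2 z (by linarith) hz2
        linarith
    · rintro ⟨hzK, hz1, hz2⟩
      exact ⟨hzK, by linarith, by linarith⟩
  have hXc : IsCompact X := by
    rw [hXeq]
    exact isCompact_Icc.inter_left (isClosed_K S)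
  have hXK : X ⊆ K f g := inter_subset_left
  -- no point of `X` has all its hulls equal
  have hstep : ∀ z ∈ X, ∃ m, 0 < m ∧ Hull (f ∘ g) z (f^[m] z) ≠ Hull (f ∘ g) z (f z) := by
    rintro z ⟨hzK, hz1, hz2⟩
    by_contra hcon
    push Not at hcon
    obtain ⟨hL, hAL, hBL, -⟩ := gap_hull S hno G hzK hz1 hz2
    obtain ⟨-, -, bA, bB⟩ := G.below hz1 hz2
    have hLI := eq_Icc hL.compact hL.oc hL.ne
    have hzL : z ∈ Hull (f ∘ g) z (f z) := left_mem_hull _ _ _
    obtain ⟨y, hy⟩ := G.mB.ne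
    have hper := hull_per S hno hzK one_pos
    rw [iterate_one, iterate_one] at hper
    have hlt : sInf (Hull (f ∘ g) z (f z)) < sSup (Hull (f ∘ g) z (f z)) :=
      lt_of_le_of_lt (csInf_le hL.compact.bddBelow hzL)
        (lt_of_lt_of_le (bB y hy) (le_csSup hL.compact.bddAbove (hBL hy)))
    have hC : Core f g a b z (sInf (Hull (f ∘ g) z (f z))) (sSup (Hull (f ∘ g) z (f z))) :=
      { hx := hzK
        lt := hlt
        sub := hLI ▸ hL.sub
        ff := by rw [← hLI]; exact hper.1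
        gg := by rw [← hLI]; exact hper.2
        hull := fun m hm => by rw [← hLI]; exact hcon m hm }
    have hE := z_lemma S hno hC G.mA.cl G.mA.oc G.mA.ne (by rw [← hLI]; exact hAL) one_pos
      (by rw [iterate_one]; exact G.mA.hf) (by rw [iterate_one]; exact G.mA.hg)
    rw [← hLI] at hE
    have hyA : y ∈ A' := by rw [hE]; exact hBL hy
    exact absurd (bA y hyA) (not_lt.2 (bB y hy).le)
  obtain ⟨Cs, hCs1, hCs2, -, hCs4⟩ := cover S hno
    (fun Q => ∀ i : ℕ, Disjoint (f^[i] '' Q) EA ∧ Disjoint (f^[i] '' Q) EB)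
    (by
      intro d P e Q r R _ _ _ hP hQ hR i
      have h1 : ∀ E : Set ℝ, (∀ j : ℕ, Disjoint (f^[j] '' P) E) → (∀ j : ℕ, Disjoint (f^[j] '' Q) E) →
          Disjoint (f^[i] '' R) E := by
        intro E h1 h2
        rw [Set.disjoint_left]
        rintro _ ⟨u, hu, rfl⟩ hE
        rcases hR hu with h | h
        · obtain ⟨j, w, hw, rfl⟩ := mem_iUnion.1 h
          rw [← iterate_add_apply] at hE
          exact (Set.disjoint_left.1 (h1 (i + j))) (mem_image_of_mem _ hw) hE
        · obtain ⟨j, w, hw, rfl⟩ := mem_iUnion.1 h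
          rw [← iterate_add_apply] at hE
          exact (Set.disjoint_left.1 (h2 (i + j))) (mem_image_of_mem _ hw) hE
      exact ⟨h1 EA (fun j => (hP j).1) (fun j => (hQ j).1),
        h1 EB (fun j => (hP j).2) (fun j => (hQ j).2)⟩)
    hXc hXK (by
      intro z hz
      obtain ⟨m, hm, hne⟩ := hstep z hz
      rcases gap_dicho S hno G hz.1 hz.2.1 hz.2.2 hm with h | ⟨d, Q, hQ, hzQ, hQd⟩
      · exact absurd h hne
      · exact ⟨d, Q, hQ, hQd, hzQ⟩)
  obtain ⟨z0, hz0K, hz01, hz02⟩ := between S hno G.iA.wall G.iB.wall G.lt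
  have hz0X : z0 ∈ X := ⟨hz0K, hz01, hz02⟩
  classical
  set Fs := Cs.filter (fun C => (C ∩ X).Nonempty) with hFs
  have hFne : Fs.Nonempty := by
    obtain ⟨C, hC, hzC⟩ := hCs4 z0 hz0X
    exact ⟨C, Finset.mem_filter.2 ⟨hC, ⟨z0, hzC, hz0X⟩⟩⟩
  obtain ⟨C, hCF, hCmin⟩ := Finset.exists_min_image Fs (fun C => sInf C) hFne
  obtain ⟨hCCs, ⟨x, hxC, hxX⟩⟩ := Finset.mem_filter.1 hCF
  obtain ⟨dC, hBlk⟩ := hCs1 C hCCs
  have hCw : Wall f g a b C := hBlk.wall S
  have hd0 := hCs2 C hCCs 0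
  rw [iterate_zero, image_id] at hd0
  have hCinf : sInf C ∈ C := hCw.compact.sInf_mem hCw.ne
  have hαC : α < sInf C := by
    by_contra hcon
    push Not at hcon
    exact (Set.disjoint_left.1 hd0.1) (hCw.oc.out hCinf hxC ⟨hcon, hxX.2.1.le⟩) hαE
  have hCβ : sInf C < β := lt_of_le_of_lt (csInf_le hCw.compact.bddBelow hxC) hxX.2.2
  obtain ⟨z, hzK, hz1, hz2⟩ := between S hno G.iA.wall hCw hαC
  have hzX : z ∈ X := ⟨hzK, hz1, hz2.trans hCβ⟩
  obtain ⟨C', hC', hzC'⟩ := hCs4 z hzX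
  obtain ⟨d', hBlk'⟩ := hCs1 C' hC'
  have h5 := hCmin C' (Finset.mem_filter.2 ⟨hC', ⟨z, hzC', hzX⟩⟩)
  have h6 : sInf C' ≤ z := csInf_le (hBlk'.wall S).compact.bddBelow hzC'
  linarith

end Pool.Agent.MP4545.Ex
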